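import Pool.Agent.SRAlt.Lin

set_option autoImplicit false

open scoped TensorProduct

namespace Pool.Agent.SRAlt

open Pool.Agent.Superrank

variable {F : Type} [Field F]

section comm

/-- the tensors `g ⊗ h` with `g`, `h` of the same parity -/
def pureSame (F : Type) [Field F] : Set (Gr F ⊗[F] Gr F) :=
  {x | ∃ p : ZMod 2, ∃ g ∈ grPart F p, ∃ h ∈ grPart F p, x = g ⊗ₜ[F] h}

lemma span_same_mul {x y : Gr F ⊗[F] Gr F} (hx : x ∈ Submodule.span F (pureSame F))
    (hy : y ∈ Submodule.span F (pureSame F)) : x * y ∈ Submodule.span F (pureSame F) := by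
  induction hx using Submodule.span_induction with
  | mem x hx =>
    obtain ⟨p, g, hg, h, hh, rfl⟩ := hx
    induction hy using Submodule.span_induction with
    | mem y hy =>
      obtain ⟨q, g', hg', h', hh', rfl⟩ := hy
      rw [Algebra.TensorProduct.tmul_mul_tmul]
      exact Submodule.subset_span ⟨p + q, _, grPart_mul hg hg', _, grPart_mul hh hh', rfl⟩
    | zero => rw [mul_zero]; exact Submodule.zero_mem _
    | add y z _ _ h1 h2 => rw [mul_add]; exact Submodule.add_mem _ h1 h2
    | smul c y _ h1 => rw [mul_smul_comm]; exact Submodule.smul_mem _ _ h1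
  | zero => rw [zero_mul]; exact Submodule.zero_mem _
  | add y z _ _ h1 h2 => rw [add_mul]; exact Submodule.add_mem _ h1 h2
  | smul c y _ h1 => rw [smul_mul_assoc]; exact Submodule.smul_mem _ _ h1

lemma span_same_comm {x y : Gr F ⊗[F] Gr F} (hx : x ∈ Submodule.span F (pureSame F))
    (hy : y ∈ Submodule.span F (pureSame F)) : x * y = y * x := by
  induction hx using Submodule.span_induction with
  | mem x hx =>
    obtain ⟨p, g, hg, h, hh, rfl⟩ := hx
    induction hy using Submodule.span_induction with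
    | mem y hy =>
      obtain ⟨q, g', hg', h', hh', rfl⟩ := hy
      rw [Algebra.TensorProduct.tmul_mul_tmul, Algebra.TensorProduct.tmul_mul_tmul]
      rcases zmod2_cases p with rfl | rfl
      · rw [even_comm hg hg', even_comm hh hh']
      · rcases zmod2_cases q with rfl | rfl
        · rw [even_comm hg' hg, even_comm hh' hh]
        · rw [odd_anticomm hg hg', odd_anticomm hh hh', TensorProduct.neg_tmul,
            TensorProduct.tmul_neg, neg_neg]
    | zero => rw [mul_zero, zero_mul]
    | add y z _ _ h1 h2 => rw [mul_add, add_mul, h1, h2]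
    | smul c y _ h1 => rw [mul_smul_comm, smul_mul_assoc, h1]
  | zero => rw [mul_zero, zero_mul]
  | add y z _ _ h1 h2 => rw [mul_add, add_mul, h1, h2]
  | smul c y _ h1 => rw [mul_smul_comm, smul_mul_assoc, h1]

/-- the commutative subalgebra `G_0 ⊗ G_0 + G_1 ⊗ G_1` of `G ⊗ G` -/
noncomputable def Rc (F : Type) [Field F] : Subalgebra F (Gr F ⊗[F] Gr F) where
  toSubsemiring :=
    { carrier := Submodule.span F (pureSame F)
      mul_mem' := fun hx hy => span_same_mul hx hy
      one_mem' := Submodule.subset_span ⟨0, 1, one_mem_grPart, 1, one_mem_grPart, rfl⟩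
      add_mem' := fun hx hy => Submodule.add_mem _ hx hy
      zero_mem' := Submodule.zero_mem _ }
  algebraMap_mem' := fun r => by
    have : (1 : Gr F ⊗[F] Gr F) ∈ Submodule.span F (pureSame F) :=
      Submodule.subset_span ⟨0, 1, one_mem_grPart, 1, one_mem_grPart, rfl⟩
    show algebraMap F _ r ∈ Submodule.span F (pureSame F)
    rw [Algebra.algebraMap_eq_smul_one]
    exact Submodule.smul_mem _ _ this

noncomputable instance : CommRing (Rc F) :=
  { (inferInstance : Ring (Rc F)) with
    mul_comm := fun x y => Subtype.ext (span_same_comm x.2 y.2) }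

end comm

section assoc

variable {C : Type} [NonUnitalNonAssocRing C] [Module F C] [IsScalarTower F C C]
  [SMulCommClass F C C]

/-- `G ⊗ C` -/
def GC (F : Type) [Field F] (C : Type) [NonUnitalNonAssocRing C] [Module F C] : Type :=
  Gr F ⊗[F] C

noncomputable instance : NonUnitalNonAssocRing (GC F C) :=
  inferInstanceAs (NonUnitalNonAssocRing (Gr F ⊗[F] C))
noncomputable instance : Module F (GC F C) := inferInstanceAs (Module F (Gr F ⊗[F] C))
instance : IsScalarTower F (GC F C) (GC F C) :=
  inferInstanceAs (IsScalarTower F (Gr F ⊗[F] C) (Gr F ⊗[F] C))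
instance : SMulCommClass F (GC F C) (GC F C) :=
  inferInstanceAs (SMulCommClass F (Gr F ⊗[F] C) (Gr F ⊗[F] C))

variable (F C) in
/-- the identity -/
noncomputable def toGC : Gr F ⊗[F] C ≃ₗ[F] GC F C := LinearEquiv.refl F (Gr F ⊗[F] C)

lemma toGC_mul (x y : Gr F ⊗[F] C) : toGC F C (x * y) = toGC F C x * toGC F C y := rfl

variable (F C) in
/-- the linear map `(G ⊗ G) ⊗ C → G ⊗ (G ⊗ C)` -/
noncomputable def assocL : (Gr F ⊗[F] Gr F) ⊗[F] C →ₗ[F] Gr F ⊗[F] GC F C :=
  LinearMap.lTensor (Gr F) (toGC F C).toLinearMap ∘ₗ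
    (TensorProduct.assoc F (Gr F) (Gr F) C).toLinearMap

@[simp] lemma assocL_tmul (g h : Gr F) (c : C) :
    assocL F C ((g ⊗ₜ h) ⊗ₜ c) = g ⊗ₜ toGC F C (h ⊗ₜ c) := by
  simp [assocL]

variable (F C) in
/-- `(G ⊗ G) ⊗ C → G ⊗ (G ⊗ C)` -/
noncomputable def assocHom : (Gr F ⊗[F] Gr F) ⊗[F] C →ₙₐ[F] Gr F ⊗[F] GC F C where
  toFun := assocL F C
  map_smul' := fun c x => by simp
  map_zero' := map_zero _
  map_add' := map_add _
  map_mul' := by
    intro x y
    induction x using TensorProduct.induction_on with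
    | zero => rw [zero_mul, map_zero, zero_mul]
    | tmul k a =>
      induction k using TensorProduct.induction_on with
      | zero => rw [TensorProduct.zero_tmul, zero_mul, map_zero, zero_mul]
      | tmul k1 k2 =>
        induction y using TensorProduct.induction_on with
        | zero => rw [mul_zero, map_zero, mul_zero]
        | tmul l b =>
          induction l using TensorProduct.induction_on with
          | zero => rw [TensorProduct.zero_tmul, mul_zero, map_zero, mul_zero]
          | tmul l1 l2 =>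
            simp only [Algebra.TensorProduct.tmul_mul_tmul, assocL_tmul]
            rw [← toGC_mul, Algebra.TensorProduct.tmul_mul_tmul]
          | add x y h1 h2 => rw [TensorProduct.add_tmul, mul_add, map_add, map_add, mul_add, h1, h2]
        | add x y h1 h2 => rw [mul_add, map_add, map_add, mul_add, h1, h2]
      | add x z h1 h2 => rw [TensorProduct.add_tmul, add_mul, map_add, map_add, add_mul, h1, h2]
    | add x z h1 h2 => rw [add_mul, map_add, map_add, add_mul, h1, h2]

@[simp] lemma assocHom_tmul (g h : Gr F) (c : C) :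
    assocHom F C ((g ⊗ₜ h) ⊗ₜ c) = g ⊗ₜ toGC F C (h ⊗ₜ c) := assocL_tmul g h c

variable (F C) in
/-- `R ⊗ C → G ⊗ (G ⊗ C)` -/
noncomputable def Psi : (Rc F) ⊗[F] C →ₙₐ[F] Gr F ⊗[F] GC F C :=
  (assocHom F C).comp (mapHom (Rc F).val (NonUnitalAlgHom.id F C))

lemma Psi_tmul (r : Rc F) (c : C) : Psi F C (r ⊗ₜ c) = assocHom F C (r.1 ⊗ₜ c) := rfl

variable (F C) in
/-- elements of parity `p` of `G ⊗ C` -/
noncomputable def Ev (p : ZMod 2) : Submodule F (GC F C) :=
  Submodule.span F {x | ∃ h ∈ grPart F p, ∃ c : C, x = toGC F C (h ⊗ₜ[F] c)}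

lemma Ev_mul {p q : ZMod 2} {x y : GC F C} (hx : x ∈ Ev F C p) (hy : y ∈ Ev F C q) :
    x * y ∈ Ev F C (p + q) := by
  induction hx using Submodule.span_induction with
  | mem x hx =>
    obtain ⟨h, hh, c, rfl⟩ := hx
    induction hy using Submodule.span_induction with
    | mem y hy =>
      obtain ⟨h', hh', c', rfl⟩ := hy
      rw [← toGC_mul, Algebra.TensorProduct.tmul_mul_tmul]
      exact Submodule.subset_span ⟨_, grPart_mul hh hh', _, rfl⟩
    | zero => rw [mul_zero]; exact Submodule.zero_mem _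
    | add y z _ _ h1 h2 => rw [mul_add]; exact Submodule.add_mem _ h1 h2
    | smul c y _ h1 => rw [mul_smul_comm]; exact Submodule.smul_mem _ _ h1
  | zero => rw [zero_mul]; exact Submodule.zero_mem _
  | add y z _ _ h1 h2 => rw [add_mul]; exact Submodule.add_mem _ h1 h2
  | smul c y _ h1 => rw [smul_mul_assoc]; exact Submodule.smul_mem _ _ h1

/-- the parity automorphism of the Grassmann algebra -/
noncomputable def par (F : Type) [Field F] : Gr F →ₐ[F] Gr F := CliffordAlgebra.involute

lemma par_gen (i : ℕ) : par F (gen F i) = - gen F i := CliffordAlgebra.involute_ι _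

lemma par_list (l : List ℕ) : par F (l.map (gen F)).prod = (-1 : F) ^ l.length •
    (l.map (gen F)).prod := by
  induction l with
  | nil => simp
  | cons a l ih =>
    rw [List.map_cons, List.prod_cons, map_mul, ih, par_gen, List.length_cons, pow_succ]
    simp

lemma par_even {g : Gr F} (hg : g ∈ grPart F 0) : par F g = g := by
  induction hg using Submodule.span_induction with
  | mem x hx =>
    obtain ⟨l, hl, rfl⟩ := hx
    rw [par_list, neg_one_pow_of_cast hl, one_smul]
  | zero => exact map_zero _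
  | add y z _ _ h1 h2 => rw [map_add, h1, h2]
  | smul c y _ h1 => rw [map_smul, h1]

lemma par_odd {g : Gr F} (hg : g ∈ grPart F 1) : par F g = - g := by
  induction hg using Submodule.span_induction with
  | mem x hx =>
    obtain ⟨l, hl, rfl⟩ := hx
    rw [par_list, neg_one_pow_of_cast' hl, neg_smul, one_smul]
  | zero => rw [map_zero, neg_zero]
  | add y z _ _ h1 h2 => rw [map_add, h1, h2, neg_add]
  | smul c y _ h1 => rw [map_smul, h1, smul_neg]

variable (F C) in
/-- the parity map on `G ⊗ C` -/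
noncomputable def parT : GC F C →ₗ[F] GC F C :=
  (toGC F C).toLinearMap ∘ₗ LinearMap.rTensor C (par F).toLinearMap ∘ₗ
    (toGC F C).symm.toLinearMap

lemma parT_tmul (h : Gr F) (c : C) : parT F C (toGC F C (h ⊗ₜ[F] c)) =
    toGC F C (par F h ⊗ₜ[F] c) := by
  simp [parT]

lemma parT_even {x : GC F C} (hx : x ∈ Ev F C 0) : parT F C x = x := by
  induction hx using Submodule.span_induction with
  | mem x hx =>
    obtain ⟨h, hh, c, rfl⟩ := hx
    rw [parT_tmul, par_even hh]
  | zero => exact map_zero _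
  | add y z _ _ h1 h2 => rw [map_add, h1, h2]
  | smul c y _ h1 => rw [map_smul, h1]

lemma parT_odd {x : GC F C} (hx : x ∈ Ev F C 1) : parT F C x = - x := by
  induction hx using Submodule.span_induction with
  | mem x hx =>
    obtain ⟨h, hh, c, rfl⟩ := hx
    rw [parT_tmul, par_odd hh, TensorProduct.neg_tmul, map_neg]
  | zero => rw [map_zero, neg_zero]
  | add y z _ _ h1 h2 => rw [map_add, h1, h2, neg_add]
  | smul c y _ h1 => rw [map_smul, h1, smul_neg]

lemma Ev_disjoint [CharZero F] : Disjoint (Ev F C 0) (Ev F C 1) := by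
  rw [Submodule.disjoint_def]
  intro x h0 h1
  have e : x = - x := (parT_even h0).symm.trans (parT_odd h1)
  have h2 : (2 : F) • x = 0 := by
    rw [two_smul]
    nth_rewrite 1 [e]
    simp
  exact (smul_eq_zero.1 h2).resolve_left two_ne_zero

/-! ### The superalgebra -/

/-- the functions on the index set with values in `G ⊗ C` -/
def D (F : Type) [Field F] (C : Type) [NonUnitalNonAssocRing C] [Module F C] (K : ℕ) : Type :=
  Finset ℕ × (ℕ → Fin K) → GC F C

noncomputable instance (K : ℕ) : NonUnitalNonAssocRing (D F C K) :=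
  inferInstanceAs (NonUnitalNonAssocRing (Finset ℕ × (ℕ → Fin K) → GC F C))
noncomputable instance (K : ℕ) : Module F (D F C K) :=
  inferInstanceAs (Module F (Finset ℕ × (ℕ → Fin K) → GC F C))
instance (K : ℕ) : IsScalarTower F (D F C K) (D F C K) :=
  inferInstanceAs (IsScalarTower F (Finset ℕ × (ℕ → Fin K) → GC F C)
    (Finset ℕ × (ℕ → Fin K) → GC F C))
instance (K : ℕ) : SMulCommClass F (D F C K) (D F C K) :=
  inferInstanceAs (SMulCommClass F (Finset ℕ × (ℕ → Fin K) → GC F C)
    (Finset ℕ × (ℕ → Fin K) → GC F C))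

/-- the odd generators -/
noncomputable def ygen {K : ℕ} (x : ℕ → C) (c : Fin K) : D F C K := fun p =>
  ∑ j ∈ p.1.filter (fun j => p.2 j = c), toGC F C (gen F j ⊗ₜ[F] x j)

variable (F) in
/-- the superalgebra generated by the `ygen` -/
noncomputable abbrev SA (K : ℕ) (x : ℕ → C) : NonUnitalSubalgebra F (D F C K) :=
  NonUnitalAlgebra.adjoin F (Set.range (ygen (F := F) (K := K) x))

variable (F) in
/-- the homogeneous parts -/
noncomputable def SAp (K : ℕ) (x : ℕ → C) (p : ZMod 2) : Submodule F (SA F K x) where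
  carrier := {a | ∀ i, a.1 i ∈ Ev F C p}
  add_mem' := fun ha hb i => add_mem (ha i) (hb i)
  zero_mem' := fun _ => zero_mem _
  smul_mem' := fun _ _ ha i => Submodule.smul_mem _ _ (ha i)

lemma mem_SAp {K : ℕ} {x : ℕ → C} {p : ZMod 2} {a : SA F K x} :
    a ∈ SAp F K x p ↔ ∀ i, a.1 i ∈ Ev F C p := Iff.rfl

lemma ygen_mem {K : ℕ} (x : ℕ → C) (c : Fin K) : ygen (F := F) x c ∈ SA F K x :=
  NonUnitalAlgebra.subset_adjoin F ⟨c, rfl⟩

/-- the generators as elements of the superalgebra -/
noncomputable def yA {K : ℕ} (x : ℕ → C) (c : Fin K) : SA F K x := ⟨ygen x c, ygen_mem x c⟩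

lemma yA_mem {K : ℕ} (x : ℕ → C) (c : Fin K) : yA (F := F) x c ∈ SAp F K x 1 := by
  intro i
  show ∑ j ∈ _, _ ∈ _
  exact sum_mem fun j _ => Submodule.subset_span ⟨gen F j, gen_mem_grPart j, x j, rfl⟩

lemma isSuper [CharZero F] (K : ℕ) (x : ℕ → C) : IsSuperalgebra F (SA F K x) (SAp F K x) where
  isCompl := by
    constructor
    · rw [Submodule.disjoint_def]
      intro a h0 h1
      apply Subtype.ext
      funext i
      exact (Submodule.disjoint_def.1 Ev_disjoint) _ (h0 i) (h1 i)
    · rw [codisjoint_iff, eq_top_iff]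
      rintro ⟨a, ha⟩ -
      have key : ∃ a0 ∈ SA F K x, ∃ a1 ∈ SA F K x, (∀ i, a0 i ∈ Ev F C 0) ∧
          (∀ i, a1 i ∈ Ev F C 1) ∧ a = a0 + a1 := by
        induction ha using NonUnitalAlgebra.adjoin_induction with
        | mem y hy =>
          obtain ⟨c, rfl⟩ := hy
          exact ⟨0, zero_mem _, _, ygen_mem x c, fun i => zero_mem _, yA_mem x c, by simp⟩
        | add u v _ _ hu hv =>
          obtain ⟨u0, hu0, u1, hu1, e0, e1, rfl⟩ := hu
          obtain ⟨v0, hv0, v1, hv1, f0, f1, rfl⟩ := hv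
          exact ⟨u0 + v0, add_mem hu0 hv0, u1 + v1, add_mem hu1 hv1,
            fun i => add_mem (e0 i) (f0 i), fun i => add_mem (e1 i) (f1 i), by abel⟩
        | zero => exact ⟨0, zero_mem _, 0, zero_mem _, fun i => zero_mem _, fun i => zero_mem _,
            by simp⟩
        | mul u v _ _ hu hv =>
          obtain ⟨u0, hu0, u1, hu1, e0, e1, rfl⟩ := hu
          obtain ⟨v0, hv0, v1, hv1, f0, f1, rfl⟩ := hv
          refine ⟨u0 * v0 + u1 * v1, add_mem (mul_mem hu0 hv0) (mul_mem hu1 hv1),
            u0 * v1 + u1 * v0, add_mem (mul_mem hu0 hv1) (mul_mem hu1 hv0),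
            fun i => add_mem ?_ ?_, fun i => add_mem ?_ ?_, ?_⟩
          · have := Ev_mul (e0 i) (f0 i)
            rwa [add_zero] at this
          · have := Ev_mul (e1 i) (f1 i)
            rwa [show (1 : ZMod 2) + 1 = 0 by decide] at this
          · have := Ev_mul (e0 i) (f1 i)
            rwa [zero_add] at this
          · have := Ev_mul (e1 i) (f0 i)
            rwa [add_zero] at this
          · rw [add_mul, mul_add, mul_add]
            abel
        | smul r u _ hu =>
          obtain ⟨u0, hu0, u1, hu1, e0, e1, rfl⟩ := hu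
          exact ⟨r • u0, SMulMemClass.smul_mem r hu0, r • u1, SMulMemClass.smul_mem r hu1,
            fun i => Submodule.smul_mem _ _ (e0 i), fun i => Submodule.smul_mem _ _ (e1 i),
            by rw [smul_add]⟩
      obtain ⟨a0, h0, a1, h1, e0, e1, rfl⟩ := key
      exact Submodule.mem_sup.2 ⟨⟨a0, h0⟩, e0, ⟨a1, h1⟩, e1, rfl⟩
  mul_mem := fun i j a ha b hb k => Ev_mul (ha k) (hb k)

lemma SA_fg' (K : ℕ) (x : ℕ → C) :
    NonUnitalAlgebra.adjoin F (Set.range (yA (F := F) (K := K) x)) = ⊤ := by
  classical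
  rw [eq_top_iff]
  rintro ⟨a, ha⟩ -
  induction ha using NonUnitalAlgebra.adjoin_induction with
  | mem y hy =>
    obtain ⟨c, rfl⟩ := hy
    exact NonUnitalAlgebra.subset_adjoin F (by simp [yA])
  | add u v hu hv h1 h2 => exact add_mem h1 h2
  | zero => exact zero_mem _
  | mul u v hu hv h1 h2 => exact mul_mem h1 h2
  | smul r u hu h1 => exact SMulMemClass.smul_mem r h1

lemma SA_fg (K : ℕ) (x : ℕ → C) :
    ∃ s : Finset (SA F K x), NonUnitalAlgebra.adjoin F (s : Set (SA F K x)) = ⊤ := by
  classical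
  exact ⟨Finset.univ.image (yA (F := F) (K := K) x), by simpa using SA_fg' K x⟩

/-- one coordinate -/
noncomputable def evHom {K : ℕ} {x : ℕ → C} (i : Finset ℕ × (ℕ → Fin K)) :
    SA F K x →ₙₐ[F] GC F C where
  toFun := fun a => a.1 i
  map_smul' := fun _ _ => rfl
  map_zero' := rfl
  map_add' := fun _ _ => rfl
  map_mul' := fun _ _ => rfl

/-- the projection of `G ⊗ A` onto one coordinate -/
noncomputable def projHom {K : ℕ} {x : ℕ → C} (i : Finset ℕ × (ℕ → Fin K)) :
    Gr F ⊗[F] (SA F K x) →ₙₐ[F] Gr F ⊗[F] GC F C :=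
  mapHom (AlgHom.id F (Gr F)) (evHom i)

lemma projHom_tmul {K : ℕ} {x : ℕ → C} (i : Finset ℕ × (ℕ → Fin K)) (g : Gr F) (a : SA F K x) :
    projHom i (g ⊗ₜ a) = g ⊗ₜ (a.1 i) := rfl

lemma projHom_inj {K : ℕ} {x : ℕ → C} (u : Gr F ⊗[F] (SA F K x))
    (h : ∀ i, projHom i u = 0) : u = 0 := by
  classical
  let b := Module.Basis.ofVectorSpace F (Gr F)
  have key : ∀ (i : Finset ℕ × (ℕ → Fin K)) (u : Gr F ⊗[F] (SA F K x)) k,
      (TensorProduct.equivFinsuppOfBasisLeft b u k).1 i =
        TensorProduct.equivFinsuppOfBasisLeft b (projHom i u) k := by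
    intro i u k
    induction u using TensorProduct.induction_on with
    | zero => rw [map_zero, map_zero, map_zero]; rfl
    | tmul p c =>
      rw [projHom_tmul, TensorProduct.equivFinsuppOfBasisLeft_apply_tmul_apply,
        TensorProduct.equivFinsuppOfBasisLeft_apply_tmul_apply]
      rfl
    | add x y h1 h2 =>
      rw [map_add, map_add, map_add, Finsupp.add_apply, Finsupp.add_apply, ← h1, ← h2]
      rfl
  apply (TensorProduct.equivFinsuppOfBasisLeft b).injective
  rw [map_zero]
  ext1 k
  rw [Finsupp.zero_apply]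
  apply Subtype.ext
  funext i
  rw [key i u k, h i, map_zero]
  rfl

/-- the coordinates of an element of the Grassmann envelope lie in the image of `R ⊗ C` -/
lemma projHom_mem {K : ℕ} {x : ℕ → C} {u : Gr F ⊗[F] (SA F K x)}
    (hu : u ∈ envelopeSubmodule F (SA F K x) (SAp F K x)) (i : Finset ℕ × (ℕ → Fin K)) :
    ∃ z, projHom i u = Psi F C z := by
  induction hu using Submodule.span_induction with
  | mem y hy =>
    obtain ⟨p, g, hg, a, ha, rfl⟩ := hy
    rw [projHom_tmul]
    have h1 : a.1 i ∈ Ev F C p := ha i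
    generalize a.1 i = w at h1 ⊢
    induction h1 using Submodule.span_induction with
    | mem y hy =>
      obtain ⟨h, hh, c, rfl⟩ := hy
      exact ⟨(⟨g ⊗ₜ h, Submodule.subset_span ⟨p, g, hg, h, hh, rfl⟩⟩ : Rc F) ⊗ₜ c, rfl⟩
    | zero => exact ⟨0, by rw [TensorProduct.tmul_zero, map_zero]⟩
    | add y z _ _ h1 h2 =>
      obtain ⟨z1, e1⟩ := h1
      obtain ⟨z2, e2⟩ := h2
      exact ⟨z1 + z2, by rw [TensorProduct.tmul_add, map_add, e1, e2]⟩
    | smul c y _ h1 =>
      obtain ⟨z1, e1⟩ := h1
      exact ⟨c • z1, by rw [TensorProduct.tmul_smul, map_smul, e1]⟩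
  | zero => exact ⟨0, by rw [map_zero, map_zero]⟩
  | add y z _ _ h1 h2 =>
    obtain ⟨z1, e1⟩ := h1
    obtain ⟨z2, e2⟩ := h2
    exact ⟨z1 + z2, by rw [map_add, map_add, e1, e2]⟩
  | smul c y _ h1 =>
    obtain ⟨z1, e1⟩ := h1
    exact ⟨c • z1, by rw [map_smul, map_smul, e1]⟩

/-- the identities of `C` are identities of the Grassmann envelope -/
theorem envelope_identity [CharZero F] (K : ℕ) (x : ℕ → C) {f : NAPoly F}
    (hf : IsIdentity F C f) : IsEnvelopeIdentity (SAp F K x) f := by
  intro v hv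
  apply projHom_inj
  intro i
  choose z hz using fun k => projHom_mem (hv k) i
  rw [← lift_comp]
  have h1 : (fun k => projHom i (v k)) = fun k => Psi F C (z k) := funext hz
  rw [h1, lift_comp, identity_ext (Rc F) hf, map_zero]

end assoc

end Pool.Agent.SRAlt
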