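import Pool.Agent.SRAlt.Eval

set_option autoImplicit false

open scoped TensorProduct

namespace Pool.Agent.SRAlt

open Pool.Agent.Superrank

variable {F : Type} [Field F]

/-- the parity of a block type: `true` is odd -/
def pty (t : Bool) : ZMod 2 := if t then 1 else 0

variable (F) in
/-- the coefficients: `e_{3j}` for odd blocks and `e_{3j+1} e_{3j+2}` for even blocks -/
noncomputable def gco (t : Bool) (j : ℕ) : Gr F :=
  if t then gen F (3 * j) else gen F (3 * j + 1) * gen F (3 * j + 2)

lemma gco_mem (t : Bool) (j : ℕ) : gco F t j ∈ grPart F (pty t) := by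
  cases t
  · show gen F (3 * j + 1) * gen F (3 * j + 2) ∈ grPart F 0
    have := grPart_mul (gen_mem_grPart (F := F) (3 * j + 1)) (gen_mem_grPart (F := F) (3 * j + 2))
    rwa [show (1 : ZMod 2) + 1 = 0 by decide] at this
  · exact gen_mem_grPart _

section alg

variable {C : Type} [NonUnitalNonAssocRing C] [Module F C] [IsScalarTower F C C]
  [SMulCommClass F C C]

/-- the functions on the index set with values in `G ⊗ C` -/
def D2 (F : Type) [Field F] (C : Type) [NonUnitalNonAssocRing C] [Module F C] (K : ℕ) : Type :=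
  Finset ℕ × (ℕ → Fin K × Bool) → GC F C

noncomputable instance (K : ℕ) : NonUnitalNonAssocRing (D2 F C K) :=
  inferInstanceAs (NonUnitalNonAssocRing (Finset ℕ × (ℕ → Fin K × Bool) → GC F C))
noncomputable instance (K : ℕ) : Module F (D2 F C K) :=
  inferInstanceAs (Module F (Finset ℕ × (ℕ → Fin K × Bool) → GC F C))
instance (K : ℕ) : IsScalarTower F (D2 F C K) (D2 F C K) :=
  inferInstanceAs (IsScalarTower F (Finset ℕ × (ℕ → Fin K × Bool) → GC F C)
    (Finset ℕ × (ℕ → Fin K × Bool) → GC F C))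
instance (K : ℕ) : SMulCommClass F (D2 F C K) (D2 F C K) :=
  inferInstanceAs (SMulCommClass F (Finset ℕ × (ℕ → Fin K × Bool) → GC F C)
    (Finset ℕ × (ℕ → Fin K × Bool) → GC F C))

/-- the generators -/
noncomputable def ygen2 {K : ℕ} (x : ℕ → C) (c : Fin K × Bool) : D2 F C K := fun p =>
  ∑ j ∈ p.1.filter (fun j => p.2 j = c), toGC F C (gco F c.2 j ⊗ₜ[F] x j)

variable (F) in
/-- the superalgebra generated by the `ygen2` -/
noncomputable abbrev SA2 (K : ℕ) (x : ℕ → C) : NonUnitalSubalgebra F (D2 F C K) :=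
  NonUnitalAlgebra.adjoin F (Set.range (ygen2 (F := F) (K := K) x))

variable (F) in
/-- the homogeneous parts -/
noncomputable def SAp2 (K : ℕ) (x : ℕ → C) (p : ZMod 2) : Submodule F (SA2 F K x) where
  carrier := {a | ∀ i, a.1 i ∈ Ev F C p}
  add_mem' := fun ha hb i => add_mem (ha i) (hb i)
  zero_mem' := fun _ => zero_mem _
  smul_mem' := fun _ _ ha i => Submodule.smul_mem _ _ (ha i)

lemma ygen2_mem {K : ℕ} (x : ℕ → C) (c : Fin K × Bool) : ygen2 (F := F) x c ∈ SA2 F K x :=
  NonUnitalAlgebra.subset_adjoin F ⟨c, rfl⟩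

/-- the generators as elements of the superalgebra -/
noncomputable def yA2 {K : ℕ} (x : ℕ → C) (c : Fin K × Bool) : SA2 F K x :=
  ⟨ygen2 x c, ygen2_mem x c⟩

lemma yA2_mem {K : ℕ} (x : ℕ → C) (c : Fin K × Bool) : yA2 (F := F) x c ∈ SAp2 F K x (pty c.2) := by
  intro i
  show ∑ j ∈ _, _ ∈ _
  exact sum_mem fun j _ => Submodule.subset_span ⟨_, gco_mem c.2 j, x j, rfl⟩

lemma isSuper2 [CharZero F] (K : ℕ) (x : ℕ → C) :
    IsSuperalgebra F (SA2 F K x) (SAp2 F K x) where
  isCompl := by
    constructor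
    · rw [Submodule.disjoint_def]
      intro a h0 h1
      apply Subtype.ext
      funext i
      exact (Submodule.disjoint_def.1 Ev_disjoint) _ (h0 i) (h1 i)
    · rw [codisjoint_iff, eq_top_iff]
      rintro ⟨a, ha⟩ -
      have key : ∃ a0 ∈ SA2 F K x, ∃ a1 ∈ SA2 F K x, (∀ i, a0 i ∈ Ev F C 0) ∧
          (∀ i, a1 i ∈ Ev F C 1) ∧ a = a0 + a1 := by
        induction ha using NonUnitalAlgebra.adjoin_induction with
        | mem y hy =>
          obtain ⟨⟨c, t⟩, rfl⟩ := hy
          cases t
          · exact ⟨_, ygen2_mem x (c, false), 0, zero_mem _, yA2_mem x (c, false),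
              fun i => zero_mem _, by simp⟩
          · exact ⟨0, zero_mem _, _, ygen2_mem x (c, true), fun i => zero_mem _,
              yA2_mem x (c, true), by simp⟩
        | add u v _ _ hu hv =>
          obtain ⟨u0, hu0, u1, hu1, e0, e1, rfl⟩ := hu
          obtain ⟨v0, hv0, v1, hv1, f0, f1, rfl⟩ := hv
          exact ⟨u0 + v0, add_mem hu0 hv0, u1 + v1, add_mem hu1 hv1,
            fun i => add_mem (e0 i) (f0 i), fun i => add_mem (e1 i) (f1 i), by abel⟩
        | zero => exact ⟨0, zero_mem _, 0, zero_mem _, fun i => zero_mem _, fun i => zero_mem _,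
            by simp⟩
        | mul u v _ _ hu hv =>
          obtain ⟨u0, hu0, u1, hu1, e0, e1, rfl⟩ := hu
          obtain ⟨v0, hv0, v1, hv1, f0, f1, rfl⟩ := hv
          refine ⟨u0 * v0 + u1 * v1, add_mem (mul_mem hu0 hv0) (mul_mem hu1 hv1),
            u0 * v1 + u1 * v0, add_mem (mul_mem hu0 hv1) (mul_mem hu1 hv0),
            fun i => add_mem ?_ ?_, fun i => add_mem ?_ ?_, ?_⟩
          · have := Ev_mul (e0 i) (f0 i)
            rwa [add_zero] at this
          · have := Ev_mul (e1 i) (f1 i)
            rwa [show (1 : ZMod 2) + 1 = 0 by decide] at this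
          · have := Ev_mul (e0 i) (f1 i)
            rwa [zero_add] at this
          · have := Ev_mul (e1 i) (f0 i)
            rwa [add_zero] at this
          · rw [add_mul, mul_add, mul_add]
            abel
        | smul r u _ hu =>
          obtain ⟨u0, hu0, u1, hu1, e0, e1, rfl⟩ := hu
          exact ⟨r • u0, SMulMemClass.smul_mem r hu0, r • u1, SMulMemClass.smul_mem r hu1,
            fun i => Submodule.smul_mem _ _ (e0 i), fun i => Submodule.smul_mem _ _ (e1 i),
            by rw [smul_add]⟩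
      obtain ⟨a0, h0, a1, h1, e0, e1, rfl⟩ := key
      exact Submodule.mem_sup.2 ⟨⟨a0, h0⟩, e0, ⟨a1, h1⟩, e1, rfl⟩
  mul_mem := fun i j a ha b hb k => Ev_mul (ha k) (hb k)

lemma SA2_fg (K : ℕ) (x : ℕ → C) :
    NonUnitalAlgebra.adjoin F (Set.range (yA2 (F := F) (K := K) x)) = ⊤ := by
  rw [eq_top_iff]
  rintro ⟨a, ha⟩ -
  induction ha using NonUnitalAlgebra.adjoin_induction with
  | mem y hy =>
    obtain ⟨c, rfl⟩ := hy
    exact NonUnitalAlgebra.subset_adjoin F ⟨c, rfl⟩
  | add u v hu hv h1 h2 => exact add_mem h1 h2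
  | zero => exact zero_mem _
  | mul u v hu hv h1 h2 => exact mul_mem h1 h2
  | smul r u hu h1 => exact SMulMemClass.smul_mem r h1

/-- one coordinate -/
noncomputable def evHom2 {K : ℕ} {x : ℕ → C} (i : Finset ℕ × (ℕ → Fin K × Bool)) :
    SA2 F K x →ₙₐ[F] GC F C where
  toFun := fun a => a.1 i
  map_smul' := fun _ _ => rfl
  map_zero' := rfl
  map_add' := fun _ _ => rfl
  map_mul' := fun _ _ => rfl

/-- the projection of `G ⊗ A` onto one coordinate -/
noncomputable def projHom2 {K : ℕ} {x : ℕ → C} (i : Finset ℕ × (ℕ → Fin K × Bool)) :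
    Gr F ⊗[F] (SA2 F K x) →ₙₐ[F] Gr F ⊗[F] GC F C :=
  mapHom (AlgHom.id F (Gr F)) (evHom2 i)

lemma projHom2_tmul {K : ℕ} {x : ℕ → C} (i : Finset ℕ × (ℕ → Fin K × Bool)) (g : Gr F)
    (a : SA2 F K x) : projHom2 i (g ⊗ₜ a) = g ⊗ₜ (a.1 i) := rfl

lemma projHom2_inj {K : ℕ} {x : ℕ → C} (u : Gr F ⊗[F] (SA2 F K x))
    (h : ∀ i, projHom2 i u = 0) : u = 0 := by
  classical
  let b := Module.Basis.ofVectorSpace F (Gr F)
  have key : ∀ (i : Finset ℕ × (ℕ → Fin K × Bool)) (u : Gr F ⊗[F] (SA2 F K x)) k,
      (TensorProduct.equivFinsuppOfBasisLeft b u k).1 i =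
        TensorProduct.equivFinsuppOfBasisLeft b (projHom2 i u) k := by
    intro i u k
    induction u using TensorProduct.induction_on with
    | zero => rw [map_zero, map_zero, map_zero]; rfl
    | tmul p c =>
      rw [projHom2_tmul, TensorProduct.equivFinsuppOfBasisLeft_apply_tmul_apply,
        TensorProduct.equivFinsuppOfBasisLeft_apply_tmul_apply]
      rfl
    | add x y h1 h2 =>
      rw [map_add, map_add, map_add, Finsupp.add_apply, Finsupp.add_apply, ← h1, ← h2]
      rfl
  apply (TensorProduct.equivFinsuppOfBasisLeft b).injective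
  rw [map_zero]
  ext1 k
  rw [Finsupp.zero_apply]
  apply Subtype.ext
  funext i
  rw [key i u k, h i, map_zero]
  rfl

/-- the coordinates of an element of the Grassmann envelope lie in the image of `R ⊗ C` -/
lemma projHom2_mem {K : ℕ} {x : ℕ → C} {u : Gr F ⊗[F] (SA2 F K x)}
    (hu : u ∈ envelopeSubmodule F (SA2 F K x) (SAp2 F K x))
    (i : Finset ℕ × (ℕ → Fin K × Bool)) : ∃ z, projHom2 i u = Psi F C z := by
  induction hu using Submodule.span_induction with
  | mem y hy =>
    obtain ⟨p, g, hg, a, ha, rfl⟩ := hy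
    rw [projHom2_tmul]
    have h1 : a.1 i ∈ Ev F C p := ha i
    generalize a.1 i = w at h1 ⊢
    induction h1 using Submodule.span_induction with
    | mem y hy =>
      obtain ⟨h, hh, c, rfl⟩ := hy
      exact ⟨(⟨g ⊗ₜ h, Submodule.subset_span ⟨p, g, hg, h, hh, rfl⟩⟩ : Rc F) ⊗ₜ c, rfl⟩
    | zero => exact ⟨0, by rw [TensorProduct.tmul_zero, map_zero]⟩
    | add y z _ _ h1 h2 =>
      obtain ⟨z1, e1⟩ := h1
      obtain ⟨z2, e2⟩ := h2
      exact ⟨z1 + z2, by rw [TensorProduct.tmul_add, map_add, e1, e2]⟩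
    | smul c y _ h1 =>
      obtain ⟨z1, e1⟩ := h1
      exact ⟨c • z1, by rw [TensorProduct.tmul_smul, map_smul, e1]⟩
  | zero => exact ⟨0, by rw [map_zero, map_zero]⟩
  | add y z _ _ h1 h2 =>
    obtain ⟨z1, e1⟩ := h1
    obtain ⟨z2, e2⟩ := h2
    exact ⟨z1 + z2, by rw [map_add, map_add, e1, e2]⟩
  | smul c y _ h1 =>
    obtain ⟨z1, e1⟩ := h1
    exact ⟨c • z1, by rw [map_smul, map_smul, e1]⟩

/-- the identities of `C` are identities of the Grassmann envelope -/
theorem envelope_identity2 [CharZero F] (K : ℕ) (x : ℕ → C) {f : NAPoly F}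
    (hf : IsIdentity F C f) : IsEnvelopeIdentity (SAp2 F K x) f := by
  intro v hv
  apply projHom2_inj
  intro i
  choose z hz using fun k => projHom2_mem (hv k) i
  rw [← lift_comp]
  have h1 : (fun k => projHom2 i (v k)) = fun k => Psi F C (z k) := funext hz
  rw [h1, lift_comp, identity_ext (Rc F) hf, map_zero]

end alg

section zeta

/-- the left coefficients -/
noncomputable def om (F : Type) [Field F] (t : Bool) (k : ℕ) : Gr F := if t then gen F (3 * k) else 1

lemma om_mem (t : Bool) (k : ℕ) : om F t k ∈ grPart F (pty t) := by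
  cases t
  · exact one_mem_grPart
  · exact gen_mem_grPart _

/-- the commuting coefficients -/
noncomputable def zt (t : Bool) (k j : ℕ) : Rc F :=
  ⟨om F t k ⊗ₜ gco F t j, Submodule.subset_span ⟨_, _, om_mem t k, _, gco_mem t j, rfl⟩⟩

lemma gen_sq [CharZero F] (i : ℕ) : gen F i * gen F i = 0 := odd_sq (gen_mem_grPart i)

lemma gco_sq [CharZero F] (t : Bool) (j : ℕ) : gco F t j * gco F t j = 0 := by
  cases t
  · show gen F (3 * j + 1) * gen F (3 * j + 2) * (gen F (3 * j + 1) * gen F (3 * j + 2)) = 0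
    rw [mul_assoc, ← mul_assoc (gen F (3 * j + 2)), gen_swap (3 * j + 2) (3 * j + 1), neg_mul,
      mul_assoc, gen_sq, mul_zero, neg_zero, mul_zero]
  · exact gen_sq _

lemma gco_comm_false (i j : ℕ) : gco F false i * gco F false j = gco F false j * gco F false i :=
  even_comm (gco_mem false i) (gco_mem false j)

lemma gco_comm_true (i j : ℕ) : gco F true i * gco F true j = - (gco F true j * gco F true i) :=
  gen_swap _ _

/-- the sign of a block type -/
def sg (F : Type) [Field F] (t : Bool) : F := if t then -1 else 1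

lemma sg_sq (t : Bool) : sg F t * sg F t = 1 := by cases t <;> simp [sg]

lemma zt_swap (t : Bool) (k l i j : ℕ) :
    zt (F := F) t k j * zt t l i = sg F t • (zt t k i * zt t l j) := by
  apply Subtype.ext
  show (om F t k ⊗ₜ[F] gco F t j) * (om F t l ⊗ₜ[F] gco F t i) =
    sg F t • ((om F t k ⊗ₜ[F] gco F t i) * (om F t l ⊗ₜ[F] gco F t j))
  rw [Algebra.TensorProduct.tmul_mul_tmul, Algebra.TensorProduct.tmul_mul_tmul]
  cases t
  · rw [gco_comm_false j i]
    simp [sg]
  · rw [gco_comm_true j i, TensorProduct.tmul_neg]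
    simp [sg]

lemma zt_zero [CharZero F] (t : Bool) (k l j : ℕ) : zt (F := F) t k j * zt t l j = 0 := by
  apply Subtype.ext
  show (om F t k ⊗ₜ[F] gco F t j) * (om F t l ⊗ₜ[F] gco F t j) = 0
  rw [Algebra.TensorProduct.tmul_mul_tmul, gco_sq, TensorProduct.tmul_zero]

/-- products of generators with increasing indices are nonzero -/
lemma prod_sorted_ne_zero (l : List ℕ) (hl : l.Pairwise (· < ·)) : (l.map (gen F)).prod ≠ 0 := by
  have hmono : StrictMono l.get := fun a b hab => List.pairwise_iff_get.1 hl a b hab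
  have h := prod_gen_ne_zero (F := F) (OrderEmbedding.ofStrictMono l.get hmono)
  have h2 : (List.ofFn fun i => gen F ((OrderEmbedding.ofStrictMono l.get hmono) i)) =
      l.map (gen F) := by
    have : (List.ofFn fun i => gen F ((OrderEmbedding.ofStrictMono l.get hmono) i)) =
      (List.ofFn l.get).map (gen F) := by
      rw [List.map_ofFn]
      rfl
    rw [this, List.ofFn_get]
  rwa [h2] at h

/-- the list of indices of the first factor -/
def lf (t : ℕ → Bool) (k : ℕ) : List ℕ := if t k then [3 * k] else []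

/-- the list of indices of the second factor -/
def rf (t : ℕ → Bool) (k : ℕ) : List ℕ := if t k then [3 * k] else [3 * k + 1, 3 * k + 2]

lemma prod_lf (t : ℕ → Bool) (l : List ℕ) :
    (l.map fun k => om F (t k) k).prod = (((l.map (lf t)).flatten).map (gen F)).prod := by
  induction l with
  | nil => simp
  | cons a l ih =>
    rw [List.map_cons, List.prod_cons, ih, List.map_cons, List.flatten_cons, List.map_append,
      List.prod_append]
    congr 1
    unfold om lf
    cases t a <;> simp

lemma prod_rf (t : ℕ → Bool) (l : List ℕ) :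
    (l.map fun k => gco F (t k) k).prod = (((l.map (rf t)).flatten).map (gen F)).prod := by
  induction l with
  | nil => simp
  | cons a l ih =>
    rw [List.map_cons, List.prod_cons, ih, List.map_cons, List.flatten_cons, List.map_append,
      List.prod_append]
    congr 1
    unfold gco rf
    cases t a <;> simp

lemma sorted_flatten (g : ℕ → List ℕ) (hg : ∀ k, (g k).Pairwise (· < ·))
    (hb : ∀ k, ∀ j ∈ g k, 3 * k ≤ j ∧ j < 3 * k + 3) (l : List ℕ) (hl : l.Pairwise (· < ·)) :
    ((l.map g).flatten).Pairwise (· < ·) := by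
  rw [List.pairwise_flatten]
  constructor
  · intro l' hl'
    obtain ⟨k, _, rfl⟩ := List.mem_map.1 hl'
    exact hg k
  · rw [List.pairwise_map]
    refine hl.imp ?_
    intro a b hab x hx y hy
    have := hb a x hx
    have := hb b y hy
    omega

lemma list_tmul_prod (l : List ℕ) (a b : ℕ → Gr F) :
    (l.map fun k => a k ⊗ₜ[F] b k).prod = (l.map a).prod ⊗ₜ[F] (l.map b).prod := by
  induction l with
  | nil => simp [Algebra.TensorProduct.one_def]
  | cons x l ih =>
    rw [List.map_cons, List.prod_cons, ih, Algebra.TensorProduct.tmul_mul_tmul, List.map_cons,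
      List.map_cons, List.prod_cons, List.prod_cons]

lemma prod_zt_ne_zero (t : ℕ → Bool) (L : Finset ℕ) :
    ((∏ k : L, zt (F := F) (t k) k k : Rc F) : Gr F ⊗[F] Gr F) ≠ 0 := by
  have h1 : (∏ k : L, zt (F := F) (t k) k k : Rc F) =
      ((L.sort (· ≤ ·)).map fun k => zt (F := F) (t k) k k).prod := by
    rw [Finset.prod_coe_sort L (fun k => zt (F := F) (t k) k k)]
    show (L.val.map fun k => zt (F := F) (t k) k k).prod = _
    rw [← Finset.sort_eq L (· ≤ ·), Multiset.map_coe, Multiset.prod_coe]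
  have h2 : ((((L.sort (· ≤ ·)).map fun k => zt (F := F) (t k) k k).prod : Rc F) :
      Gr F ⊗[F] Gr F) = ((L.sort (· ≤ ·)).map fun k => om F (t k) k ⊗ₜ[F] gco F (t k) k).prod := by
    show (Rc F).val ((L.sort (· ≤ ·)).map fun k => zt (F := F) (t k) k k).prod = _
    rw [map_list_prod, List.map_map]
    rfl
  have hs : (L.sort (· ≤ ·)).Pairwise (· < ·) := (Finset.sortedLT_sort L).pairwise
  rw [h1, h2, list_tmul_prod, prod_lf, prod_rf]
  have hP := prod_sorted_ne_zero (F := F) _ (sorted_flatten (lf t)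
    (fun k => by unfold lf; cases t k <;> simp)
    (fun k j hj => by unfold lf at hj; cases h : t k <;> simp [h] at hj; omega) _ hs)
  have hQ := prod_sorted_ne_zero (F := F) _ (sorted_flatten (rf t)
    (fun k => by unfold rf; cases t k <;> simp)
    (fun k j hj => by unfold rf at hj; cases h : t k <;> simp [h] at hj <;> omega) _ hs)
  intro h
  exact hQ (eq_zero_of_tmul hP h)

end zeta

end Pool.Agent.SRAlt
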