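import Pool.Agent.SRAlt.NF

set_option autoImplicit false

open scoped TensorProduct

namespace Pool.Agent.SRAlt

open Pool.Agent.Superrank

variable (F : Type) [Field F]

/-- products of words, commutators of words and associators of words; the first index counts the
commutators and associators, the second one is the multiset of letters -/
inductive Dfn : ℕ → Multiset ℕ → NAPoly F → Prop
  | letter (a : ℕ) : Dfn 0 {a} (X F a)
  | mul {i j : ℕ} {α β : Multiset ℕ} {p q : NAPoly F} :
      Dfn i α p → Dfn j β q → Dfn (i + j) (α + β) (p * q)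
  | comm (u v : FreeMagma ℕ) : Dfn 1 (letters u + letters v)
      (word F u * word F v - word F v * word F u)
  | assoc (u v w : FreeMagma ℕ) : Dfn 1 (letters u + letters v + letters w)
      ((word F u * word F v) * word F w - word F u * (word F v * word F w))

variable {F}

lemma word_Dfn (w : FreeMagma ℕ) : Dfn F 0 (letters w) (word F w) := by
  induction w using word_induction with
  | h1 a => exact Dfn.letter a
  | h2 x y hx hy =>
    rw [word_mul]
    exact Dfn.mul hx hy

lemma Dfn_H {r : ℕ} {μ : Multiset ℕ} {q : NAPoly F} (h : Dfn F r μ q) : q ∈ H F μ := by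
  induction h with
  | letter a => exact word_mem_H (.of a)
  | mul _ _ h1 h2 => exact H_mul h1 h2
  | comm u v =>
    refine sub_mem (H_mul (word_mem_H u) (word_mem_H v)) ?_
    rw [add_comm]
    exact H_mul (word_mem_H v) (word_mem_H u)
  | assoc u v w =>
    refine sub_mem (H_mul (H_mul (word_mem_H u) (word_mem_H v)) (word_mem_H w)) ?_
    rw [add_assoc]
    exact H_mul (word_mem_H u) (H_mul (word_mem_H v) (word_mem_H w))

variable (F) in
/-- the powers of the ideal generated by commutators and associators -/
noncomputable def JJ (r : ℕ) : Submodule F (NAPoly F) :=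
  Submodule.span F {q | ∃ s μ, r ≤ s ∧ Dfn F s μ q}

lemma Dfn_JJ {r : ℕ} {μ : Multiset ℕ} {q : NAPoly F} (h : Dfn F r μ q) : q ∈ JJ F r :=
  Submodule.subset_span ⟨r, μ, le_rfl, h⟩

lemma JJ_anti {r s : ℕ} (h : r ≤ s) : JJ F s ≤ JJ F r := by
  refine Submodule.span_mono ?_
  rintro q ⟨t, μ, h1, h2⟩
  exact ⟨t, μ, h.trans h1, h2⟩

lemma JJ_mul {r s : ℕ} {f g : NAPoly F} (hf : f ∈ JJ F r) (hg : g ∈ JJ F s) :
    f * g ∈ JJ F (r + s) := by
  induction hf using Submodule.span_induction with
  | mem x hx =>
    obtain ⟨i, μ, hi, h1⟩ := hx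
    induction hg using Submodule.span_induction with
    | mem y hy =>
      obtain ⟨j, ν, hj, h2⟩ := hy
      exact Submodule.subset_span ⟨i + j, μ + ν, by omega, Dfn.mul h1 h2⟩
    | zero => rw [mul_zero]; exact zero_mem _
    | add y z _ _ h1 h2 => rw [mul_add]; exact add_mem h1 h2
    | smul c y _ h1 => rw [mul_smul_comm]; exact Submodule.smul_mem _ _ h1
  | zero => rw [zero_mul]; exact zero_mem _
  | add y z _ _ h1 h2 => rw [add_mul]; exact add_mem h1 h2
  | smul c y _ h1 => rw [smul_mul_assoc]; exact Submodule.smul_mem _ _ h1

lemma mem_JJ_zero (f : NAPoly F) : f ∈ JJ F 0 := by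
  refine (Submodule.span_le.2 ?_) (mem_span_words f)
  rintro x ⟨w, rfl⟩
  exact Dfn_JJ (word_Dfn w)

/-- a polynomial statement that is additive in `f` and holds for words -/
lemma poly_induction {P : NAPoly F → Prop} (h0 : P 0) (hw : ∀ w, P (word F w))
    (ha : ∀ f g, P f → P g → P (f + g)) (hs : ∀ (c : F) f, P f → P (c • f)) (f : NAPoly F) :
    P f := by
  induction mem_span_words f using Submodule.span_induction with
  | mem x hx => obtain ⟨w, rfl⟩ := hx; exact hw w
  | zero => exact h0
  | add x y _ _ h1 h2 => exact ha x y h1 h2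
  | smul c x _ h1 => exact hs c x h1

lemma comm_JJ (f g : NAPoly F) : f * g - g * f ∈ JJ F 1 := by
  induction f using poly_induction with
  | h0 => simp
  | hw u =>
    induction g using poly_induction with
    | h0 => simp
    | hw v => exact Dfn_JJ (Dfn.comm u v)
    | ha f g h1 h2 =>
      have : word F u * (f + g) - (f + g) * word F u =
        (word F u * f - f * word F u) + (word F u * g - g * word F u) := by
        rw [mul_add, add_mul]; abel
      rw [this]
      exact add_mem h1 h2
    | hs c f h1 =>
      rw [mul_smul_comm, smul_mul_assoc, ← smul_sub]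
      exact Submodule.smul_mem _ _ h1
  | ha f f' h1 h2 =>
    have : (f + f') * g - g * (f + f') = (f * g - g * f) + (f' * g - g * f') := by
      rw [mul_add, add_mul]; abel
    rw [this]
    exact add_mem h1 h2
  | hs c f h1 =>
    rw [mul_smul_comm, smul_mul_assoc, ← smul_sub]
    exact Submodule.smul_mem _ _ h1

lemma assoc_JJ (f g h : NAPoly F) : (f * g) * h - f * (g * h) ∈ JJ F 1 := by
  induction f using poly_induction with
  | h0 => simp
  | hw u =>
    induction g using poly_induction with
    | h0 => simp
    | hw v =>
      induction h using poly_induction with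
      | h0 => simp
      | hw w => exact Dfn_JJ (Dfn.assoc u v w)
      | ha f g h1 h2 =>
        have : (word F u * word F v) * (f + g) - word F u * (word F v * (f + g)) =
          ((word F u * word F v) * f - word F u * (word F v * f)) +
          ((word F u * word F v) * g - word F u * (word F v * g)) := by
          simp only [mul_add]; abel
        rw [this]
        exact add_mem h1 h2
      | hs c f h1 =>
        simp only [mul_smul_comm]
        rw [← smul_sub]
        exact Submodule.smul_mem _ _ h1
    | ha f g h1 h2 =>
      have : (word F u * (f + g)) * h - word F u * ((f + g) * h) =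
        ((word F u * f) * h - word F u * (f * h)) + ((word F u * g) * h - word F u * (g * h)) := by
        simp only [mul_add, add_mul]; abel
      rw [this]
      exact add_mem h1 h2
    | hs c f h1 =>
      simp only [mul_smul_comm, smul_mul_assoc]
      rw [← smul_sub]
      exact Submodule.smul_mem _ _ h1
  | ha f f' h1 h2 =>
    have : ((f + f') * g) * h - (f + f') * (g * h) =
      ((f * g) * h - f * (g * h)) + ((f' * g) * h - f' * (g * h)) := by
      simp only [add_mul]; abel
    rw [this]
    exact add_mem h1 h2
  | hs c f h1 =>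
    simp only [smul_mul_assoc]
    rw [← smul_sub]
    exact Submodule.smul_mem _ _ h1

lemma relabel_word_exists (φ : ℕ → ℕ) (w : FreeMagma ℕ) :
    ∃ u, letters u = (letters w).map φ ∧ relabel φ (word F w) = word F u := by
  obtain ⟨u, h1, _, h3⟩ := letters_relabel (F := F) φ w
  exact ⟨u, h1, h3⟩

lemma Dfn_relabel (φ : ℕ → ℕ) {r : ℕ} {μ : Multiset ℕ} {q : NAPoly F} (h : Dfn F r μ q) :
    Dfn F r (μ.map φ) (relabel φ q) := by
  induction h with
  | letter a => rw [relabel_X, Multiset.map_singleton]; exact Dfn.letter _
  | mul _ _ h1 h2 => rw [map_mul, Multiset.map_add]; exact Dfn.mul h1 h2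
  | comm u v =>
    obtain ⟨u', hu, hu'⟩ := relabel_word_exists (F := F) φ u
    obtain ⟨v', hv, hv'⟩ := relabel_word_exists (F := F) φ v
    rw [map_sub, map_mul, map_mul, hu', hv', Multiset.map_add, ← hu, ← hv]
    exact Dfn.comm u' v'
  | assoc u v w =>
    obtain ⟨u', hu, hu'⟩ := relabel_word_exists (F := F) φ u
    obtain ⟨v', hv, hv'⟩ := relabel_word_exists (F := F) φ v
    obtain ⟨w', hw, hw'⟩ := relabel_word_exists (F := F) φ w
    rw [map_sub, map_mul, map_mul, map_mul, map_mul, hu', hv', hw', Multiset.map_add,
      Multiset.map_add, ← hu, ← hv, ← hw]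
    exact Dfn.assoc u' v' w'

lemma JJ_relabel (φ : ℕ → ℕ) {r : ℕ} {q : NAPoly F} (h : q ∈ JJ F r) :
    relabel φ q ∈ JJ F r := by
  induction h using Submodule.span_induction with
  | mem x hx =>
    obtain ⟨s, μ, hs, h1⟩ := hx
    exact Submodule.subset_span ⟨s, μ.map φ, hs, Dfn_relabel φ h1⟩
  | zero => rw [map_zero]; exact zero_mem _
  | add y z _ _ h1 h2 => rw [map_add]; exact add_mem h1 h2
  | smul c y _ h1 => rw [map_smul]; exact Submodule.smul_mem _ _ h1

/-- moving a letter to the end of a word modulo commutators and associators -/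
lemma word_last (w : FreeMagma ℕ) (x : ℕ) (hx : x ∈ letters w) :
    w = .of x ∨ ∃ w', letters w = letters w' + {x} ∧ word F w - word F w' * X F x ∈ JJ F 1 := by
  induction w using word_induction with
  | h1 a =>
    rw [letters_of, Multiset.mem_singleton] at hx
    exact Or.inl (by rw [hx])
  | h2 u v hu hv =>
    right
    have key : ∀ u v : FreeMagma ℕ, (v = .of x ∨ ∃ w', letters v = letters w' + {x} ∧
        word F v - word F w' * X F x ∈ JJ F 1) →
        ∃ w', letters (u * v) = letters w' + {x} ∧
          word F (u * v) - word F w' * X F x ∈ JJ F 1 := by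
      intro u v h
      rcases h with rfl | ⟨w', h1, h2⟩
      · refine ⟨u, rfl, ?_⟩
        rw [word_mul, word_of, sub_self]
        exact zero_mem _
      · refine ⟨u * w', by rw [letters_mul, letters_mul, h1, add_assoc], ?_⟩
        have h3 := JJ_mul (mem_JJ_zero (word F u)) h2
        rw [zero_add] at h3
        have h4 := assoc_JJ (word F u) (word F w') (X F x)
        have : word F (u * v) - word F (u * w') * X F x =
            word F u * (word F v - word F w' * X F x) -
            ((word F u * word F w') * X F x - word F u * (word F w' * X F x)) := by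
          rw [word_mul, word_mul, mul_sub]
          abel
        rw [this]
        exact sub_mem h3 h4
    rw [letters_mul, Multiset.mem_add] at hx
    rcases hx with hx | hx
    · obtain ⟨w', h1, h2⟩ := key v u (hu hx)
      refine ⟨w', by rw [← h1, letters_mul, letters_mul, add_comm], ?_⟩
      have h3 := comm_JJ (word F u) (word F v)
      have : word F (u * v) - word F w' * X F x =
          (word F u * word F v - word F v * word F u) + (word F (v * u) - word F w' * X F x) := by
        rw [word_mul, word_mul]
        abel
      rw [this]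
      exact add_mem h3 h2
    · exact key u v (hv hx)

/-- words with the same letters agree modulo commutators and associators -/
lemma word_congr (n : ℕ) : ∀ u v : FreeMagma ℕ, (letters u).card = n → letters u = letters v →
    word F u - word F v ∈ JJ F 1 := by
  induction n using Nat.strong_induction_on with
  | _ n ih =>
    intro u v hn huv
    obtain ⟨x, hx⟩ : ∃ x, x ∈ letters u := by
      clear hn huv
      induction u using word_induction with
      | h1 a => exact ⟨a, by simp⟩
      | h2 x y hx _ =>
        obtain ⟨z, hz⟩ := hx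
        exact ⟨z, by simp [hz]⟩
    have hpos : ∀ w : FreeMagma ℕ, letters w ≠ 0 := by
      intro w
      induction w using word_induction with
      | h1 a => simp
      | h2 x y hx hy =>
        rw [letters_mul]
        intro h
        have h2 := congrArg Multiset.card h
        rw [Multiset.card_add, Multiset.card_zero] at h2
        exact hx (Multiset.card_eq_zero.1 (by omega))
    rcases word_last (F := F) u x hx with h1 | ⟨u', h1, h2⟩
    · rcases word_last (F := F) v x (huv ▸ hx) with h3 | ⟨v', h3, _⟩
      · rw [h1, h3, sub_self]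
        exact zero_mem _
      · exfalso
        rw [← huv, h1, letters_of] at h3
        have : letters v' = 0 := by
          have h5 := congrArg Multiset.card h3
          rw [Multiset.card_add, Multiset.card_singleton] at h5
          exact Multiset.card_eq_zero.1 (by omega)
        exact hpos v' this
    · rcases word_last (F := F) v x (huv ▸ hx) with h3 | ⟨v', h3, h4⟩
      · exfalso
        rw [huv, h3, letters_of] at h1
        have : letters u' = 0 := by
          have h5 := congrArg Multiset.card h1
          rw [Multiset.card_add, Multiset.card_singleton] at h5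
          exact Multiset.card_eq_zero.1 (by omega)
        exact hpos u' this
      · have h5 : letters u' = letters v' := by
          rw [h1, h3] at huv
          exact add_right_cancel huv
        have h6 : (letters u').card < n := by
          rw [← hn, h1, Multiset.card_add, Multiset.card_singleton]
          omega
        have h7 := JJ_mul (ih _ h6 u' v' rfl h5) (mem_JJ_zero (X F x))
        rw [add_zero] at h7
        have : word F u - word F v = (word F u - word F u' * X F x) +
            (word F u' - word F v') * X F x - (word F v - word F v' * X F x) := by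
          rw [sub_mul]
          abel
        rw [this]
        exact sub_mem (add_mem h2 h7) h4

section W

variable {C : Type} [NonUnitalNonAssocRing C] [Module F C] [IsScalarTower F C C]
  [SMulCommClass F C C]

variable (F C) in
/-- the identities of `C` together with the `r`-th power of the commutator-associator ideal -/
noncomputable def W (r : ℕ) : Submodule F (NAPoly F) := idents F C ⊔ JJ F r

lemma T_le_W {r : ℕ} {f : NAPoly F} (hf : f ∈ idents F C) : f ∈ W F C r :=
  Submodule.mem_sup_left hf

lemma JJ_le_W {r : ℕ} {f : NAPoly F} (hf : f ∈ JJ F r) : f ∈ W F C r :=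
  Submodule.mem_sup_right hf

lemma W_mul {r s : ℕ} {f g : NAPoly F} (hf : f ∈ W F C r) (hg : g ∈ W F C s) :
    f * g ∈ W F C (r + s) := by
  obtain ⟨f1, hf1, f2, hf2, rfl⟩ := Submodule.mem_sup.1 hf
  obtain ⟨g1, hg1, g2, hg2, rfl⟩ := Submodule.mem_sup.1 hg
  rw [add_mul, mul_add f2]
  exact add_mem (T_le_W (idents_mul_right hf1 _))
    (add_mem (T_le_W (idents_mul_left _ hg1)) (JJ_le_W (JJ_mul hf2 hg2)))

lemma W_mul_right {r : ℕ} {f : NAPoly F} (hf : f ∈ W F C r) (g : NAPoly F) :
    f * g ∈ W F C r := by
  have := W_mul hf (JJ_le_W (C := C) (mem_JJ_zero g))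
  rwa [add_zero] at this

lemma W_mul_left {r : ℕ} (f : NAPoly F) {g : NAPoly F} (hg : g ∈ W F C r) :
    f * g ∈ W F C r := by
  have := W_mul (JJ_le_W (C := C) (mem_JJ_zero f)) hg
  rwa [zero_add] at this

lemma W_relabel (φ : ℕ → ℕ) {r : ℕ} {f : NAPoly F} (hf : f ∈ W F C r) :
    relabel φ f ∈ W F C r := by
  obtain ⟨f1, hf1, f2, hf2, rfl⟩ := Submodule.mem_sup.1 hf
  rw [map_add]
  exact add_mem (T_le_W (identity_relabel hf1 φ)) (JJ_le_W (JJ_relabel φ hf2))

lemma W_anti {r s : ℕ} (h : r ≤ s) : W F C s ≤ W F C r :=
  sup_le_sup_left (JJ_anti h) _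

/-- the associator `(a, m, b)` -/
noncomputable def asc (a m b : NAPoly F) : NAPoly F := (a * m) * b - a * (m * b)

lemma asc_W {r : ℕ} {m : NAPoly F} (hm : m ∈ W F C r) (a b : NAPoly F) :
    asc a m b ∈ W F C r :=
  sub_mem (W_mul_right (W_mul_left a hm) b) (W_mul_left a (W_mul_right hm b))

lemma asc_add (a m m' b : NAPoly F) : asc a (m + m') b = asc a m b + asc a m' b := by
  simp only [asc, mul_add, add_mul]; abel

lemma asc_sub (a m m' b : NAPoly F) : asc a (m - m') b = asc a m b - asc a m' b := by
  simp only [asc, mul_sub, sub_mul]; abel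

lemma asc_smul (c : F) (a m b : NAPoly F) : asc a (c • m) b = c • asc a m b := by
  simp only [asc, mul_smul_comm, smul_mul_assoc, smul_sub]

lemma asc_left_add (a a' m b : NAPoly F) : asc (a + a') m b = asc a m b + asc a' m b := by
  simp only [asc, add_mul]; abel

lemma asc_right_add (a m b b' : NAPoly F) : asc a m (b + b') = asc a m b + asc a m b' := by
  simp only [asc, mul_add]; abel

lemma asc_right_sub (a m b b' : NAPoly F) : asc a m (b - b') = asc a m b - asc a m b' := by
  simp only [asc, mul_sub]; abel

section rel

variable (hC : IsAlt C)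
include hC

/-- `(m a) b = m (a b) - (a, m, b)` -/
lemma T1 (m a b : NAPoly F) : (m * a) * b - (m * (a * b) - asc a m b) ∈ idents F C := by
  have := T_left hC m a b
  have e : (m * a) * b - (m * (a * b) - asc a m b) =
    ((m * a) * b - m * (a * b)) + ((a * m) * b - a * (m * b)) := by unfold asc; abel
  rw [e]
  exact this

/-- `a (b m) = (a b) m + (a, m, b)` -/
lemma T2 (m a b : NAPoly F) : a * (b * m) - ((a * b) * m + asc a m b) ∈ idents F C := by
  have := T_right hC a b m
  have e : a * (b * m) - ((a * b) * m + asc a m b) =
    - (((a * b) * m - a * (b * m)) + ((a * m) * b - a * (m * b))) := by unfold asc; abel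
  rw [e]
  exact neg_mem this

/-- `(a, m, b) = - (b, m, a)` -/
lemma T4 (m a b : NAPoly F) : asc a m b + asc b m a ∈ idents F C := by
  have h1 := T_left hC a m b
  have h2 := T_right hC m a b
  have h3 := T_left hC m b a
  have e : asc a m b + asc b m a =
      (((a * m) * b - a * (m * b)) + ((m * a) * b - m * (a * b))) -
      (((m * a) * b - m * (a * b)) + ((m * b) * a - m * (b * a))) +
      (((m * b) * a - m * (b * a)) + ((b * m) * a - b * (m * a))) := by unfold asc; abel
  rw [e]
  exact add_mem (sub_mem h1 h2) h3

/-- exact form of the first relation of degree three -/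
lemma K1 (m a b c : NAPoly F) : asc b (m * a) c - (asc (a * b) m c - asc a m (b * c) +
    asc a m b * c - m * ((a * b) * c - a * (b * c))) ∈ idents F C := by
  -- ((m a) b) c in two ways
  have h1 := T1 hC (m * a) b c
  have h2 := T1 hC m a (b * c)
  have h3 := idents_mul_right (T1 hC m a b) c
  have h4 := T1 hC m (a * b) c
  have e : asc b (m * a) c - (asc (a * b) m c - asc a m (b * c) +
      asc a m b * c - m * ((a * b) * c - a * (b * c))) =
      (((m * a) * b) * c - ((m * a) * (b * c) - asc b (m * a) c)) +
      ((m * a) * (b * c) - (m * (a * (b * c)) - asc a m (b * c))) -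
      ((m * a) * b - (m * (a * b) - asc a m b)) * c -
      ((m * (a * b)) * c - (m * ((a * b) * c) - asc (a * b) m c)) := by
    simp only [sub_mul, mul_sub]
    abel
  rw [e]
  exact sub_mem (sub_mem (add_mem h1 h2) h3) h4

/-- mirror image of `K1` -/
lemma K1L (m a b c : NAPoly F) : asc b (a * m) c - (asc (b * a) m c - asc a m (c * b) +
    c * asc a m b + ((c * b) * a - c * (b * a)) * m) ∈ idents F C := by
  -- c (b (a m)) in two ways
  have h1 := T2 hC (a * m) c b
  have h2 := T2 hC m (c * b) a
  have h3 := idents_mul_left c (T2 hC m b a)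
  have h4 := T2 hC m c (b * a)
  have h5 := T4 hC (a * m) b c
  have h6 := T4 hC m (b * a) c
  have h7 := T4 hC m a (c * b)
  have h8 := idents_mul_left c (T4 hC m a b)
  have e : asc b (a * m) c - (asc (b * a) m c - asc a m (c * b) +
      c * asc a m b + ((c * b) * a - c * (b * a)) * m) =
      (c * (b * (a * m)) - ((c * b) * (a * m) + asc c (a * m) b)) +
      ((c * b) * (a * m) - (((c * b) * a) * m + asc (c * b) m a)) -
      c * (b * (a * m) - ((b * a) * m + asc b m a)) -
      (c * ((b * a) * m) - ((c * (b * a)) * m + asc c m (b * a))) +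
      (asc b (a * m) c + asc c (a * m) b) - (asc (b * a) m c + asc c m (b * a)) +
      (asc a m (c * b) + asc (c * b) m a) - c * (asc a m b + asc b m a) := by
    simp only [sub_mul, mul_sub, mul_add, add_mul]
    abel
  rw [e]
  exact sub_mem (add_mem (sub_mem (add_mem (sub_mem (sub_mem (add_mem h1 h2) h3) h4) h5) h6) h7) h8

end rel

section rel2

variable [CharZero F] (hC : IsAlt C) {r : ℕ} {m : NAPoly F} (hm : m ∈ W F C r)

include hm in
omit [CharZero F] in
/-- `m x ∈ W (r + 1)` for `x` in the ideal -/
lemma m_mul {x : NAPoly F} (hx : x ∈ JJ F 1) : m * x ∈ W F C (r + 1) := W_mul hm (JJ_le_W hx)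

include hm in
omit [CharZero F] in
lemma mul_m {x : NAPoly F} (hx : x ∈ JJ F 1) : x * m ∈ W F C (r + 1) := by
  have := W_mul (JJ_le_W (C := C) hx) hm
  rwa [add_comm 1 r] at this

include hm in
omit [CharZero F] in
lemma asc_mem_right {x : NAPoly F} (hx : x ∈ JJ F 1) (a : NAPoly F) :
    asc a m x ∈ W F C (r + 1) :=
  sub_mem (m_mul (W_mul_left a hm) hx) (W_mul_left a (m_mul hm hx))

include hC hm in
/-- `(a, m, b c) ≡ (a, m, b) c + (a, m, c) b` -/
lemma K3 (a b c : NAPoly F) : asc a m (b * c) - (asc a m b * c + asc a m c * b) ∈
    W F C (r + 1) := by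
  have W' := W F C (r + 1)
  -- the relation `M(a; bc) + Σ ≡ S(a; b, c)`
  have key : ∀ a b c : NAPoly F, (asc a m (b * c) + (asc a m (b * c) + asc b m (c * a) +
      asc c m (a * b))) - (asc a m b * c + asc a m c * b) ∈ W F C (r + 1) := by
    intro a b c
    have h1 := K1 hC m a b c
    have h2 := K1 hC m a c b
    have h3 := T4 hC (m * a) b c
    have h4 := T4 hC m (a * b) c
    have h5 := T4 hC m (a * c) b
    have h6 := asc_mem_right hm (comm_JJ b c) a
    rw [asc_right_sub] at h6
    have h7 := asc_mem_right hm (comm_JJ c a) b
    rw [asc_right_sub] at h7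
    have h8 := m_mul hm (assoc_JJ a b c)
    have h9 := m_mul hm (assoc_JJ a c b)
    have e : (asc a m (b * c) + (asc a m (b * c) + asc b m (c * a) +
        asc c m (a * b))) - (asc a m b * c + asc a m c * b) =
        (asc b (m * a) c - (asc (a * b) m c - asc a m (b * c) +
          asc a m b * c - m * ((a * b) * c - a * (b * c)))) +
        (asc c (m * a) b - (asc (a * c) m b - asc a m (c * b) +
          asc a m c * b - m * ((a * c) * b - a * (c * b)))) -
        (asc b (m * a) c + asc c (m * a) b) +
        (asc (a * b) m c + asc c m (a * b)) + (asc (a * c) m b + asc b m (a * c)) +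
        (asc a m (b * c) - asc a m (c * b)) + (asc b m (c * a) - asc b m (a * c)) -
        m * ((a * b) * c - a * (b * c)) - m * ((a * c) * b - a * (c * b)) := by
      abel
    rw [e]
    exact sub_mem (sub_mem (add_mem (add_mem (add_mem (add_mem (sub_mem (add_mem (T_le_W h1)
      (T_le_W h2)) (T_le_W h3)) (T_le_W h4)) (T_le_W h5)) h6) h7) h8) h9
  have k1 := key a b c
  have k2 := key b c a
  have k3 := key c a b
  have t1 := idents_mul_right (T4 hC m a b) c
  have t2 := idents_mul_right (T4 hC m a c) b
  have t3 := idents_mul_right (T4 hC m b c) a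
  have h4 : (4 : F) • (asc a m (b * c) + asc b m (c * a) + asc c m (a * b)) ∈ W F C (r + 1) := by
    have e : (4 : F) • (asc a m (b * c) + asc b m (c * a) + asc c m (a * b)) =
        ((asc a m (b * c) + (asc a m (b * c) + asc b m (c * a) +
          asc c m (a * b))) - (asc a m b * c + asc a m c * b)) +
        ((asc b m (c * a) + (asc b m (c * a) + asc c m (a * b) +
          asc a m (b * c))) - (asc b m c * a + asc b m a * c)) +
        ((asc c m (a * b) + (asc c m (a * b) + asc a m (b * c) +
          asc b m (c * a))) - (asc c m a * b + asc c m b * a)) +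
        (asc a m b + asc b m a) * c + (asc a m c + asc c m a) * b +
        (asc b m c + asc c m b) * a := by
      have : (4 : F) = 1 + 1 + 1 + 1 := by norm_num
      rw [this]
      simp only [add_smul, one_smul, add_mul]
      abel
    rw [e]
    exact add_mem (add_mem (add_mem (add_mem (add_mem k1 k2) k3) (T_le_W t1)) (T_le_W t2))
      (T_le_W t3)
  have h5 := (Submodule.smul_mem_iff _ (by norm_num : (4 : F) ≠ 0)).1 h4
  have e : asc a m (b * c) - (asc a m b * c + asc a m c * b) =
      ((asc a m (b * c) + (asc a m (b * c) + asc b m (c * a) +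
      asc c m (a * b))) - (asc a m b * c + asc a m c * b)) -
      (asc a m (b * c) + asc b m (c * a) + asc c m (a * b)) := by abel
  rw [e]
  exact sub_mem k1 h5

end rel2

end W

end Pool.Agent.SRAlt
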