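import Pool.Agent.SRAlt.CI

set_option autoImplicit false

open scoped TensorProduct

namespace Pool.Agent.SRAlt

open Pool.Agent.Superrank

variable {F : Type} [Field F]

variable {C : Type} [NonUnitalNonAssocRing C] [Module F C] [IsScalarTower F C C]
  [SMulCommClass F C C]

section rel3

variable [CharZero F] (hC : IsAlt C) {r : ℕ} {m : NAPoly F} (hm : m ∈ W F C r)
include hC hm

/-- `(b, m a, c) ≡ (b, m, c) a` -/
lemma K4 (a b c : NAPoly F) : asc b (m * a) c - asc b m c * a ∈ W F C (r + 1) := by
  have h1 := K1 hC m a b c
  have h2 := m_mul hm (assoc_JJ a b c)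
  have h3 := K3 hC hm a b c
  have h4 := K3 hC hm c a b
  have h5 := T4 hC m (a * b) c
  have h6 := idents_mul_right (T4 hC m a c) b
  have h7 := idents_mul_right (T4 hC m b c) a
  have e : asc b (m * a) c - asc b m c * a =
      (asc b (m * a) c - (asc (a * b) m c - asc a m (b * c) +
        asc a m b * c - m * ((a * b) * c - a * (b * c)))) -
      m * ((a * b) * c - a * (b * c)) -
      (asc a m (b * c) - (asc a m b * c + asc a m c * b)) -
      (asc c m (a * b) - (asc c m a * b + asc c m b * a)) +
      (asc (a * b) m c + asc c m (a * b)) -
      (asc a m c + asc c m a) * b - (asc b m c + asc c m b) * a := by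
    simp only [add_mul]
    abel
  rw [e]
  exact sub_mem (sub_mem (add_mem (sub_mem (sub_mem (sub_mem (T_le_W h1) h2) h3) h4)
    (T_le_W h5)) (T_le_W h6)) (T_le_W h7)

/-- `(a, m, b c) ≡ c (a, m, b) + b (a, m, c)` -/
lemma K3L (a b c : NAPoly F) : asc a m (b * c) - (c * asc a m b + b * asc a m c) ∈
    W F C (r + 1) := by
  have key : ∀ a b c : NAPoly F, (asc a m (b * c) + (asc a m (b * c) + asc b m (c * a) +
      asc c m (a * b))) - (c * asc a m b + b * asc a m c) ∈ W F C (r + 1) := by
    intro a b c
    have h1 := K1L hC m a b c
    have h2 := K1L hC m a c b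
    have h3 := T4 hC (a * m) b c
    have h4 := T4 hC m (b * a) c
    have h5 := T4 hC m (c * a) b
    have h6 := asc_mem_right hm (comm_JJ b c) a
    rw [asc_right_sub] at h6
    have h7 := asc_mem_right hm (comm_JJ a b) c
    rw [asc_right_sub] at h7
    have h8 := mul_m hm (assoc_JJ c b a)
    have h9 := mul_m hm (assoc_JJ b c a)
    have e : (asc a m (b * c) + (asc a m (b * c) + asc b m (c * a) +
        asc c m (a * b))) - (c * asc a m b + b * asc a m c) =
        (asc b (a * m) c - (asc (b * a) m c - asc a m (c * b) +
          c * asc a m b + ((c * b) * a - c * (b * a)) * m)) +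
        (asc c (a * m) b - (asc (c * a) m b - asc a m (b * c) +
          b * asc a m c + ((b * c) * a - b * (c * a)) * m)) -
        (asc b (a * m) c + asc c (a * m) b) +
        (asc (b * a) m c + asc c m (b * a)) + (asc (c * a) m b + asc b m (c * a)) +
        (asc a m (b * c) - asc a m (c * b)) + (asc c m (a * b) - asc c m (b * a)) +
        ((c * b) * a - c * (b * a)) * m + ((b * c) * a - b * (c * a)) * m := by
      abel
    rw [e]
    exact add_mem (add_mem (add_mem (add_mem (add_mem (add_mem (sub_mem (add_mem (T_le_W h1)
      (T_le_W h2)) (T_le_W h3)) (T_le_W h4)) (T_le_W h5)) h6) h7) h8) h9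
  have k1 := key a b c
  have k2 := key b c a
  have k3 := key c a b
  have t1 := idents_mul_left c (T4 hC m a b)
  have t2 := idents_mul_left b (T4 hC m a c)
  have t3 := idents_mul_left a (T4 hC m b c)
  have h4 : (4 : F) • (asc a m (b * c) + asc b m (c * a) + asc c m (a * b)) ∈ W F C (r + 1) := by
    have e : (4 : F) • (asc a m (b * c) + asc b m (c * a) + asc c m (a * b)) =
        ((asc a m (b * c) + (asc a m (b * c) + asc b m (c * a) +
          asc c m (a * b))) - (c * asc a m b + b * asc a m c)) +
        ((asc b m (c * a) + (asc b m (c * a) + asc c m (a * b) +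
          asc a m (b * c))) - (a * asc b m c + c * asc b m a)) +
        ((asc c m (a * b) + (asc c m (a * b) + asc a m (b * c) +
          asc b m (c * a))) - (b * asc c m a + a * asc c m b)) +
        c * (asc a m b + asc b m a) + b * (asc a m c + asc c m a) +
        a * (asc b m c + asc c m b) := by
      have : (4 : F) = 1 + 1 + 1 + 1 := by norm_num
      rw [this]
      simp only [add_smul, one_smul, mul_add]
      abel
    rw [e]
    exact add_mem (add_mem (add_mem (add_mem (add_mem k1 k2) k3) (T_le_W t1)) (T_le_W t2))
      (T_le_W t3)
  have h5 := (Submodule.smul_mem_iff _ (by norm_num : (4 : F) ≠ 0)).1 h4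
  have e : asc a m (b * c) - (c * asc a m b + b * asc a m c) =
      ((asc a m (b * c) + (asc a m (b * c) + asc b m (c * a) +
      asc c m (a * b))) - (c * asc a m b + b * asc a m c)) -
      (asc a m (b * c) + asc b m (c * a) + asc c m (a * b)) := by abel
  rw [e]
  exact sub_mem k1 h5

/-- `(b, a m, c) ≡ a (b, m, c)` -/
lemma K4L (a b c : NAPoly F) : asc b (a * m) c - a * asc b m c ∈ W F C (r + 1) := by
  have h1 := K1L hC m a b c
  have h2 := mul_m hm (assoc_JJ c b a)
  have h3 := K3L hC hm a c b
  have h4 := K3L hC hm c b a
  have h5 := T4 hC m (b * a) c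
  have h6 := idents_mul_left b (T4 hC m a c)
  have h7 := idents_mul_left a (T4 hC m b c)
  have e : asc b (a * m) c - a * asc b m c =
      (asc b (a * m) c - (asc (b * a) m c - asc a m (c * b) +
        c * asc a m b + ((c * b) * a - c * (b * a)) * m)) +
      ((c * b) * a - c * (b * a)) * m -
      (asc a m (c * b) - (b * asc a m c + c * asc a m b)) -
      (asc c m (b * a) - (a * asc c m b + b * asc c m a)) +
      (asc (b * a) m c + asc c m (b * a)) -
      b * (asc a m c + asc c m a) - a * (asc b m c + asc c m b) := by
    simp only [mul_add]
    abel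
  rw [e]
  exact sub_mem (sub_mem (add_mem (sub_mem (sub_mem (add_mem (T_le_W h1) h2) h3) h4)
    (T_le_W h5)) (T_le_W h6)) (T_le_W h7)

/-- `(a, m, b) b ≡ b (a, m, b)` -/
lemma K5 (a b : NAPoly F) : asc a m b * b - b * asc a m b ∈ W F C (r + 1) := by
  have h1 := K3 hC hm a b b
  have h2 := K3L hC hm a b b
  have h3 : (2 : F) • (asc a m b * b - b * asc a m b) ∈ W F C (r + 1) := by
    have e : (2 : F) • (asc a m b * b - b * asc a m b) =
      (asc a m (b * b) - (b * asc a m b + b * asc a m b)) -
      (asc a m (b * b) - (asc a m b * b + asc a m b * b)) := by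
      rw [two_smul]
      abel
    rw [e]
    exact sub_mem h2 h1
  exact (Submodule.smul_mem_iff _ (two_ne_zero : (2 : F) ≠ 0)).1 h3

/-- `(b, (a, m, b), c) ≡ 0` -/
lemma K6 (a b c : NAPoly F) : asc b (asc a m b) c ∈ W F C (r + 1) := by
  have hm' := asc_W hm a b
  have h1 := W_mul_right (K5 hC hm a b) c
  have h2 := K4 hC hm c a b
  have h3 := K5 hC (W_mul_right hm c) a b
  have h4 := W_mul_right h2 b
  have h5 := W_mul_left b h2
  have h6 := T1 hC (asc a m b) b c
  have h7 := T1 hC (asc a m b) c b
  have h8 := m_mul hm' (comm_JJ b c)
  have h9 := T4 hC (asc a m b) b c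
  have h10 : (3 : F) • asc b (asc a m b) c ∈ W F C (r + 1) := by
    have h3' : (3 : F) = 1 + 1 + 1 := by norm_num
    have e0 : (3 : F) • asc b (asc a m b) c = asc b (asc a m b) c + asc b (asc a m b) c +
        ((b * asc a m b) * c - b * (asc a m b * c)) := by
      rw [h3', add_smul, add_smul, one_smul]
      rfl
    have e : (3 : F) • asc b (asc a m b) c =
        asc a m b * (b * c - c * b) + (asc b (asc a m b) c + asc c (asc a m b) b) +
        ((asc a m b * b) * c - (asc a m b * (b * c) - asc b (asc a m b) c)) -
        ((asc a m b * c) * b - (asc a m b * (c * b) - asc c (asc a m b) b)) -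
        (asc a m b * b - b * asc a m b) * c -
        (asc a (m * c) b - asc a m b * c) * b +
        (asc a (m * c) b * b - b * asc a (m * c) b) + b * (asc a (m * c) b - asc a m b * c) := by
      rw [e0]
      simp only [sub_mul, mul_sub]
      abel
    rw [e]
    exact add_mem (add_mem (sub_mem (sub_mem (sub_mem (add_mem (add_mem h8 (T_le_W h9))
      (T_le_W h6)) (T_le_W h7)) h1) h4) h3) h5
  exact (Submodule.smul_mem_iff _ (by norm_num : (3 : F) ≠ 0)).1 h10

/-- `(b, (a, m, b'), c) + (b', (a, m, b), c) ≡ 0` -/
lemma K6' (a b b' c : NAPoly F) : asc b (asc a m b') c + asc b' (asc a m b) c ∈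
    W F C (r + 1) := by
  have h1 := K6 hC hm a (b + b') c
  have h2 := K6 hC hm a b c
  have h3 := K6 hC hm a b' c
  have e : asc b (asc a m b') c + asc b' (asc a m b) c =
      asc (b + b') (asc a m (b + b')) c - asc b (asc a m b) c - asc b' (asc a m b') c := by
    rw [asc_right_add, asc_left_add, asc_add, asc_add]
    abel
  rw [e]
  exact sub_mem (sub_mem h1 h2) h3

end rel3

section chain

/-- iterated associators with letters -/
noncomputable def Al (m : NAPoly F) (s : List (ℕ × ℕ)) : NAPoly F :=
  s.foldl (fun m p => asc (X F p.1) m (X F p.2)) m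

@[simp] lemma Al_nil (m : NAPoly F) : Al m [] = m := rfl

lemma Al_append (m : NAPoly F) (s : List (ℕ × ℕ)) (p : ℕ × ℕ) :
    Al m (s ++ [p]) = asc (X F p.1) (Al m s) (X F p.2) := by
  simp [Al, List.foldl_append]

lemma Al_append_list (m : NAPoly F) (s t : List (ℕ × ℕ)) :
    Al m (s ++ t) = Al (Al m s) t := by
  simp [Al, List.foldl_append]

lemma Al_add (m m' : NAPoly F) (s : List (ℕ × ℕ)) : Al (m + m') s = Al m s + Al m' s := by
  induction s using List.reverseRecOn with
  | nil => rfl
  | append_singleton s p ih => rw [Al_append, Al_append, Al_append, ih, asc_add]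

lemma Al_sub (m m' : NAPoly F) (s : List (ℕ × ℕ)) : Al (m - m') s = Al m s - Al m' s := by
  induction s using List.reverseRecOn with
  | nil => rfl
  | append_singleton s p ih => rw [Al_append, Al_append, Al_append, ih, asc_sub]

lemma Al_smul (c : F) (m : NAPoly F) (s : List (ℕ × ℕ)) : Al (c • m) s = c • Al m s := by
  induction s using List.reverseRecOn with
  | nil => rfl
  | append_singleton s p ih => rw [Al_append, Al_append, ih, asc_smul]

lemma Al_zero (s : List (ℕ × ℕ)) : Al (0 : NAPoly F) s = 0 := by
  have := Al_smul (0 : F) (0 : NAPoly F) s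
  simpa using this

lemma Al_W {r : ℕ} {m : NAPoly F} (hm : m ∈ W F C r) (s : List (ℕ × ℕ)) :
    Al m s ∈ W F C r := by
  induction s using List.reverseRecOn with
  | nil => exact hm
  | append_singleton s p ih => rw [Al_append]; exact asc_W ih _ _

lemma relabel_asc (φ : ℕ → ℕ) (a m b : NAPoly F) :
    relabel φ (asc a m b) = asc (relabel φ a) (relabel φ m) (relabel φ b) := by
  simp [asc, map_sub, map_mul]

lemma relabel_Al (φ : ℕ → ℕ) (m : NAPoly F) (s : List (ℕ × ℕ)) :
    relabel φ (Al m s) = Al (relabel φ m) (s.map (Prod.map φ φ)) := by
  induction s using List.reverseRecOn with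
  | nil => rfl
  | append_singleton s p ih =>
    rw [Al_append, relabel_asc, ih, List.map_append, List.map_singleton, Al_append, relabel_X,
      relabel_X]
    rfl

/-- the letters of a list of pairs -/
def pl (s : List (ℕ × ℕ)) : Multiset ℕ := (s.map fun p => ({p.1} + {p.2} : Multiset ℕ)).sum

@[simp] lemma pl_nil : pl [] = 0 := rfl

lemma pl_append (s t : List (ℕ × ℕ)) : pl (s ++ t) = pl s + pl t := by
  simp [pl]

lemma pl_single (p : ℕ × ℕ) : pl [p] = {p.1} + {p.2} := by simp [pl]

section cc
variable [CharZero F] (hC : IsAlt C) {r : ℕ}
include hC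

lemma Al_mul {m : NAPoly F} (hm : m ∈ W F C r) (s : List (ℕ × ℕ)) (c : NAPoly F) :
    Al m s * c - Al (m * c) s ∈ W F C (r + 1) := by
  induction s using List.reverseRecOn with
  | nil => simp only [Al_nil, sub_self]; exact zero_mem _
  | append_singleton s p ih =>
    rw [Al_append, Al_append]
    have h1 := K4 hC (Al_W hm s) c (X F p.1) (X F p.2)
    have h2 := asc_W ih (X F p.1) (X F p.2)
    rw [asc_sub] at h2
    have e : asc (X F p.1) (Al m s) (X F p.2) * c - asc (X F p.1) (Al (m * c) s) (X F p.2) =
        -(asc (X F p.1) (Al m s * c) (X F p.2) - asc (X F p.1) (Al m s) (X F p.2) * c) +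
        (asc (X F p.1) (Al m s * c) (X F p.2) - asc (X F p.1) (Al (m * c) s) (X F p.2)) := by abel
    rw [e]
    exact add_mem (neg_mem h1) h2

lemma mul_Al {m : NAPoly F} (hm : m ∈ W F C r) (s : List (ℕ × ℕ)) (c : NAPoly F) :
    c * Al m s - Al (c * m) s ∈ W F C (r + 1) := by
  induction s using List.reverseRecOn with
  | nil => simp only [Al_nil, sub_self]; exact zero_mem _
  | append_singleton s p ih =>
    rw [Al_append, Al_append]
    have h1 := K4L hC (Al_W hm s) c (X F p.1) (X F p.2)
    have h2 := asc_W ih (X F p.1) (X F p.2)
    rw [asc_sub] at h2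
    have e : c * asc (X F p.1) (Al m s) (X F p.2) - asc (X F p.1) (Al (c * m) s) (X F p.2) =
        -(asc (X F p.1) (c * Al m s) (X F p.2) - c * asc (X F p.1) (Al m s) (X F p.2)) +
        (asc (X F p.1) (c * Al m s) (X F p.2) - asc (X F p.1) (Al (c * m) s) (X F p.2)) := by abel
    rw [e]
    exact add_mem (neg_mem h1) h2

end cc

/-! ### normal forms -/

/-- optional right multiplication -/
noncomputable def mR (m : NAPoly F) : Option (FreeMagma ℕ) → NAPoly F
  | none => m
  | some u => m * word F u

/-- optional left multiplication -/
noncomputable def mL (m : NAPoly F) : Option (FreeMagma ℕ) → NAPoly F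
  | none => m
  | some u => word F u * m

/-- letters of an optional word -/
def ol : Option (FreeMagma ℕ) → Multiset ℕ
  | none => 0
  | some u => letters u

lemma ol_none : ol none = 0 := rfl
lemma ol_some (u : FreeMagma ℕ) : ol (some u) = letters u := rfl

/-- the normal forms over `n` without iterated associators -/
noncomputable def f2 (n : NAPoly F) (u v : Option (FreeMagma ℕ)) : NAPoly F := mL (mR n u) v

lemma mR_W {r : ℕ} {m : NAPoly F} (hm : m ∈ W F C r) (u : Option (FreeMagma ℕ)) :
    mR m u ∈ W F C r := by
  cases u with
  | none => exact hm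
  | some u => exact W_mul_right hm _

lemma mL_W {r : ℕ} {m : NAPoly F} (hm : m ∈ W F C r) (u : Option (FreeMagma ℕ)) :
    mL m u ∈ W F C r := by
  cases u with
  | none => exact hm
  | some u => exact W_mul_left _ hm

lemma f2_W {r : ℕ} {m : NAPoly F} (hm : m ∈ W F C r) (u v : Option (FreeMagma ℕ)) :
    f2 m u v ∈ W F C r := mL_W (mR_W hm u) v

variable (F C) in
/-- span of the normal forms over `n` with at most `t` letters outside the associators -/
noncomputable def NSn (r : ℕ) (n : NAPoly F) (t : ℕ) (ν : Multiset ℕ) : Submodule F (NAPoly F) :=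
  Submodule.span F {q | ∃ u v s, (ol u).card + (ol v).card ≤ t ∧ ν = ol u + ol v + pl s ∧
    q = Al (f2 n u v) s} ⊔ W F C (r + 1)

lemma W_le_NSn {r : ℕ} {n : NAPoly F} {t : ℕ} {ν : Multiset ℕ} {q : NAPoly F}
    (h : q ∈ W F C (r + 1)) : q ∈ NSn F C r n t ν := Submodule.mem_sup_right h

lemma mem_NSn {r : ℕ} {n : NAPoly F} {t : ℕ} (u v : Option (FreeMagma ℕ)) (s : List (ℕ × ℕ))
    (h : (ol u).card + (ol v).card ≤ t) :
    Al (f2 n u v) s ∈ NSn F C r n t (ol u + ol v + pl s) :=
  Submodule.mem_sup_left (Submodule.subset_span ⟨u, v, s, h, rfl, rfl⟩)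

lemma NSn_induction {r : ℕ} {n : NAPoly F} {t : ℕ} {ν : Multiset ℕ}
    {P : Submodule F (NAPoly F)} {ψ : NAPoly F →ₗ[F] NAPoly F}
    (h1 : ∀ u v s, (ol u).card + (ol v).card ≤ t → ν = ol u + ol v + pl s →
      ψ (Al (f2 n u v) s) ∈ P) (h2 : ∀ q ∈ W F C (r + 1), ψ q ∈ P) {q : NAPoly F}
    (hq : q ∈ NSn F C r n t ν) : ψ q ∈ P := by
  have : NSn F C r n t ν ≤ P.comap ψ := by
    refine sup_le (Submodule.span_le.2 ?_) fun q hq => h2 q hq
    rintro q ⟨u, v, s, h3, h4, rfl⟩
    exact h1 u v s h3 h4
  exact this hq

lemma NSn_mono {r : ℕ} {n : NAPoly F} {t t' : ℕ} (h : t ≤ t') {ν : Multiset ℕ} {q : NAPoly F}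
    (hq : q ∈ NSn F C r n t ν) : q ∈ NSn F C r n t' ν := by
  refine NSn_induction (P := NSn F C r n t' ν) (ψ := LinearMap.id) ?_ ?_ hq
  · intro u v s h1 h2
    rw [h2]
    exact mem_NSn u v s (h1.trans h)
  · intro q hq
    exact W_le_NSn hq

lemma NSn_Al {r : ℕ} {n : NAPoly F} {t : ℕ} {ν : Multiset ℕ} {q : NAPoly F}
    (hq : q ∈ NSn F C r n t ν) (s : List (ℕ × ℕ)) : Al q s ∈ NSn F C r n t (ν + pl s) := by
  let ψ : NAPoly F →ₗ[F] NAPoly F :=
    { toFun := fun q => Al q s
      map_add' := fun a b => Al_add a b s
      map_smul' := fun c a => Al_smul c a s }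
  refine NSn_induction (P := NSn F C r n t (ν + pl s)) (ψ := ψ) ?_ ?_ hq
  · intro u v s' h1 h2
    show Al (Al (f2 n u v) s') s ∈ _
    rw [← Al_append_list, h2, add_assoc, ← pl_append]
    exact mem_NSn u v (s' ++ s) h1
  · intro q hq
    exact W_le_NSn (Al_W hq s)

section closure

variable [CharZero F] (hC : IsAlt C) {r : ℕ} {n : NAPoly F} (hn : n ∈ W F C r)

/-- the closure statements -/
def StSa (F : Type) [Field F] (C : Type) [NonUnitalNonAssocRing C] [Module F C]
    [IsScalarTower F C C] [SMulCommClass F C C] (r : ℕ) (n : NAPoly F) (D : ℕ) : Prop :=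
  (∀ u v w, (ol u).card + (ol v).card + (letters w).card ≤ D →
    f2 n u v * word F w ∈ NSn F C r n D (ol u + ol v + letters w) ∧
    word F w * f2 n u v ∈ NSn F C r n D (ol u + ol v + letters w)) ∧
  (∀ u v a b, (ol u).card + (ol v).card + (letters a).card + (letters b).card ≤ D →
    asc (word F a) (f2 n u v) (word F b) ∈
      NSn F C r n (D - 2) (ol u + ol v + letters a + letters b))

lemma letters_card_pos (w : FreeMagma ℕ) : 1 ≤ (letters w).card := by
  induction w using word_induction with
  | h1 a => simp
  | h2 x y hx hy => rw [letters_mul, Multiset.card_add]; omega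

include hC hn in
/-- multiplication of a normal form by a word -/
lemma NSn_mul_word {D t : ℕ} {ν : Multiset ℕ} (hD : StSa F C r n D) (w : FreeMagma ℕ)
    (ht : t + (letters w).card ≤ D) {q : NAPoly F} (hq : q ∈ NSn F C r n t ν) :
    q * word F w ∈ NSn F C r n D (ν + letters w) ∧
      word F w * q ∈ NSn F C r n D (ν + letters w) := by
  constructor
  · refine NSn_induction (P := NSn F C r n D (ν + letters w))
      (ψ := LinearMap.mulRight F (word F w)) ?_ ?_ hq
    · intro u v s h1 h2
      show Al (f2 n u v) s * word F w ∈ _
      have h3 := Al_mul hC (f2_W hn u v) s (word F w)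
      have h4 := NSn_Al (hD.1 u v w (by omega)).1 s
      have e : Al (f2 n u v) s * word F w =
        (Al (f2 n u v) s * word F w - Al (f2 n u v * word F w) s) +
          Al (f2 n u v * word F w) s := by abel
      rw [e, h2]
      refine add_mem (W_le_NSn h3) ?_
      rwa [add_right_comm] at h4
    · intro q hq
      exact W_le_NSn (W_mul_right hq _)
  · refine NSn_induction (P := NSn F C r n D (ν + letters w))
      (ψ := LinearMap.mulLeft F (word F w)) ?_ ?_ hq
    · intro u v s h1 h2
      show word F w * Al (f2 n u v) s ∈ _
      have h3 := mul_Al hC (f2_W hn u v) s (word F w)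
      have h4 := NSn_Al (hD.1 u v w (by omega)).2 s
      have e : word F w * Al (f2 n u v) s =
        (word F w * Al (f2 n u v) s - Al (word F w * f2 n u v) s) +
          Al (word F w * f2 n u v) s := by abel
      rw [e, h2]
      refine add_mem (W_le_NSn h3) ?_
      rwa [add_right_comm] at h4
    · intro q hq
      exact W_le_NSn (W_mul_left _ hq)

include hC hn in
lemma stSa (D : ℕ) : StSa F C r n D := by
  induction D using Nat.strong_induction_on with
  | _ D ih =>
    -- the associators
    have hSa : ∀ u v a b, (ol u).card + (ol v).card + (letters a).card + (letters b).card ≤ D →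
        asc (word F a) (f2 n u v) (word F b) ∈
          NSn F C r n (D - 2) (ol u + ol v + letters a + letters b) := by
      intro u v a b hD
      have hm := f2_W hn u v
      have hpa := letters_card_pos a
      have hpb := letters_card_pos b
      -- one composite argument
      have comp : ∀ (x b1 b2 : FreeMagma ℕ), (ol u).card + (ol v).card + (letters x).card +
          (letters b1).card + (letters b2).card ≤ D →
          asc (word F x) (f2 n u v) (word F (b1 * b2)) ∈
            NSn F C r n (D - 2) (ol u + ol v + letters x + letters (b1 * b2)) := by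
        intro x b1 b2 hD'
        have p1 := letters_card_pos b1
        have p2 := letters_card_pos b2
        have px := letters_card_pos x
        have h1 := K3 hC hm (word F x) (word F b1) (word F b2)
        have s1 := (ih (D - (letters b2).card) (by omega)).2 u v x b1 (by omega)
        have s2 := (ih (D - (letters b1).card) (by omega)).2 u v x b2 (by omega)
        have c1 := (NSn_mul_word hC hn (ih (D - 2) (by omega)) b2 (by omega) s1).1
        have c2 := (NSn_mul_word hC hn (ih (D - 2) (by omega)) b1 (by omega) s2).1
        rw [word_mul, letters_mul]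
        have e : asc (word F x) (f2 n u v) (word F b1 * word F b2) =
          (asc (word F x) (f2 n u v) (word F b1 * word F b2) -
            (asc (word F x) (f2 n u v) (word F b1) * word F b2 +
              asc (word F x) (f2 n u v) (word F b2) * word F b1)) +
          asc (word F x) (f2 n u v) (word F b1) * word F b2 +
              asc (word F x) (f2 n u v) (word F b2) * word F b1 := by abel
        rw [e]
        refine add_mem (add_mem (W_le_NSn h1) ?_) ?_
        · rwa [add_assoc (_ + _) (letters b1)] at c1
        · rwa [add_assoc (_ + _) (letters b2), add_comm (letters b2)] at c2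
      induction b using word_induction with
      | h1 y =>
        induction a using word_induction with
        | h1 x =>
          have := mem_NSn (F := F) (C := C) (r := r) (n := n) (t := D - 2) u v [(x, y)]
            (by simp only [letters_of, Multiset.card_singleton] at hD; omega)
          rw [pl_single, ← add_assoc] at this
          exact this
        | h2 a1 a2 _ _ =>
          have h1 := comp (.of y) a1 a2 (by
            simp only [letters_mul, Multiset.card_add] at hD
            omega)
          have h2 := T4 hC (f2 n u v) (word F (a1 * a2)) (word F (.of y))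
          have e : asc (word F (a1 * a2)) (f2 n u v) (word F (.of y)) =
            (asc (word F (a1 * a2)) (f2 n u v) (word F (.of y)) +
              asc (word F (.of y)) (f2 n u v) (word F (a1 * a2))) -
              asc (word F (.of y)) (f2 n u v) (word F (a1 * a2)) := by abel
          rw [e]
          refine sub_mem (W_le_NSn (T_le_W h2)) ?_
          rwa [add_right_comm] at h1
      | h2 b1 b2 _ _ =>
        exact comp a b1 b2 (by
          simp only [letters_mul, Multiset.card_add] at hD
          omega)
    refine ⟨?_, hSa⟩
    intro u v w hD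
    have hpw := letters_card_pos w
    constructor
    · -- right multiplication
      cases v with
      | none =>
        cases u with
        | none =>
          have := mem_NSn (F := F) (C := C) (r := r) (n := n) (t := D) (some w) none []
            (by simp only [ol, Multiset.card_zero] at hD ⊢; omega)
          simpa [f2, mL, mR, ol] using this
        | some u =>
          have h1 := T1 hC n (word F u) (word F w)
          have h2 := mem_NSn (F := F) (C := C) (r := r) (n := n) (t := D) (some (u * w)) none []
            (by simp only [ol, Multiset.card_zero, letters_mul, Multiset.card_add] at hD ⊢; omega)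
          have h3 := NSn_mono (show D - 2 ≤ D by omega) (hSa none none u w (by
            simp only [ol, Multiset.card_zero] at hD ⊢; omega))
          simp only [f2, mL, mR, ol, Al_nil, pl_nil, add_zero, zero_add, letters_mul,
            word_mul] at h2 h3 ⊢
          have e : n * word F u * word F w =
            (n * word F u * word F w - (n * (word F u * word F w) -
              asc (word F u) n (word F w))) + n * (word F u * word F w) -
              asc (word F u) n (word F w) := by abel
          rw [e]
          exact sub_mem (add_mem (W_le_NSn (T_le_W h1)) h2) h3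
      | some v =>
        cases u with
        | none =>
          have h2 := mem_NSn (F := F) (C := C) (r := r) (n := n) (t := D) (some w) (some v) []
            (by simp only [ol, Multiset.card_zero] at hD ⊢; omega)
          have h3 := NSn_mono (show D - 2 ≤ D by omega) (hSa none none v w (by
            simp only [ol, Multiset.card_zero] at hD ⊢; omega))
          simp only [f2, mL, mR, ol, Al_nil, pl_nil, add_zero, zero_add] at h2 h3 ⊢
          have e : word F v * n * word F w = word F v * (n * word F w) +
            asc (word F v) n (word F w) := by unfold asc; abel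
          rw [e]
          refine add_mem ?_ h3
          rwa [add_comm (letters w)] at h2
        | some u =>
          have h1 := T1 hC n (word F u) (word F w)
          have h1' := W_mul_left (C := C) (r := r + 1) (word F v) (T_le_W h1)
          have h4 := K4L hC hn (word F v) (word F u) (word F w)
          have h2 := mem_NSn (F := F) (C := C) (r := r) (n := n) (t := D) (some (u * w)) (some v) []
            (by simp only [ol, letters_mul, Multiset.card_add] at hD ⊢; omega)
          have h3 := NSn_mono (show D - 2 ≤ D by omega) (hSa none (some v) u w (by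
            simp only [ol, Multiset.card_zero] at hD ⊢; omega))
          have h5 := NSn_mono (show D - 2 ≤ D by omega) (hSa (some u) none v w (by
            simp only [ol, Multiset.card_zero] at hD ⊢; omega))
          simp only [f2, mL, mR, ol, Al_nil, pl_nil, add_zero, zero_add, letters_mul,
            word_mul] at h2 h3 h5 ⊢
          have e : word F v * (n * word F u) * word F w =
              word F v * (n * word F u * word F w - (n * (word F u * word F w) -
                asc (word F u) n (word F w))) +
              word F v * (n * (word F u * word F w)) +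
              (asc (word F u) (word F v * n) (word F w) -
                word F v * asc (word F u) n (word F w)) -
              asc (word F u) (word F v * n) (word F w) +
              asc (word F v) (n * word F u) (word F w) := by
            have : asc (word F v) (n * word F u) (word F w) =
              word F v * (n * word F u) * word F w - word F v * (n * word F u * word F w) := rfl
            rw [this]
            simp only [mul_sub]
            abel
          rw [e]
          refine add_mem (sub_mem (add_mem (add_mem (W_le_NSn h1') ?_) (W_le_NSn h4)) ?_) ?_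
          · rwa [show letters u + letters w + letters v = letters u + letters v + letters w by
              abel] at h2
          · rwa [show letters v + letters u + letters w = letters u + letters v + letters w by
              abel] at h3
          · exact h5
    · -- left multiplication
      cases v with
      | none =>
        have := mem_NSn (F := F) (C := C) (r := r) (n := n) (t := D) u (some w) []
          (by simp only [ol, Multiset.card_zero] at hD ⊢; omega)
        simpa [f2, mL, ol] using this
      | some v =>
        have h1 := T2 hC (mR n u) (word F w) (word F v)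
        have h2 := mem_NSn (F := F) (C := C) (r := r) (n := n) (t := D) u (some (w * v)) []
          (by simp only [ol, letters_mul, Multiset.card_add] at hD ⊢; omega)
        have h3 := NSn_mono (show D - 2 ≤ D by omega) (hSa u none w v (by
            simp only [ol, Multiset.card_zero] at hD ⊢; omega))
        simp only [f2, mL, ol_some, ol_none, Al_nil, pl_nil, add_zero, letters_mul,
          word_mul] at h2 h3 ⊢
        have e : word F w * (word F v * mR n u) =
          (word F w * (word F v * mR n u) - ((word F w * word F v) * mR n u +
            asc (word F w) (mR n u) (word F v))) + (word F w * word F v) * mR n u +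
            asc (word F w) (mR n u) (word F v) := by abel
        rw [e]
        refine add_mem (add_mem (W_le_NSn (T_le_W h1)) ?_) ?_
        · rwa [show ol u + (letters w + letters v) = ol u + letters v + letters w by abel] at h2
        · rwa [show ol u + letters w + letters v = ol u + letters v + letters w by abel] at h3

end closure

end chain

end Pool.Agent.SRAlt
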