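import Pool.Agent.SRAlt.Alg2

set_option autoImplicit false

open scoped TensorProduct

namespace Pool.Agent.SRAlt

open Pool.Agent.Superrank

variable {F : Type} [Field F]

lemma prod_zt_swap {L : Finset ℕ} {β : Type} (b : ℕ → β × Bool) (τ : Equiv.Perm L)
    (hτ : ∀ k, b (τ k) = b k) (a c : L) (hac : a ≠ c) (hb : b a = b c) :
    (∏ k : L, zt (F := F) (b k).2 k ((Equiv.swap a c * τ) k) : Rc F) =
      sg F (b a).2 • ∏ k : L, zt (F := F) (b k).2 k (τ k) := by
  classical
  set k1 := τ⁻¹ a with hk1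
  set k2 := τ⁻¹ c with hk2
  have e1 : τ k1 = a := by rw [hk1]; simp
  have e2 : τ k2 = c := by rw [hk2]; simp
  have hne : k2 ≠ k1 := by
    intro h
    rw [h] at e2
    exact hac (e1.symm.trans e2)
  have t1 : (b k1).2 = (b a).2 := by rw [← hτ k1, e1]
  have t2 : (b k2).2 = (b a).2 := by rw [← hτ k2, e2, hb]
  have hm : k2 ∈ Finset.univ.erase k1 := Finset.mem_erase.2 ⟨hne, Finset.mem_univ _⟩
  rw [← Finset.mul_prod_erase Finset.univ _ (Finset.mem_univ k1), ← Finset.mul_prod_erase _ _ hm,
    ← Finset.mul_prod_erase Finset.univ (fun k : L => zt (F := F) (b k).2 k (τ k))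
      (Finset.mem_univ k1), ← Finset.mul_prod_erase _ (fun k : L => zt (F := F) (b k).2 k (τ k)) hm,
    ← mul_assoc, ← mul_assoc]
  have h3 : ∀ k ∈ (Finset.univ.erase k1).erase k2,
      zt (F := F) (b k).2 k ((Equiv.swap a c * τ) k) = zt (F := F) (b k).2 k (τ k) := by
    intro k hk
    rw [Finset.mem_erase, Finset.mem_erase] at hk
    rw [Equiv.Perm.mul_apply, Equiv.swap_apply_of_ne_of_ne]
    · intro h
      exact hk.2.1 (τ.injective (h.trans e1.symm))
    · intro h
      exact hk.1 (τ.injective (h.trans e2.symm))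
  rw [Finset.prod_congr rfl h3, Equiv.Perm.mul_apply, Equiv.Perm.mul_apply, e1, e2,
    Equiv.swap_apply_left, Equiv.swap_apply_right, t1, t2, zt_swap, smul_mul_assoc]

variable {C : Type} [NonUnitalNonAssocRing C] [Module F C] [IsScalarTower F C C]
  [SMulCommClass F C C]

/-- A multilinear identity of the Grassmann envelope that is symmetric or skew-symmetric in every
block is an identity. -/
theorem ev_eq_zero2 [CharZero F] {K : ℕ} (x : ℕ → C) (L : Finset ℕ) {f : NAPoly F}
    (hf : f ∈ H F L.val) (hid : IsEnvelopeIdentity (SAp2 F K x) f) (b : ℕ → Fin K × Bool)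
    (hsk : ∀ τ : Equiv.Perm L, (∀ k, b (τ k) = b k) → ∃ c : F, c * c = 1 ∧
      FreeNonUnitalNonAssocAlgebra.lift F x (relabel (Equiv.Perm.ofSubtype τ) f) =
        c • FreeNonUnitalNonAssocAlgebra.lift F x f ∧
      (∏ k : L, zt (F := F) (b k).2 k (τ k) : Rc F) = c • ∏ k : L, zt (F := F) (b k).2 k k) :
    FreeNonUnitalNonAssocAlgebra.lift F x f = 0 := by
  classical
  have h0 := hid (fun k => om F (b k).2 k ⊗ₜ[F] yA2 x (b k))
    (fun k => Submodule.subset_span ⟨_, _, om_mem (b k).2 k, _, yA2_mem x (b k), rfl⟩)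
  have h1 := congrArg (projHom2 (L, b)) h0
  rw [← lift_comp, map_zero] at h1
  have h2 : (fun k => projHom2 (L, b) (om F (b k).2 k ⊗ₜ[F] yA2 x (b k))) =
      fun k => Psi F C (∑ j ∈ L.filter (fun j => b j = b k), zt (F := F) (b k).2 k j ⊗ₜ[F] x j) := by
    funext k
    rw [projHom2_tmul, map_sum]
    show om F (b k).2 k ⊗ₜ[F] (∑ j ∈ L.filter (fun j => b j = b k),
      toGC F C (gco F (b k).2 j ⊗ₜ[F] x j)) = _
    rw [TensorProduct.tmul_sum]
    rfl
  rw [h2, lift_comp, ev_sum L hf (fun k => L.filter (fun j => b j = b k))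
    (fun k j => zt (F := F) (b k).2 k j)] at h1
  -- every term is `0` or the main term
  have hterm : ∀ r ∈ Fintype.piFinset (fun k : L => L.filter (fun j => b j = b k)),
      (∏ k : L, zt (F := F) (b k).2 k (r k)) ⊗ₜ[F]
        FreeNonUnitalNonAssocAlgebra.lift F (extL L (fun k => x (r k))) f =
      if Function.Injective r then (∏ k : L, zt (F := F) (b k).2 k k) ⊗ₜ[F]
        FreeNonUnitalNonAssocAlgebra.lift F x f else 0 := by
    intro r hr
    rw [Fintype.mem_piFinset] at hr
    have hr1 : ∀ k, r k ∈ L := fun k => (Finset.mem_filter.1 (hr k)).1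
    have hr2 : ∀ k, b (r k) = b k := fun k => (Finset.mem_filter.1 (hr k)).2
    split_ifs with hinj
    · let τ0 : L → L := fun k => ⟨r k, hr1 k⟩
      have hτ0 : Function.Injective τ0 := fun a c hac => hinj (congrArg Subtype.val hac)
      let τ : Equiv.Perm L := Equiv.ofBijective τ0 (Finite.injective_iff_bijective.1 hτ0)
      have hτ : ∀ k, ((τ k : L) : ℕ) = r k := fun k => rfl
      have e1 : FreeNonUnitalNonAssocAlgebra.lift F (extL L (fun k => x (r k))) f =
          FreeNonUnitalNonAssocAlgebra.lift F x (relabel (Equiv.Perm.ofSubtype τ) f) := by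
        rw [lift_relabel]
        apply ev_congr hf
        intro k hk
        have hk' : k ∈ L := hk
        rw [extL, dif_pos hk', Equiv.Perm.ofSubtype_apply_of_mem τ hk', hτ]
      obtain ⟨c, hc, e2, e4⟩ := hsk τ (fun k => hr2 k)
      have e3 : (∏ k : L, zt (F := F) (b k).2 k (r k)) =
        ∏ k : L, zt (F := F) (b k).2 k (τ k) := rfl
      rw [e1, e2, e3, e4, TensorProduct.smul_tmul, smul_smul, hc, one_smul]
    · have hz : (∏ k : L, zt (F := F) (b k).2 k (r k)) = 0 := by
        rw [Function.not_injective_iff] at hinj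
        obtain ⟨k1, k2, hk, hne⟩ := hinj
        have hm : k2 ∈ Finset.univ.erase k1 := Finset.mem_erase.2 ⟨hne.symm, Finset.mem_univ _⟩
        rw [← Finset.mul_prod_erase Finset.univ _ (Finset.mem_univ k1),
          ← Finset.mul_prod_erase _ _ hm, ← mul_assoc]
        have hb : (b k2).2 = (b k1).2 := by rw [← hr2 k1, ← hr2 k2, hk]
        rw [hb, hk, zt_zero, zero_mul]
      rw [hz, TensorProduct.zero_tmul]
  rw [Finset.sum_congr rfl hterm, Finset.sum_ite, Finset.sum_const_zero, add_zero,
    Finset.sum_const, map_nsmul] at h1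
  set N := ((Fintype.piFinset (fun k : L => L.filter (fun j => b j = b k))).filter
    (fun r => Function.Injective r)).card with hN
  have hNpos : N ≠ 0 := by
    rw [hN]
    apply Finset.card_ne_zero_of_mem (a := fun k : L => (k : ℕ))
    rw [Finset.mem_filter, Fintype.mem_piFinset]
    exact ⟨fun k => Finset.mem_filter.2 ⟨k.2, rfl⟩, Subtype.val_injective⟩
  have h3 : Psi F C ((∏ k : L, zt (F := F) (b k).2 k k) ⊗ₜ[F]
      FreeNonUnitalNonAssocAlgebra.lift F x f) = 0 := by
    rw [← Nat.cast_smul_eq_nsmul F] at h1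
    exact (smul_eq_zero.1 h1).resolve_left (Nat.cast_ne_zero.2 hNpos)
  rw [Psi_tmul] at h3
  have h4 : ((∏ k : L, zt (F := F) (b k).2 k k : Rc F) : Gr F ⊗[F] Gr F) ⊗ₜ[F]
      FreeNonUnitalNonAssocAlgebra.lift F x f = 0 := by
    have hinj : Function.Injective (assocL F C) := by
      unfold assocL
      rw [LinearMap.coe_comp]
      refine Function.Injective.comp ?_ (TensorProduct.assoc F (Gr F) (Gr F) C).injective
      exact Module.Flat.lTensor_preserves_injective_linearMap _ (toGC F C).injective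
    apply hinj
    rw [map_zero]
    exact h3
  obtain ⟨φ, hφ⟩ : ∃ φ : Module.Dual F (Gr F ⊗[F] Gr F),
      φ ((∏ k : L, zt (F := F) (b k).2 k k : Rc F) : Gr F ⊗[F] Gr F) ≠ 0 := by
    by_contra hcon
    push Not at hcon
    exact prod_zt_ne_zero (F := F) (fun k => (b k).2) L
      ((Module.forall_dual_apply_eq_zero_iff F _).1 hcon)
  have h5 := congrArg (fun t => (TensorProduct.lid F C) ((LinearMap.rTensor C φ) t)) h4
  simp only [LinearMap.rTensor_tmul, TensorProduct.lid_tmul, map_zero] at h5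
  exact (smul_eq_zero.1 h5).resolve_left hφ

end Pool.Agent.SRAlt
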