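import Pool.Agent.SRAlt.CI2
import Pool.Agent.SRAlt.Eval2

set_option autoImplicit false

open scoped TensorProduct

namespace Pool.Agent.SRAlt

open Pool.Agent.Superrank

variable {F : Type} [Field F]

variable {C : Type} [NonUnitalNonAssocRing C] [Module F C] [IsScalarTower F C C]
  [SMulCommClass F C C]

/-! ### skew-symmetry of the iterated associators -/

variable (C) in
/-- skewness modulo `W r` -/
def Sk2 (r : ℕ) (q : NAPoly F) (k l : ℕ) : Prop :=
  k = l ∨ relabel (Equiv.swap k l) q + q ∈ W F C r

lemma Sk2_symm {r : ℕ} {q : NAPoly F} {k l : ℕ} (h : Sk2 C r q k l) : Sk2 C r q l k := by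
  rcases h with h | h
  · exact Or.inl h.symm
  · right
    rwa [Equiv.swap_comm]

lemma Sk2_trans {r : ℕ} {q : NAPoly F} {k y z : ℕ} (h1 : Sk2 C r q k y) (h2 : Sk2 C r q y z) :
    Sk2 C r q k z := by
  by_cases hkz : k = z
  · exact Or.inl hkz
  rcases h1 with rfl | h1
  · exact h2
  rcases h2 with rfl | h2
  · exact Or.inr h1
  by_cases hky : k = y
  · subst hky
    exact Or.inr h2
  right
  have e : ((Equiv.swap k z : Equiv.Perm ℕ) : ℕ → ℕ) =
      (Equiv.swap y z) ∘ (Equiv.swap k y) ∘ (Equiv.swap y z) := by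
    have h3 := Equiv.swap_apply_apply (Equiv.swap y z) k y
    rw [Equiv.swap_apply_left, Equiv.swap_apply_of_ne_of_ne hky hkz] at h3
    rw [h3, Equiv.swap_inv]
    rfl
  rw [e, ← relabel_relabel, ← relabel_relabel]
  have a2 := W_relabel (Equiv.swap k y) h2
  rw [map_add] at a2
  have a3 : relabel (Equiv.swap k y) (relabel (Equiv.swap y z) q) - q ∈ W F C r := by
    have : relabel (Equiv.swap k y) (relabel (Equiv.swap y z) q) - q =
      (relabel (Equiv.swap k y) (relabel (Equiv.swap y z) q) + relabel (Equiv.swap k y) q) -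
      (relabel (Equiv.swap k y) q + q) := by abel
    rw [this]
    exact sub_mem a2 h1
  have a4 := W_relabel (Equiv.swap y z) a3
  rw [map_sub] at a4
  have : relabel (Equiv.swap y z) (relabel (Equiv.swap k y) (relabel (Equiv.swap y z) q)) + q =
      (relabel (Equiv.swap y z) (relabel (Equiv.swap k y) (relabel (Equiv.swap y z) q)) -
        relabel (Equiv.swap y z) q) + (relabel (Equiv.swap y z) q + q) := by abel
  rw [this]
  exact add_mem a4 h2

lemma mem_pl {s : List (ℕ × ℕ)} {k : ℕ} : k ∈ pl s ↔ ∃ p ∈ s, k = p.1 ∨ k = p.2 := by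
  induction s using List.reverseRecOn with
  | nil => simp
  | append_singleton s p ih =>
    rw [pl_append, pl_single, Multiset.mem_add, ih]
    simp only [Multiset.mem_add, Multiset.mem_singleton, List.mem_append, List.mem_singleton]
    constructor
    · rintro (⟨p', h1, h2⟩ | h)
      · exact ⟨p', Or.inl h1, h2⟩
      · exact ⟨p, Or.inr rfl, h⟩
    · rintro ⟨p', h1 | rfl, h2⟩
      · exact Or.inl ⟨p', h1, h2⟩
      · exact Or.inr h2

/-- a relabelling fixes `Al m s` if it fixes `m` and the letters of `s` -/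
lemma relabel_Al_fix (φ : ℕ → ℕ) {m : NAPoly F} {s : List (ℕ × ℕ)} (hm : relabel φ m = m)
    (hs : ∀ k ∈ pl s, φ k = k) : relabel φ (Al m s) = Al m s := by
  rw [relabel_Al, hm]
  congr 1
  conv_rhs => rw [← List.map_id s]
  apply List.map_congr_left
  intro p hp
  have h1 := hs p.1 (mem_pl.2 ⟨p, hp, Or.inl rfl⟩)
  have h2 := hs p.2 (mem_pl.2 ⟨p, hp, Or.inr rfl⟩)
  show (φ p.1, φ p.2) = p
  rw [h1, h2]

lemma nodup_pl_append {s : List (ℕ × ℕ)} {p : ℕ × ℕ} (h : (pl (s ++ [p])).Nodup) :
    (pl s).Nodup ∧ p.1 ∉ pl s ∧ p.2 ∉ pl s ∧ p.1 ≠ p.2 := by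
  rw [pl_append, pl_single, Multiset.nodup_add] at h
  obtain ⟨h1, h2, h3⟩ := h
  refine ⟨h1, ?_, ?_, ?_⟩
  · intro h
    exact (Multiset.disjoint_left.1 h3) h (by simp)
  · intro h
    exact (Multiset.disjoint_left.1 h3) h (by simp)
  · intro h
    rw [Multiset.nodup_add] at h2
    exact (Multiset.disjoint_left.1 h2.2.2) (Multiset.mem_singleton_self _)
      (by rw [h]; exact Multiset.mem_singleton_self _)

/-- the iterated associator is skew-symmetric in its letters -/
lemma Al_skew [CharZero F] (hC : IsAlt C) {r : ℕ} {m : NAPoly F} (hm : m ∈ W F C r)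
    (s : List (ℕ × ℕ)) (hfix : ∀ k ∈ pl s, ∀ l ∈ pl s, relabel (Equiv.swap k l) m = m)
    (hnd : (pl s).Nodup) : ∀ k ∈ pl s, ∀ l ∈ pl s, Sk2 C (r + 1) (Al m s) k l := by
  induction s using List.reverseRecOn with
  | nil => intro k hk; simp at hk
  | append_singleton s p ih =>
    obtain ⟨hnd', hp1, hp2, hp12⟩ := nodup_pl_append hnd
    have hsub : ∀ k ∈ pl s, k ∈ pl (s ++ [p]) := by
      intro k hk
      rw [pl_append, Multiset.mem_add]
      exact Or.inl hk
    have hq1 : p.1 ∈ pl (s ++ [p]) := by rw [pl_append, pl_single]; simp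
    have hq2 : p.2 ∈ pl (s ++ [p]) := by rw [pl_append, pl_single]; simp
    have hA : ∀ k ∈ pl s, ∀ l ∈ pl s, Sk2 C (r + 1) (Al m (s ++ [p])) k l := by
      intro k hk l hl
      rcases ih (fun a ha b hb => hfix a (hsub a ha) b (hsub b hb)) hnd' k hk l hl with h | h
      · exact Or.inl h
      · right
        have e1 : Equiv.swap k l p.1 = p.1 := Equiv.swap_apply_of_ne_of_ne
          (fun h => hp1 (h ▸ hk)) (fun h => hp1 (h ▸ hl))
        have e2 : Equiv.swap k l p.2 = p.2 := Equiv.swap_apply_of_ne_of_ne
          (fun h => hp2 (h ▸ hk)) (fun h => hp2 (h ▸ hl))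
        rw [Al_append, relabel_asc, relabel_X, relabel_X, e1, e2, ← asc_add]
        exact asc_W h _ _
    have hB : Sk2 C (r + 1) (Al m (s ++ [p])) p.1 p.2 := by
      right
      have hf : relabel (Equiv.swap p.1 p.2) (Al m s) = Al m s := by
        refine relabel_Al_fix _ (hfix _ hq1 _ hq2) ?_
        intro k hk
        exact Equiv.swap_apply_of_ne_of_ne (fun h => hp1 (h ▸ hk)) (fun h => hp2 (h ▸ hk))
      rw [Al_append, relabel_asc, relabel_X, relabel_X, Equiv.swap_apply_left,
        Equiv.swap_apply_right, hf]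
      exact T_le_W (T4 hC _ _ _)
    have hall : ∀ k ∈ pl (s ++ [p]), Sk2 C (r + 1) (Al m (s ++ [p])) k p.2 := by
      intro k hk
      rw [pl_append, Multiset.mem_add, pl_single, Multiset.mem_add, Multiset.mem_singleton,
        Multiset.mem_singleton] at hk
      rcases hk with hk | rfl | rfl
      · rcases List.eq_nil_or_concat s with hs | ⟨s', p', hs⟩
        · rw [hs] at hk
          simp at hk
        · rw [List.concat_eq_append] at hs
          have hp' : p'.2 ∈ pl s := by rw [hs, pl_append, pl_single]; simp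
          refine Sk2_trans (hA k hk p'.2 hp') (Or.inr ?_)
          obtain ⟨_, hp1', hp2', hp12'⟩ := nodup_pl_append (hs ▸ hnd')
          have hf : relabel (Equiv.swap p'.2 p.2) (Al m s') = Al m s' := by
            refine relabel_Al_fix _ (hfix _ (hsub _ hp') _ hq2) ?_
            intro k hk
            refine Equiv.swap_apply_of_ne_of_ne (fun h => hp2' (h ▸ hk)) (fun h => hp2 ?_)
            rw [← h, hs, pl_append, Multiset.mem_add]
            exact Or.inl hk
          have e1 : Equiv.swap p'.2 p.2 p'.1 = p'.1 := by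
            refine Equiv.swap_apply_of_ne_of_ne hp12' (fun h => hp2 ?_)
            rw [← h, hs, pl_append, pl_single]
            simp
          have e2 : Equiv.swap p'.2 p.2 p.1 = p.1 := by
            refine Equiv.swap_apply_of_ne_of_ne (fun h => hp1 ?_) hp12
            rw [h]
            exact hp'
          rw [Al_append, hs, Al_append, relabel_asc, relabel_asc, hf, relabel_X, relabel_X,
            relabel_X, relabel_X, e1, e2, Equiv.swap_apply_left, Equiv.swap_apply_right]
          have h1 := K6' hC (Al_W hm s') (X F p'.1) (X F p.2) (X F p'.2) (X F p.1)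
          have h2 := T4 hC (asc (X F p'.1) (Al m s') (X F p.2)) (X F p.1) (X F p'.2)
          have h3 := T4 hC (asc (X F p'.1) (Al m s') (X F p'.2)) (X F p.1) (X F p.2)
          have e : asc (X F p.1) (asc (X F p'.1) (Al m s') (X F p.2)) (X F p'.2) +
              asc (X F p.1) (asc (X F p'.1) (Al m s') (X F p'.2)) (X F p.2) =
              (asc (X F p.1) (asc (X F p'.1) (Al m s') (X F p.2)) (X F p'.2) +
                asc (X F p'.2) (asc (X F p'.1) (Al m s') (X F p.2)) (X F p.1)) +
              (asc (X F p.1) (asc (X F p'.1) (Al m s') (X F p'.2)) (X F p.2) +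
                asc (X F p.2) (asc (X F p'.1) (Al m s') (X F p'.2)) (X F p.1)) -
              (asc (X F p.2) (asc (X F p'.1) (Al m s') (X F p'.2)) (X F p.1) +
                asc (X F p'.2) (asc (X F p'.1) (Al m s') (X F p.2)) (X F p.1)) := by abel
          rw [e]
          exact sub_mem (add_mem (T_le_W h2) (T_le_W h3)) h1
      · exact hB
      · exact Or.inl rfl
    intro k hk l hl
    exact Sk2_trans (hall k hk) (Sk2_symm (hall l hl))

/-! ### block structures -/

lemma mR_sub_smul (c : F) (m m' : NAPoly F) (u : Option (FreeMagma ℕ)) :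
    mR (m - c • m') u = mR m u - c • mR m' u := by
  cases u with
  | none => rfl
  | some u => simp only [mR, sub_mul, smul_mul_assoc]

lemma mL_sub_smul (c : F) (m m' : NAPoly F) (u : Option (FreeMagma ℕ)) :
    mL (m - c • m') u = mL m u - c • mL m' u := by
  cases u with
  | none => rfl
  | some u => simp only [mL, mul_sub, mul_smul_comm]

lemma f2_sub_smul (c : F) (m m' : NAPoly F) (u v : Option (FreeMagma ℕ)) :
    f2 (m - c • m') u v = f2 m u v - c • f2 m' u v := by
  rw [f2, mR_sub_smul, mL_sub_smul]
  rfl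

/-- relabelling of an optional word -/
lemma relabel_mR (φ : ℕ → ℕ) (m : NAPoly F) (u : Option (FreeMagma ℕ)) :
    ∃ u', ol u' = (ol u).map φ ∧ relabel φ (mR m u) = mR (relabel φ m) u' ∧
      relabel φ (mL m u) = mL (relabel φ m) u' := by
  cases u with
  | none => exact ⟨none, rfl, rfl, rfl⟩
  | some u =>
    obtain ⟨u', h1, h2⟩ := relabel_word_exists (F := F) φ u
    exact ⟨some u', h1, by simp only [mR, map_mul, h2], by simp only [mL, map_mul, h2]⟩

lemma mR_congr {r : ℕ} {m : NAPoly F} (hm : m ∈ W F C r) {u u' : Option (FreeMagma ℕ)}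
    (h : ol u = ol u') : mR m u - mR m u' ∈ W F C (r + 1) := by
  have hpos : ∀ w : FreeMagma ℕ, letters w ≠ 0 := fun w hw => by
    have := letters_card_pos w
    rw [hw, Multiset.card_zero] at this
    omega
  cases u with
  | none =>
    cases u' with
    | none => simp only [mR, sub_self]; exact zero_mem _
    | some u' => exact absurd h.symm (hpos u')
  | some u =>
    cases u' with
    | none => exact absurd h (hpos u)
    | some u' =>
      simp only [mR]
      rw [← mul_sub]
      exact m_mul hm (word_congr _ u u' rfl h)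

lemma mL_congr {r : ℕ} {m : NAPoly F} (hm : m ∈ W F C r) {u u' : Option (FreeMagma ℕ)}
    (h : ol u = ol u') : mL m u - mL m u' ∈ W F C (r + 1) := by
  have hpos : ∀ w : FreeMagma ℕ, letters w ≠ 0 := fun w hw => by
    have := letters_card_pos w
    rw [hw, Multiset.card_zero] at this
    omega
  cases u with
  | none =>
    cases u' with
    | none => simp only [mL, sub_self]; exact zero_mem _
    | some u' => exact absurd h.symm (hpos u')
  | some u =>
    cases u' with
    | none => exact absurd h (hpos u)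
    | some u' =>
      simp only [mL]
      rw [← sub_mul]
      exact mul_m hm (word_congr _ u u' rfl h)

/-- relabelling of a normal form by a transposition that preserves the two outer words up to
the order of the letters -/
lemma relabel_f2 {r : ℕ} (φ : ℕ → ℕ) {n : NAPoly F} (hn : n ∈ W F C r)
    {u v : Option (FreeMagma ℕ)} (hu : (ol u).map φ = ol u) (hv : (ol v).map φ = ol v) :
    relabel φ (f2 n u v) - f2 (relabel φ n) u v ∈ W F C (r + 1) := by
  obtain ⟨u', h1, h2, _⟩ := relabel_mR (F := F) φ n u
  obtain ⟨v', h3, _, h4⟩ := relabel_mR (F := F) φ (mR n u) v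
  have hn' := W_relabel (C := C) φ hn
  have e1 : relabel φ (f2 n u v) = mL (mR (relabel φ n) u') v' := by rw [f2, h4, h2]
  have g1 := mL_congr (C := C) (mR_W hn' u') (h3.trans hv)
  have g2 := mR_congr (C := C) hn' (h1.trans hu)
  have g3 := mL_W g2 v
  have e2 : mL (mR (relabel φ n) u' - mR (relabel φ n) u) v =
      mL (mR (relabel φ n) u') v - mL (mR (relabel φ n) u) v := by
    have := mL_sub_smul (1 : F) (mR (relabel φ n) u') (mR (relabel φ n) u) v
    rwa [one_smul, one_smul] at this
  rw [e2] at g3
  rw [e1, f2]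
  have e : mL (mR (relabel φ n) u') v' - mL (mR (relabel φ n) u) v =
      (mL (mR (relabel φ n) u') v' - mL (mR (relabel φ n) u') v) +
      (mL (mR (relabel φ n) u') v - mL (mR (relabel φ n) u) v) := by abel
  rw [e]
  exact add_mem g1 g3

end Pool.Agent.SRAlt
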