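import Pool.Agent.SRAlt.CI3

set_option autoImplicit false

open scoped TensorProduct

namespace Pool.Agent.SRAlt

open Pool.Agent.Superrank

variable {F : Type} [Field F]

variable {C : Type} [NonUnitalNonAssocRing C] [Module F C] [IsScalarTower F C C]
  [SMulCommClass F C C]

lemma relabel_Al_letters (φ : ℕ → ℕ) (m : NAPoly F) {s : List (ℕ × ℕ)}
    (hs : ∀ k ∈ pl s, φ k = k) : relabel φ (Al m s) = Al (relabel φ m) s := by
  rw [relabel_Al]
  congr 1
  conv_rhs => rw [← List.map_id s]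
  apply List.map_congr_left
  intro p hp
  have h1 := hs p.1 (mem_pl.2 ⟨p, hp, Or.inl rfl⟩)
  have h2 := hs p.2 (mem_pl.2 ⟨p, hp, Or.inr rfl⟩)
  show (φ p.1, φ p.2) = p
  rw [h1, h2]

lemma mR_H {μ : Multiset ℕ} {m : NAPoly F} (hm : m ∈ H F μ) (u : Option (FreeMagma ℕ)) :
    mR m u ∈ H F (μ + ol u) := by
  cases u with
  | none => simpa [mR, ol] using hm
  | some u => exact H_mul hm (word_mem_H u)

lemma mL_H {μ : Multiset ℕ} {m : NAPoly F} (hm : m ∈ H F μ) (u : Option (FreeMagma ℕ)) :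
    mL m u ∈ H F (μ + ol u) := by
  cases u with
  | none => simpa [mL, ol] using hm
  | some u =>
    rw [add_comm]
    exact H_mul (word_mem_H u) hm

lemma Al_H {μ : Multiset ℕ} {m : NAPoly F} (hm : m ∈ H F μ) (s : List (ℕ × ℕ)) :
    Al m s ∈ H F (μ + pl s) := by
  induction s using List.reverseRecOn with
  | nil => simpa using hm
  | append_singleton s p ih =>
    rw [Al_append, pl_append, pl_single, asc]
    have hX : ∀ a, X F a ∈ H F {a} := fun a => word_mem_H (.of a)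
    have h1 := H_mul (H_mul (hX p.1) ih) (hX p.2)
    have h2 := H_mul (hX p.1) (H_mul ih (hX p.2))
    rw [show ({p.1} + (μ + pl s) + {p.2} : Multiset ℕ) = μ + (pl s + ({p.1} + {p.2})) by abel]
      at h1
    rw [show ({p.1} + (μ + pl s + {p.2}) : Multiset ℕ) = μ + (pl s + ({p.1} + {p.2})) by abel]
      at h2
    exact sub_mem h1 h2

variable (C) in
/-- block structures: symmetric or skew-symmetric in every block modulo `W (r + 1)` -/
def BS2 (r κ : ℕ) (μ : Multiset ℕ) (q : NAPoly F) : Prop :=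
  q ∈ H F μ ∧ q ∈ W F C r ∧ ∃ (b : ℕ → ℕ) (t : ℕ → Bool), (∀ k ∈ μ, b k < κ) ∧
    ∀ k ∈ μ, ∀ l ∈ μ, k ≠ l → b k = b l →
      relabel (Equiv.swap k l) q - sg F (t (b k)) • q ∈ W F C (r + 1)

variable (C) in
/-- normal forms -/
def NF2 (r κ : ℕ) (μ : Multiset ℕ) (q : NAPoly F) : Prop :=
  ∃ (μ0 : Multiset ℕ) (n : NAPoly F) (u v : Option (FreeMagma ℕ)) (s : List (ℕ × ℕ)),
    BS2 C r κ μ0 n ∧ μ = μ0 + (ol u + ol v + pl s) ∧ q = Al (f2 n u v) s

lemma NF2_H {r κ : ℕ} {μ : Multiset ℕ} {q : NAPoly F} (h : NF2 C r κ μ q) : q ∈ H F μ := by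
  obtain ⟨μ0, n, u, v, s, hn, rfl, rfl⟩ := h
  rw [← add_assoc, ← add_assoc]
  exact Al_H (mL_H (mR_H hn.1 u) v) s

lemma NF2_W {r κ : ℕ} {μ : Multiset ℕ} {q : NAPoly F} (h : NF2 C r κ μ q) : q ∈ W F C r := by
  obtain ⟨μ0, n, u, v, s, hn, rfl, rfl⟩ := h
  exact Al_W (f2_W hn.2.1 u v) s

lemma NF2_of_BS2 {r κ : ℕ} {μ : Multiset ℕ} {q : NAPoly F} (h : BS2 C r κ μ q) :
    NF2 C r κ μ q := ⟨μ, q, none, none, [], h, by simp [ol], rfl⟩

/-- a relabelling that permutes the letters of the outer words and fixes the letters of the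
associators -/
lemma relabel_NF {r : ℕ} (φ : ℕ → ℕ) {n : NAPoly F} (hn : n ∈ W F C r)
    {u v : Option (FreeMagma ℕ)} {s : List (ℕ × ℕ)} (hu : (ol u).map φ = ol u)
    (hv : (ol v).map φ = ol v) (hs : ∀ k ∈ pl s, φ k = k) (c : F)
    (hc : relabel φ n - c • n ∈ W F C (r + 1)) :
    relabel φ (Al (f2 n u v) s) - c • Al (f2 n u v) s ∈ W F C (r + 1) := by
  rw [relabel_Al_letters φ _ hs, ← Al_smul, ← Al_sub]
  apply Al_W
  have h1 := relabel_f2 φ hn hu hv
  have h2 := f2_W hc u v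
  rw [f2_sub_smul] at h2
  have e : relabel φ (f2 n u v) - c • f2 n u v =
      (relabel φ (f2 n u v) - f2 (relabel φ n) u v) + (f2 (relabel φ n) u v - c • f2 n u v) := by
    abel
  rw [e]
  exact add_mem h1 h2

lemma map_eq_of_fix {μ : Multiset ℕ} {φ : ℕ → ℕ} (h : ∀ k ∈ μ, φ k = k) : μ.map φ = μ := by
  conv_rhs => rw [← Multiset.map_id μ]
  exact Multiset.map_congr rfl h

lemma BS2_of_NF2 [CharZero F] (hC : IsAlt C) {r κ : ℕ} {μ : Multiset ℕ} (hμ : μ.Nodup)
    {q : NAPoly F} (h : NF2 C r κ μ q) : BS2 C r (κ + 3) μ q := by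
  refine ⟨NF2_H h, NF2_W h, ?_⟩
  obtain ⟨μ0, n, u, v, s, ⟨hn0, hn, b, t, hb, hsk⟩, rfl, rfl⟩ := h
  rw [Multiset.nodup_add, Multiset.nodup_add, Multiset.nodup_add] at hμ
  obtain ⟨hnd0, ⟨⟨hndu, hndv, hduv⟩, hnds, hdw⟩, hd0⟩ := hμ
  have d0 : ∀ k ∈ μ0, k ∉ ol u ∧ k ∉ ol v ∧ k ∉ pl s := by
    intro k hk
    refine ⟨fun h => ?_, fun h => ?_, fun h => ?_⟩
    · exact Multiset.disjoint_left.1 hd0 hk (by simp [h])
    · exact Multiset.disjoint_left.1 hd0 hk (by simp [h])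
    · exact Multiset.disjoint_left.1 hd0 hk (by simp [h])
  have du : ∀ k ∈ ol u, k ∉ μ0 ∧ k ∉ ol v ∧ k ∉ pl s := by
    intro k hk
    refine ⟨fun h => (d0 k h).1 hk, fun h => Multiset.disjoint_left.1 hduv hk h, fun h => ?_⟩
    exact Multiset.disjoint_left.1 hdw (by simp [hk]) h
  have dv : ∀ k ∈ ol v, k ∉ μ0 ∧ k ∉ ol u ∧ k ∉ pl s := by
    intro k hk
    refine ⟨fun h => (d0 k h).2.1 hk, fun h => (du k h).2.1 hk, fun h => ?_⟩
    exact Multiset.disjoint_left.1 hdw (by simp [hk]) h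
  have ds : ∀ k ∈ pl s, k ∉ μ0 ∧ k ∉ ol u ∧ k ∉ ol v := fun k hk =>
    ⟨fun h => (d0 k h).2.2 hk, fun h => (du k h).2.2 hk, fun h => (dv k h).2.2 hk⟩
  have sw : ∀ {k l j : ℕ} {ν : Multiset ℕ}, j ∈ ν → k ∉ ν → l ∉ ν → Equiv.swap k l j = j := by
    intro k l j ν hj hk hl
    exact Equiv.swap_apply_of_ne_of_ne (fun h => hk (h ▸ hj)) (fun h => hl (h ▸ hj))
  -- the block function
  have hbv : ∀ k ∈ μ0 + (ol u + ol v + pl s),
      (k ∈ pl s ∧ (if k ∈ pl s then κ + 2 else if k ∈ ol v then κ + 1 else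
        if k ∈ ol u then κ else b k) = κ + 2) ∨
      (k ∈ ol v ∧ (if k ∈ pl s then κ + 2 else if k ∈ ol v then κ + 1 else
        if k ∈ ol u then κ else b k) = κ + 1) ∨
      (k ∈ ol u ∧ (if k ∈ pl s then κ + 2 else if k ∈ ol v then κ + 1 else
        if k ∈ ol u then κ else b k) = κ) ∨
      (k ∈ μ0 ∧ (if k ∈ pl s then κ + 2 else if k ∈ ol v then κ + 1 else
        if k ∈ ol u then κ else b k) = b k ∧ b k < κ) := by
    intro k hk
    rw [Multiset.mem_add, Multiset.mem_add, Multiset.mem_add] at hk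
    rcases hk with hk | (hk | hk) | hk
    · right; right; right
      obtain ⟨h1, h2, h3⟩ := d0 k hk
      exact ⟨hk, by rw [if_neg h3, if_neg h2, if_neg h1], hb k hk⟩
    · right; right; left
      obtain ⟨h1, h2, h3⟩ := du k hk
      exact ⟨hk, by rw [if_neg h3, if_neg h2, if_pos hk]⟩
    · right; left
      obtain ⟨h1, h2, h3⟩ := dv k hk
      exact ⟨hk, by rw [if_neg h3, if_pos hk]⟩
    · left
      exact ⟨hk, by rw [if_pos hk]⟩
  refine ⟨fun k => if k ∈ pl s then κ + 2 else if k ∈ ol v then κ + 1 else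
    if k ∈ ol u then κ else b k, fun i => if i = κ + 2 then true else if i < κ then t i else false,
    ?_, ?_⟩
  · intro k hk
    dsimp only
    rcases hbv k hk with h | h | h | h <;> omega
  · intro k hk l hl hkl hbl
    dsimp only at hbl ⊢
    rcases hbv k hk with ⟨hk', ek⟩ | ⟨hk', ek⟩ | ⟨hk', ek⟩ | ⟨hk', ek, ek'⟩
    · have hl' : l ∈ pl s := by
        rcases hbv l hl with ⟨hl', _⟩ | ⟨_, el⟩ | ⟨_, el⟩ | ⟨_, el, el'⟩
        · exact hl'
        all_goals omega
      rw [ek, if_pos rfl]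
      have hfix : ∀ a ∈ pl s, ∀ c ∈ pl s, relabel (Equiv.swap a c) (f2 n u v) = f2 n u v := by
        intro a ha c hc
        refine relabel_fix _ (mL_H (mR_H hn0 u) v) ?_
        intro j hj
        refine sw hj ?_ ?_
        · intro h
          rw [Multiset.mem_add, Multiset.mem_add] at h
          obtain ⟨h1, h2, h3⟩ := ds a ha
          tauto
        · intro h
          rw [Multiset.mem_add, Multiset.mem_add] at h
          obtain ⟨h1, h2, h3⟩ := ds c hc
          tauto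
      have := Al_skew hC (f2_W hn u v) s hfix hnds k hk' l hl'
      have h3 := this.resolve_left hkl
      simpa [sg] using h3
    · have hl' : l ∈ ol v := by
        rcases hbv l hl with ⟨_, el⟩ | ⟨hl', _⟩ | ⟨_, el⟩ | ⟨_, el, el'⟩
        · omega
        · exact hl'
        all_goals omega
      obtain ⟨k1, k2, k3⟩ := dv k hk'
      obtain ⟨l1, l2, l3⟩ := dv l hl'
      rw [ek, if_neg (by omega), if_neg (by omega)]
      refine relabel_NF _ hn (map_eq_of_fix fun j hj => sw hj k2 l2)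
        (map_swap_eq hndv hk' hl') (fun j hj => sw hj k3 l3) _ ?_
      rw [relabel_fix _ hn0 (fun j hj => sw hj k1 l1)]
      simp only [sg, Bool.false_eq_true, if_false, one_smul, sub_self]
      exact zero_mem _
    · have hl' : l ∈ ol u := by
        rcases hbv l hl with ⟨_, el⟩ | ⟨_, el⟩ | ⟨hl', _⟩ | ⟨_, el, el'⟩
        · omega
        · omega
        · exact hl'
        · omega
      obtain ⟨k1, k2, k3⟩ := du k hk'
      obtain ⟨l1, l2, l3⟩ := du l hl'
      rw [ek, if_neg (by omega), if_neg (by omega)]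
      refine relabel_NF _ hn (map_swap_eq hndu hk' hl') (map_eq_of_fix fun j hj => sw hj k2 l2)
        (fun j hj => sw hj k3 l3) _ ?_
      rw [relabel_fix _ hn0 (fun j hj => sw hj k1 l1)]
      simp only [sg, Bool.false_eq_true, if_false, one_smul, sub_self]
      exact zero_mem _
    · have hl' : l ∈ μ0 ∧ b k = b l := by
        rcases hbv l hl with ⟨_, el⟩ | ⟨_, el⟩ | ⟨_, el⟩ | ⟨hl', el, el'⟩
        · omega
        · omega
        · omega
        · exact ⟨hl', by omega⟩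
      obtain ⟨k1, k2, k3⟩ := d0 k hk'
      obtain ⟨l1, l2, l3⟩ := d0 l hl'.1
      rw [ek, if_neg (by omega), if_pos ek']
      exact relabel_NF _ hn (map_eq_of_fix fun j hj => sw hj k1 l1)
        (map_eq_of_fix fun j hj => sw hj k2 l2) (fun j hj => sw hj k3 l3) _
        (hsk k hk' l hl'.1 hkl hl'.2)

lemma BS2_mul {r1 r2 κ1 κ2 : ℕ} {μ1 μ2 : Multiset ℕ} (hμ : (μ1 + μ2).Nodup)
    {q1 q2 : NAPoly F} (h1 : BS2 C r1 κ1 μ1 q1) (h2 : BS2 C r2 κ2 μ2 q2) :
    BS2 C (r1 + r2) (κ1 + κ2) (μ1 + μ2) (q1 * q2) := by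
  obtain ⟨m1, w1, b1, t1, c1, d1⟩ := h1
  obtain ⟨m2, w2, b2, t2, c2, d2⟩ := h2
  have hdis : ∀ k, k ∈ μ1 → k ∉ μ2 := by
    intro k hk hk2
    exact (Multiset.disjoint_left.1 (Multiset.nodup_add.1 hμ).2.2) hk hk2
  refine ⟨H_mul m1 m2, W_mul w1 w2, fun k => if k ∈ μ1 then b1 k else κ1 + b2 k,
    fun i => if i < κ1 then t1 i else t2 (i - κ1), ?_, ?_⟩
  · intro k hk
    show (if k ∈ μ1 then b1 k else κ1 + b2 k) < κ1 + κ2
    rw [Multiset.mem_add] at hk
    split_ifs with h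
    · have := c1 k h
      omega
    · have := c2 k (hk.resolve_left h)
      omega
  · intro k hk l hl hkl hb
    rw [Multiset.mem_add] at hk hl
    dsimp only at hb ⊢
    by_cases hk1 : k ∈ μ1
    · by_cases hl1 : l ∈ μ1
      · rw [if_pos hk1, if_pos hl1] at hb
        have h3 := d1 k hk1 l hl1 hkl hb
        have hfix : relabel (Equiv.swap k l) q2 = q2 := by
          apply relabel_fix _ m2
          intro j hj
          exact Equiv.swap_apply_of_ne_of_ne (fun h => hdis k hk1 (h ▸ hj))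
            (fun h => hdis l hl1 (h ▸ hj))
        rw [if_pos hk1, if_pos (c1 k hk1), map_mul, hfix, ← smul_mul_assoc, ← sub_mul]
        have := W_mul h3 w2
        rwa [show r1 + 1 + r2 = r1 + r2 + 1 by omega] at this
      · rw [if_pos hk1, if_neg hl1] at hb
        have := c1 k hk1
        omega
    · by_cases hl1 : l ∈ μ1
      · rw [if_neg hk1, if_pos hl1] at hb
        have := c1 l hl1
        omega
      · rw [if_neg hk1, if_neg hl1] at hb
        have hk2 := hk.resolve_left hk1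
        have hl2 := hl.resolve_left hl1
        have h3 := d2 k hk2 l hl2 hkl (by omega)
        have hfix : relabel (Equiv.swap k l) q1 = q1 := by
          apply relabel_fix _ m1
          intro j hj
          exact Equiv.swap_apply_of_ne_of_ne (fun h => hk1 (h ▸ hj)) (fun h => hl1 (h ▸ hj))
        rw [if_neg hk1, if_neg (by omega), Nat.add_sub_cancel_left, map_mul, hfix,
          ← mul_smul_comm, ← mul_sub]
        have := W_mul w1 h3
        rwa [← add_assoc] at this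

variable (F C) in
/-- the span of the normal forms modulo `W (r + 1)` -/
noncomputable def NS2 (r κ : ℕ) (μ : Multiset ℕ) : Submodule F (NAPoly F) :=
  Submodule.span F {q | NF2 C r κ μ q} ⊔ W F C (r + 1)

lemma NF2_le_NS2 {r κ : ℕ} {μ : Multiset ℕ} {q : NAPoly F} (h : NF2 C r κ μ q) :
    q ∈ NS2 F C r κ μ :=
  Submodule.mem_sup_left (Submodule.subset_span h)

lemma W_le_NS2 {r κ : ℕ} {μ : Multiset ℕ} {q : NAPoly F} (h : q ∈ W F C (r + 1)) :
    q ∈ NS2 F C r κ μ := Submodule.mem_sup_right h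

lemma NS2_induction {r κ : ℕ} {μ : Multiset ℕ} {P : Submodule F (NAPoly F)}
    {ψ : NAPoly F →ₗ[F] NAPoly F} (h1 : ∀ q, NF2 C r κ μ q → ψ q ∈ P)
    (h2 : ∀ q ∈ W F C (r + 1), ψ q ∈ P) {q : NAPoly F} (hq : q ∈ NS2 F C r κ μ) : ψ q ∈ P := by
  have : NS2 F C r κ μ ≤ P.comap ψ := by
    refine sup_le (Submodule.span_le.2 ?_) fun q hq => h2 q hq
    intro q hq
    exact h1 q hq
  exact this hq

lemma NSn_le_NS2 {r κ t : ℕ} {μ0 ν : Multiset ℕ} {n q : NAPoly F} (hn : BS2 C r κ μ0 n)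
    (hq : q ∈ NSn F C r n t ν) : q ∈ NS2 F C r κ (μ0 + ν) := by
  refine NSn_induction (P := NS2 F C r κ (μ0 + ν)) (ψ := LinearMap.id) ?_ ?_ hq
  · intro u v s _ h2
    exact NF2_le_NS2 ⟨μ0, n, u, v, s, hn, by rw [h2], rfl⟩
  · intro q hq
    exact W_le_NS2 hq

lemma NS2_mul_word [CharZero F] (hC : IsAlt C) {r κ : ℕ} {μ : Multiset ℕ} {q : NAPoly F}
    (hq : q ∈ NS2 F C r κ μ) (w : FreeMagma ℕ) :
    q * word F w ∈ NS2 F C r κ (μ + letters w) ∧
      word F w * q ∈ NS2 F C r κ (μ + letters w) := by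
  have key : ∀ q, NF2 C r κ μ q → q * word F w ∈ NS2 F C r κ (μ + letters w) ∧
      word F w * q ∈ NS2 F C r κ (μ + letters w) := by
    rintro q ⟨μ0, n, u, v, s, hn, rfl, rfl⟩
    have h1 := NSn_mul_word hC hn.2.1 (stSa hC hn.2.1 _) w le_rfl
      (mem_NSn (F := F) (C := C) (r := r) (n := n) u v s le_rfl)
    rw [add_assoc]
    exact ⟨NSn_le_NS2 hn h1.1, NSn_le_NS2 hn h1.2⟩
  constructor
  · exact NS2_induction (P := NS2 F C r κ (μ + letters w))
      (ψ := LinearMap.mulRight F (word F w)) (fun q h => (key q h).1)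
      (fun q h => W_le_NS2 (W_mul_right h _)) hq
  · exact NS2_induction (P := NS2 F C r κ (μ + letters w))
      (ψ := LinearMap.mulLeft F (word F w)) (fun q h => (key q h).2)
      (fun q h => W_le_NS2 (W_mul_left _ h)) hq

lemma NS2_mul [CharZero F] (hC : IsAlt C) {r1 r2 κ1 κ2 : ℕ} {μ1 μ2 : Multiset ℕ}
    (hμ : (μ1 + μ2).Nodup) {p q : NAPoly F} (hp : p ∈ NS2 F C r1 κ1 μ1)
    (hq : q ∈ NS2 F C r2 κ2 μ2) :
    p * q ∈ NS2 F C (r1 + r2) ((κ1 + 3) + (κ2 + 3)) (μ1 + μ2) := by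
  have hq' : q ∈ W F C r2 := by
    refine NS2_induction (P := W F C r2) (ψ := LinearMap.id) (fun q h => NF2_W h)
      (fun q h => W_anti (Nat.le_succ _) h) hq
  refine NS2_induction (P := NS2 F C (r1 + r2) ((κ1 + 3) + (κ2 + 3)) (μ1 + μ2))
    (ψ := LinearMap.mulRight F q) ?_ ?_ hp
  · intro p hp
    refine NS2_induction (P := NS2 F C (r1 + r2) ((κ1 + 3) + (κ2 + 3)) (μ1 + μ2))
      (ψ := LinearMap.mulLeft F p) ?_ ?_ hq
    · intro q hq
      exact NF2_le_NS2 (NF2_of_BS2 (BS2_mul hμ (BS2_of_NF2 hC (Multiset.nodup_add.1 hμ).1 hp)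
        (BS2_of_NF2 hC (Multiset.nodup_add.1 hμ).2.1 hq)))
    · intro q hq
      have := W_mul (NF2_W hp) hq
      rw [← add_assoc] at this
      exact W_le_NS2 this
  · intro p hp
    have := W_mul hp hq'
    rw [show r1 + 1 + r2 = r1 + r2 + 1 by omega] at this
    exact W_le_NS2 this

end Pool.Agent.SRAlt
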