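import Pool.Agent.SRAlt.CI4

set_option autoImplicit false

open scoped TensorProduct

namespace Pool.Agent.SRAlt

open Pool.Agent.Superrank

variable {F : Type} [Field F]

variable {C : Type} [NonUnitalNonAssocRing C] [Module F C] [IsScalarTower F C C]
  [SMulCommClass F C C]

/-- the associator -/
noncomputable def as3 (a b c : NAPoly F) : NAPoly F := (a * b) * c - a * (b * c)

/-- the commutator -/
noncomputable def cm (a b : NAPoly F) : NAPoly F := a * b - b * a

lemma blocks3 (x y z : ℕ) (k l : ℕ) (hk : k = x ∨ k = y ∨ k = z) (hl : l = x ∨ l = y ∨ l = z)
    (hkl : k ≠ l) (h : (if k = x then 0 else if k = y then 1 else 2 : ℕ) =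
      if l = x then 0 else if l = y then 1 else 2) : False := by
  by_cases h1 : k = x
  · rw [if_pos h1] at h
    by_cases h2 : l = x
    · exact hkl (h1.trans h2.symm)
    · rw [if_neg h2] at h
      split_ifs at h
  · rw [if_neg h1] at h
    by_cases h2 : k = y
    · rw [if_pos h2] at h
      by_cases h3 : l = x
      · rw [if_pos h3] at h
        omega
      · rw [if_neg h3] at h
        by_cases h4 : l = y
        · exact hkl (h2.trans h4.symm)
        · rw [if_neg h4] at h
          omega
    · rw [if_neg h2] at h
      have hkz : k = z := by tauto
      by_cases h3 : l = x
      · rw [if_pos h3] at h
        omega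
      · rw [if_neg h3] at h
        by_cases h4 : l = y
        · rw [if_pos h4] at h
          omega
        · have hlz : l = z := by tauto
          exact hkl (hkz.trans hlz.symm)

lemma base_as (x y z : ℕ) : as3 (X F x) (X F y) (X F z) ∈ NS2 F C 1 3 ({x} + {y} + {z}) := by
  have hD : Dfn F 1 ({x} + {y} + {z}) (as3 (X F x) (X F y) (X F z)) :=
    Dfn.assoc (.of x) (.of y) (.of z)
  refine NF2_le_NS2 (NF2_of_BS2 ⟨Dfn_H hD, JJ_le_W (Dfn_JJ hD),
    fun k => if k = x then 0 else if k = y then 1 else 2, fun _ => false, ?_, ?_⟩)
  · intro k _
    dsimp only
    split_ifs <;> omega
  · intro k hk l hl hkl hb
    simp only [Multiset.mem_add, Multiset.mem_singleton] at hk hl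
    exact absurd (blocks3 x y z k l (by tauto) (by tauto) hkl hb) id

lemma base_cm (x y : ℕ) : cm (X F x) (X F y) ∈ NS2 F C 1 3 ({x} + {y}) := by
  have hD : Dfn F 1 ({x} + {y}) (cm (X F x) (X F y)) := Dfn.comm (.of x) (.of y)
  refine NF2_le_NS2 (NF2_of_BS2 ⟨Dfn_H hD, JJ_le_W (Dfn_JJ hD),
    fun k => if k = x then 0 else if k = y then 1 else 2, fun _ => false, ?_, ?_⟩)
  · intro k _
    dsimp only
    split_ifs <;> omega
  · intro k hk l hl hkl hb
    simp only [Multiset.mem_add, Multiset.mem_singleton] at hk hl
    exact absurd (blocks3 x y y k l (by tauto) (by tauto) hkl hb) id

section base

variable [CharZero F] (hC : IsAlt C)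

/-- the statement of the induction -/
def StB (F : Type) [Field F] (C : Type) [NonUnitalNonAssocRing C] [Module F C]
    [IsScalarTower F C C] [SMulCommClass F C C] (D : ℕ) : Prop :=
  (∀ u v w, (letters u).card + (letters v).card + (letters w).card ≤ D →
    as3 (word F u) (word F v) (word F w) ∈
      NS2 F C 1 3 (letters u + letters v + letters w)) ∧
  ∀ u v, (letters u).card + (letters v).card ≤ D →
    cm (word F u) (word F v) ∈ NS2 F C 1 3 (letters u + letters v)

/-- `(a b, c, d)` -/
noncomputable def hh (a b c d : NAPoly F) : NAPoly F := as3 (a * b) c d

include hC in
omit [CharZero F] in
lemma T_cyc (a b c : NAPoly F) : as3 a b c - as3 c a b ∈ idents F C := by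
  have h1 := T_right hC a b c
  have h2 := T_left hC a c b
  have e : as3 a b c - as3 c a b =
      ((a * b) * c - a * (b * c) + ((a * c) * b - a * (c * b))) -
      ((a * c) * b - a * (c * b) + ((c * a) * b - c * (a * b))) := by
    unfold as3
    abel
  rw [e]
  exact sub_mem h1 h2

include hC in
lemma hh_mem {D : ℕ} (ih : StB F C D) (a b c d : FreeMagma ℕ)
    (hD : (letters a).card + (letters b).card + (letters c).card + (letters d).card ≤ D + 1) :
    hh (word F a) (word F b) (word F c) (word F d) ∈
      NS2 F C 1 3 (letters a + letters b + letters c + letters d) := by
  have pa := letters_card_pos a
  have pb := letters_card_pos b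
  have pc := letters_card_pos c
  have pd := letters_card_pos d
  -- first relation
  have R1 : ∀ a b c d : FreeMagma ℕ,
      (letters a).card + (letters b).card + (letters c).card + (letters d).card ≤ D + 1 →
      hh (word F a) (word F b) (word F c) (word F d) -
        hh (word F b) (word F a) (word F c) (word F d) ∈
      NS2 F C 1 3 (letters a + letters b + letters c + letters d) := by
    intro a b c d hD
    have pa := letters_card_pos a
    have pb := letters_card_pos b
    have pc := letters_card_pos c
    have pd := letters_card_pos d
    have h1 := ih.2 a b (by omega)
    have h2 := (NS2_mul_word hC (NS2_mul_word hC h1 c).1 d).1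
    have h3 := (NS2_mul_word hC h1 (c * d)).1
    rw [letters_mul, ← add_assoc, word_mul] at h3
    have e : hh (word F a) (word F b) (word F c) (word F d) -
        hh (word F b) (word F a) (word F c) (word F d) =
        cm (word F a) (word F b) * word F c * word F d -
          cm (word F a) (word F b) * (word F c * word F d) := by
      unfold hh as3 cm
      simp only [sub_mul]
      abel
    rw [e]
    exact sub_mem h2 h3
  have R2 : ∀ a b c d : NAPoly F, hh a b c d + hh a b d c ∈ idents F C := fun a b c d =>
    T_right hC (a * b) c d
  -- the Teichmüller identity
  have R3 : ∀ a b c d : FreeMagma ℕ,
      (letters a).card + (letters b).card + (letters c).card + (letters d).card ≤ D + 1 →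
      hh (word F a) (word F b) (word F c) (word F d) +
        hh (word F b) (word F c) (word F a) (word F d) +
        hh (word F c) (word F d) (word F a) (word F b) ∈
      NS2 F C 1 3 (letters a + letters b + letters c + letters d) := by
    intro a b c d hD
    have pa := letters_card_pos a
    have pb := letters_card_pos b
    have pc := letters_card_pos c
    have pd := letters_card_pos d
    have h1 := (NS2_mul_word hC (ih.1 b c d (by omega)) a).2
    rw [show letters b + letters c + letters d + letters a =
      letters a + letters b + letters c + letters d by abel] at h1
    have h2 := (NS2_mul_word hC (ih.1 a b c (by omega)) d).1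
    have h3 := T_left hC (word F a) (word F b * word F c) (word F d)
    have h4 := T_cyc hC (word F a) (word F b) (word F c * word F d)
    have e : hh (word F a) (word F b) (word F c) (word F d) +
        hh (word F b) (word F c) (word F a) (word F d) +
        hh (word F c) (word F d) (word F a) (word F b) =
        word F a * as3 (word F b) (word F c) (word F d) +
        as3 (word F a) (word F b) (word F c) * word F d +
        (((word F a * (word F b * word F c)) * word F d -
          word F a * ((word F b * word F c) * word F d)) +
          (((word F b * word F c) * word F a) * word F d -
            (word F b * word F c) * (word F a * word F d))) -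
        (as3 (word F a) (word F b) (word F c * word F d) -
          as3 (word F c * word F d) (word F a) (word F b)) := by
      unfold hh as3
      simp only [sub_mul, mul_sub]
      abel
    rw [e]
    exact sub_mem (add_mem (add_mem h1 h2) (W_le_NS2 (T_le_W h3))) (W_le_NS2 (T_le_W h4))
  have R4 : ∀ a b c d : FreeMagma ℕ,
      (letters a).card + (letters b).card + (letters c).card + (letters d).card ≤ D + 1 →
      hh (word F a) (word F b) (word F c) (word F d) +
        hh (word F a) (word F b) (word F c) (word F d) +
        hh (word F b) (word F c) (word F a) (word F d) +
        hh (word F a) (word F c) (word F b) (word F d) ∈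
      NS2 F C 1 3 (letters a + letters b + letters c + letters d) := by
    intro a b c d hD
    have h1 := R3 a b c d hD
    have h2 := R3 b a c d (by omega)
    rw [show letters b + letters a + letters c + letters d =
      letters a + letters b + letters c + letters d by abel] at h2
    have h3 := R1 a b c d hD
    have h4 := R2 (word F c) (word F d) (word F a) (word F b)
    have e : hh (word F a) (word F b) (word F c) (word F d) +
        hh (word F a) (word F b) (word F c) (word F d) +
        hh (word F b) (word F c) (word F a) (word F d) +
        hh (word F a) (word F c) (word F b) (word F d) =
        (hh (word F a) (word F b) (word F c) (word F d) +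
        hh (word F b) (word F c) (word F a) (word F d) +
        hh (word F c) (word F d) (word F a) (word F b)) +
        (hh (word F b) (word F a) (word F c) (word F d) +
        hh (word F a) (word F c) (word F b) (word F d) +
        hh (word F c) (word F d) (word F b) (word F a)) +
        (hh (word F a) (word F b) (word F c) (word F d) -
        hh (word F b) (word F a) (word F c) (word F d)) -
        (hh (word F c) (word F d) (word F a) (word F b) +
          hh (word F c) (word F d) (word F b) (word F a)) := by abel
    rw [e]
    exact sub_mem (add_mem (add_mem h1 h2) h3) (W_le_NS2 (T_le_W h4))
  have m1 : letters b + letters c + letters a + letters d =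
      letters a + letters b + letters c + letters d := by abel
  have m2 : letters c + letters a + letters b + letters d =
      letters a + letters b + letters c + letters d := by abel
  have m3 : letters a + letters c + letters b + letters d =
      letters a + letters b + letters c + letters d := by abel
  have m4 : letters b + letters a + letters c + letters d =
      letters a + letters b + letters c + letters d := by abel
  have m5 : letters c + letters b + letters a + letters d =
      letters a + letters b + letters c + letters d := by abel
  have E1 := R4 a b c d hD
  have E2 := R4 b c a d (by omega)
  have E3 := R4 c a b d (by omega)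
  have S1 := R1 a c b d (by omega)
  have S2 := R1 b a c d (by omega)
  have S3 := R1 c b a d (by omega)
  rw [m1] at E2
  rw [m2] at E3
  rw [m3] at S1
  rw [m4] at S2
  rw [m5] at S3
  have h4 : (4 : F) • hh (word F a) (word F b) (word F c) (word F d) ∈
      NS2 F C 1 3 (letters a + letters b + letters c + letters d) := by
    have h4' : (4 : F) = 1 + 1 + 1 + 1 := by norm_num
    have e : (4 : F) • hh (word F a) (word F b) (word F c) (word F d) =
        (3 : F) • (hh (word F a) (word F b) (word F c) (word F d) +
          hh (word F a) (word F b) (word F c) (word F d) +
          hh (word F b) (word F c) (word F a) (word F d) +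
          hh (word F a) (word F c) (word F b) (word F d)) -
        (hh (word F b) (word F c) (word F a) (word F d) +
          hh (word F b) (word F c) (word F a) (word F d) +
          hh (word F c) (word F a) (word F b) (word F d) +
          hh (word F b) (word F a) (word F c) (word F d)) -
        (hh (word F c) (word F a) (word F b) (word F d) +
          hh (word F c) (word F a) (word F b) (word F d) +
          hh (word F a) (word F b) (word F c) (word F d) +
          hh (word F c) (word F b) (word F a) (word F d)) -
        (3 : F) • (hh (word F a) (word F c) (word F b) (word F d) -
          hh (word F c) (word F a) (word F b) (word F d)) +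
        (hh (word F b) (word F a) (word F c) (word F d) -
          hh (word F a) (word F b) (word F c) (word F d)) +
        (hh (word F c) (word F b) (word F a) (word F d) -
          hh (word F b) (word F c) (word F a) (word F d)) := by
      have h3' : (3 : F) = 1 + 1 + 1 := by norm_num
      rw [h4', h3']
      simp only [add_smul, one_smul]
      abel
    rw [e]
    exact add_mem (add_mem (sub_mem (sub_mem (sub_mem (Submodule.smul_mem _ _ E1) E2) E3)
      (Submodule.smul_mem _ _ S1)) S2) S3
  exact (Submodule.smul_mem_iff _ (by norm_num : (4 : F) ≠ 0)).1 h4

include hC in
/-- commutators and associators of words are combinations of normal forms -/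
lemma stB (D : ℕ) : StB F C D := by
  induction D with
  | zero =>
    constructor
    · intro u v w h
      have := letters_card_pos u
      omega
    · intro u v h
      have := letters_card_pos u
      omega
  | succ D ih =>
    have hA : ∀ u v w, (letters u).card + (letters v).card + (letters w).card ≤ D + 1 →
        as3 (word F u) (word F v) (word F w) ∈
          NS2 F C 1 3 (letters u + letters v + letters w) := by
      intro u v w hD
      cases u with
      | mul a b =>
        have h1 := hh_mem hC ih a b v w (by
          have : letters (FreeMagma.mul a b) = letters a + letters b := letters_mul a b
          rw [this, Multiset.card_add] at hD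
          exact hD)
        exact h1
      | of x =>
        cases v with
        | mul a b =>
          have h1 := hh_mem hC ih a b (.of x) w (by
            have : letters (FreeMagma.mul a b) = letters a + letters b := letters_mul a b
            rw [this, Multiset.card_add] at hD
            omega)
          have h2 := T_left hC (word F (.of x)) (word F (a * b)) (word F w)
          have e : as3 (word F (.of x)) (word F (a * b)) (word F w) =
              ((word F (.of x) * word F (a * b)) * word F w -
                word F (.of x) * (word F (a * b) * word F w) +
              ((word F (a * b) * word F (.of x)) * word F w -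
                word F (a * b) * (word F (.of x) * word F w))) -
              hh (word F a) (word F b) (word F (.of x)) (word F w) := by
            rw [word_mul]
            unfold as3 hh as3
            abel
          have h3 : as3 (word F (.of x)) (word F (a * b)) (word F w) ∈
              NS2 F C 1 3 (letters (.of x) + letters (a * b) + letters w) := by
            rw [e]
            refine sub_mem (W_le_NS2 (T_le_W h2)) ?_
            rwa [letters_mul, show letters (.of x) + (letters a + letters b) + letters w =
              letters a + letters b + letters (.of x) + letters w by abel]
          exact h3
        | of y =>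
          cases w with
          | mul a b =>
            have h1 := hh_mem hC ih a b (.of x) (.of y) (by
              have : letters (FreeMagma.mul a b) = letters a + letters b := letters_mul a b
              rw [this, Multiset.card_add] at hD
              omega)
            have h2 := T_cyc hC (word F (.of x)) (word F (.of y)) (word F (a * b))
            have e : as3 (word F (.of x)) (word F (.of y)) (word F (a * b)) =
                (as3 (word F (.of x)) (word F (.of y)) (word F (a * b)) -
                  as3 (word F (a * b)) (word F (.of x)) (word F (.of y))) +
                hh (word F a) (word F b) (word F (.of x)) (word F (.of y)) := by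
              unfold hh
              rw [← word_mul]
              abel
            have h3 : as3 (word F (.of x)) (word F (.of y)) (word F (a * b)) ∈
                NS2 F C 1 3 (letters (.of x) + letters (.of y) + letters (a * b)) := by
              rw [e]
              refine add_mem (W_le_NS2 (T_le_W h2)) ?_
              rwa [letters_mul, show letters (.of x) + letters (.of y) + (letters a + letters b) =
                letters a + letters b + letters (.of x) + letters (.of y) by abel]
            exact h3
          | of z => exact base_as x y z
    refine ⟨hA, ?_⟩
    -- the commutators
    have comp : ∀ a b c : FreeMagma ℕ, (letters a).card + (letters b).card + (letters c).card ≤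
        D + 1 → cm (word F (a * b)) (word F c) ∈ NS2 F C 1 3 (letters (a * b) + letters c) := by
      intro a b c hD
      have pa := letters_card_pos a
      have pb := letters_card_pos b
      have pc := letters_card_pos c
      have h1 := (NS2_mul_word hC (ih.2 b c (by omega)) a).2
      have h2 := (NS2_mul_word hC (ih.2 a c (by omega)) b).1
      have h3 := hA a b c hD
      have h4 := hA a c b (by omega)
      have h5 := hA c a b (by omega)
      rw [show letters b + letters c + letters a = letters a + letters b + letters c by abel] at h1
      rw [show letters a + letters c + letters b = letters a + letters b + letters c by abel]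
        at h2 h4
      rw [show letters c + letters a + letters b = letters a + letters b + letters c by abel] at h5
      rw [letters_mul]
      have e : cm (word F (a * b)) (word F c) = word F a * cm (word F b) (word F c) +
          cm (word F a) (word F c) * word F b + as3 (word F a) (word F b) (word F c) -
          as3 (word F a) (word F c) (word F b) + as3 (word F c) (word F a) (word F b) := by
        rw [word_mul]
        unfold cm as3
        simp only [sub_mul, mul_sub]
        abel
      rw [e]
      exact add_mem (sub_mem (add_mem (add_mem h1 h2) h3) h4) h5
    intro u v hD
    cases u with
    | mul a b =>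
      have : letters (FreeMagma.mul a b) = letters a + letters b := letters_mul a b
      rw [this, Multiset.card_add] at hD
      exact comp a b v hD
    | of x =>
      cases v with
      | mul a b =>
        have : letters (FreeMagma.mul a b) = letters a + letters b := letters_mul a b
        rw [this, Multiset.card_add] at hD
        have h1 := comp a b (.of x) (by omega)
        have e : cm (word F (.of x)) (word F (a * b)) =
            - cm (word F (a * b)) (word F (.of x)) := by
          unfold cm
          abel
        have h3 : cm (word F (.of x)) (word F (a * b)) ∈
            NS2 F C 1 3 (letters (.of x) + letters (a * b)) := by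
          rw [e, add_comm]
          exact neg_mem h1
        exact h3
      | of y => exact base_cm x y

include hC in
/-- a product with `r` commutators and associators of words is a combination of normal forms
modulo products with more commutators and associators -/
theorem Dfn_NS2 {r : ℕ} {μ : Multiset ℕ} {q : NAPoly F} (h : Dfn F r μ q) (hμ : μ.Nodup) :
    (r = 0 → ∃ w, q = word F w ∧ letters w = μ) ∧
      (1 ≤ r → q ∈ NS2 F C r (9 * r - 6) μ) := by
  induction h with
  | letter a => exact ⟨fun _ => ⟨.of a, rfl, rfl⟩, fun h => absurd h (by omega)⟩
  | @mul i j α β p q _ _ h1 h2 =>
    obtain ⟨a1, a2⟩ := h1 (Multiset.nodup_add.1 hμ).1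
    obtain ⟨b1, b2⟩ := h2 (Multiset.nodup_add.1 hμ).2.1
    constructor
    · intro h
      obtain ⟨w, e1, e2⟩ := a1 (by omega)
      obtain ⟨w', e1', e2'⟩ := b1 (by omega)
      exact ⟨w * w', by rw [word_mul, e1, e1'], by rw [letters_mul, e2, e2']⟩
    · intro h
      by_cases hi : i = 0
      · obtain ⟨w, e1, e2⟩ := a1 hi
        have h3 := (NS2_mul_word hC (b2 (by omega)) w).2
        rw [e1, hi, zero_add, ← e2, add_comm]
        exact h3
      · by_cases hj : j = 0
        · obtain ⟨w, e1, e2⟩ := b1 hj
          have h3 := (NS2_mul_word hC (a2 (by omega)) w).1
          rw [e1, hj, add_zero, ← e2]
          exact h3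
        · have h3 := NS2_mul hC hμ (a2 (by omega)) (b2 (by omega))
          rwa [show 9 * i - 6 + 3 + (9 * j - 6 + 3) = 9 * (i + j) - 6 by omega] at h3
  | comm u v => exact ⟨fun h => absurd h (by omega), fun _ => (stB hC _).2 u v le_rfl⟩
  | assoc u v w => exact ⟨fun h => absurd h (by omega), fun _ => (stB hC _).1 u v w le_rfl⟩

end base

end Pool.Agent.SRAlt
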