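import Pool.Agent.SRAlt.Alg
import Pool.Agent.Superrank.Tensor

set_option autoImplicit false

open scoped TensorProduct

namespace Pool.Agent.SRAlt

open Pool.Agent.Superrank

variable {F : Type} [Field F]

section multilinear

variable {B : Type} [NonUnitalNonAssocRing B] [Module F B] [IsScalarTower F B B]
  [SMulCommClass F B B]

lemma ev_word_of (v : ℕ → B) (a : ℕ) : FreeNonUnitalNonAssocAlgebra.lift F v (word F (.of a)) = v a :=
  FreeNonUnitalNonAssocAlgebra.lift_of_apply F v a

lemma ev_word_mul (v : ℕ → B) (x y : FreeMagma ℕ) :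
    FreeNonUnitalNonAssocAlgebra.lift F v (word F (x * y)) = FreeNonUnitalNonAssocAlgebra.lift F v (word F x) * FreeNonUnitalNonAssocAlgebra.lift F v (word F y) := by
  rw [word_mul, map_mul]

lemma ev_word_congr (w : FreeMagma ℕ) {u v : ℕ → B} (h : ∀ k ∈ letters w, u k = v k) :
    FreeNonUnitalNonAssocAlgebra.lift F u (word F w) = FreeNonUnitalNonAssocAlgebra.lift F v (word F w) := by
  induction w using word_induction with
  | h1 a => rw [ev_word_of, ev_word_of, h a (by simp)]
  | h2 x y hx hy =>
    rw [ev_word_mul, ev_word_mul, hx fun k hk => h k (by simp [hk]),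
      hy fun k hk => h k (by simp [hk])]

lemma ev_congr {m : Multiset ℕ} {f : NAPoly F} (hf : f ∈ H F m) {u v : ℕ → B}
    (h : ∀ k ∈ m, u k = v k) : FreeNonUnitalNonAssocAlgebra.lift F u f = FreeNonUnitalNonAssocAlgebra.lift F v f := by
  induction hf using Submodule.span_induction with
  | mem x hx =>
    obtain ⟨w, hw, rfl⟩ := hx
    subst hw
    exact ev_word_congr w h
  | zero => simp
  | add x y _ _ h1 h2 => rw [map_add, map_add, h1, h2]
  | smul c x _ h1 => rw [map_smul, map_smul, h1]

lemma ev_word_add (w : FreeMagma ℕ) (k : ℕ) (hk : (letters w).count k = 1) (v : ℕ → B)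
    (a b : B) : FreeNonUnitalNonAssocAlgebra.lift F (Function.update v k (a + b)) (word F w) =
      FreeNonUnitalNonAssocAlgebra.lift F (Function.update v k a) (word F w) + FreeNonUnitalNonAssocAlgebra.lift F (Function.update v k b) (word F w) := by
  induction w using word_induction with
  | h1 c =>
    rw [letters_of, Multiset.count_singleton] at hk
    have : k = c := by
      by_contra hne
      rw [if_neg hne] at hk
      exact zero_ne_one hk
    subst this
    simp [ev_word_of]
  | h2 x y hx hy =>
    rw [letters_mul, Multiset.count_add] at hk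
    simp only [ev_word_mul]
    have hcong : ∀ z : FreeMagma ℕ, (letters z).count k = 0 → ∀ c d : B,
        FreeNonUnitalNonAssocAlgebra.lift F (Function.update v k c) (word F z) = FreeNonUnitalNonAssocAlgebra.lift F (Function.update v k d) (word F z) := by
      intro z hz c d
      apply ev_word_congr
      intro l hl
      have : l ≠ k := by
        rintro rfl
        rw [Multiset.count_eq_zero] at hz
        exact hz hl
      rw [Function.update_of_ne this, Function.update_of_ne this]
    rcases (show ((letters x).count k = 1 ∧ (letters y).count k = 0) ∨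
      ((letters x).count k = 0 ∧ (letters y).count k = 1) by omega) with ⟨h1, h2⟩ | ⟨h1, h2⟩
    · rw [hx h1, add_mul, hcong y h2 (a + b) a, hcong y h2 b a]
    · rw [hy h2, mul_add, hcong x h1 (a + b) a, hcong x h1 b a]

lemma ev_word_smul (w : FreeMagma ℕ) (k : ℕ) (hk : (letters w).count k = 1) (v : ℕ → B)
    (c : F) (a : B) : FreeNonUnitalNonAssocAlgebra.lift F (Function.update v k (c • a)) (word F w) =
      c • FreeNonUnitalNonAssocAlgebra.lift F (Function.update v k a) (word F w) := by
  induction w using word_induction with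
  | h1 d =>
    rw [letters_of, Multiset.count_singleton] at hk
    have : k = d := by
      by_contra hne
      rw [if_neg hne] at hk
      exact zero_ne_one hk
    subst this
    simp [ev_word_of]
  | h2 x y hx hy =>
    rw [letters_mul, Multiset.count_add] at hk
    simp only [ev_word_mul]
    have hcong : ∀ z : FreeMagma ℕ, (letters z).count k = 0 → ∀ c d : B,
        FreeNonUnitalNonAssocAlgebra.lift F (Function.update v k c) (word F z) = FreeNonUnitalNonAssocAlgebra.lift F (Function.update v k d) (word F z) := by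
      intro z hz c d
      apply ev_word_congr
      intro l hl
      have : l ≠ k := by
        rintro rfl
        rw [Multiset.count_eq_zero] at hz
        exact hz hl
      rw [Function.update_of_ne this, Function.update_of_ne this]
    rcases (show ((letters x).count k = 1 ∧ (letters y).count k = 0) ∨
      ((letters x).count k = 0 ∧ (letters y).count k = 1) by omega) with ⟨h1, h2⟩ | ⟨h1, h2⟩
    · rw [hx h1, smul_mul_assoc, hcong y h2 (c • a) a]
    · rw [hy h2, mul_smul_comm, hcong x h1 (c • a) a]

/-- extension by zero of a point indexed by `L` -/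
def extL (L : Finset ℕ) (v : L → B) : ℕ → B := fun k => if h : k ∈ L then v ⟨k, h⟩ else 0

omit [Module F B] [IsScalarTower F B B] [SMulCommClass F B B] in
lemma extL_update (L : Finset ℕ) [DecidableEq L] (v : L → B) (i : L) (a : B) :
    extL L (Function.update v i a) = Function.update (extL L v) i.1 a := by
  funext k
  unfold extL
  by_cases hk : k = i.1
  · subst hk
    simp
  · rw [Function.update_of_ne hk]
    by_cases h : k ∈ L
    · rw [dif_pos h, dif_pos h, Function.update_of_ne]
      intro h2
      exact hk (congrArg Subtype.val h2)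
    · rw [dif_neg h, dif_neg h]

variable (B) in
/-- evaluation of a multilinear polynomial as a multilinear map -/
noncomputable def multi (L : Finset ℕ) (f : NAPoly F) (hf : f ∈ H F L.val) :
    MultilinearMap F (fun _ : L => B) B where
  toFun := fun v => FreeNonUnitalNonAssocAlgebra.lift F (extL L v) f
  map_update_add' := by
    intro inst v i a b
    rw [extL_update, extL_update, extL_update]
    induction hf using Submodule.span_induction with
    | mem x hx =>
      obtain ⟨w, hw, rfl⟩ := hx
      apply ev_word_add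
      rw [hw]
      exact Multiset.count_eq_one_of_mem L.nodup i.2
    | zero => simp
    | add x y _ _ h1 h2 => rw [map_add, map_add, map_add, h1, h2]; abel
    | smul c x _ h1 => rw [map_smul, map_smul, map_smul, h1, smul_add]
  map_update_smul' := by
    intro inst v i c a
    rw [extL_update, extL_update]
    induction hf using Submodule.span_induction with
    | mem x hx =>
      obtain ⟨w, hw, rfl⟩ := hx
      apply ev_word_smul
      rw [hw]
      exact Multiset.count_eq_one_of_mem L.nodup i.2
    | zero => simp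
    | add x y _ _ h1 h2 => rw [map_add, map_add, h1, h2, smul_add]
    | smul d x _ h1 => rw [map_smul, map_smul, h1, smul_comm]

lemma multi_apply (L : Finset ℕ) (f : NAPoly F) (hf : f ∈ H F L.val) (v : L → B) :
    multi B L f hf v = FreeNonUnitalNonAssocAlgebra.lift F (extL L v) f := rfl

end multilinear

section pure

variable {C : Type} [NonUnitalNonAssocRing C] [Module F C] [IsScalarTower F C C]
  [SMulCommClass F C C] {R : Type} [CommRing R] [Algebra F R]

lemma ev_word_pure (w : FreeMagma ℕ) (ζ : ℕ → R) (c : ℕ → C) :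
    FreeNonUnitalNonAssocAlgebra.lift F (fun k => ζ k ⊗ₜ[F] c k) (word F w) = ((letters w).map ζ).prod ⊗ₜ[F] FreeNonUnitalNonAssocAlgebra.lift F c (word F w) := by
  induction w using word_induction with
  | h1 a => rw [ev_word_of, ev_word_of]; simp
  | h2 x y hx hy =>
    rw [ev_word_mul, ev_word_mul, hx, hy, Algebra.TensorProduct.tmul_mul_tmul, letters_mul,
      Multiset.map_add, Multiset.prod_add]

lemma ev_pure {m : Multiset ℕ} {f : NAPoly F} (hf : f ∈ H F m) (ζ : ℕ → R) (c : ℕ → C) :
    FreeNonUnitalNonAssocAlgebra.lift F (fun k => ζ k ⊗ₜ[F] c k) f = (m.map ζ).prod ⊗ₜ[F] FreeNonUnitalNonAssocAlgebra.lift F c f := by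
  induction hf using Submodule.span_induction with
  | mem x hx =>
    obtain ⟨w, hw, rfl⟩ := hx
    subst hw
    exact ev_word_pure w ζ c
  | zero => rw [map_zero, map_zero, TensorProduct.tmul_zero]
  | add x y _ _ h1 h2 => rw [map_add, map_add, h1, h2, TensorProduct.tmul_add]
  | smul c x _ h1 => rw [map_smul, map_smul, h1, TensorProduct.tmul_smul]

/-- the value of a multilinear polynomial at sums of pure tensors -/
lemma ev_sum (L : Finset ℕ) {f : NAPoly F} (hf : f ∈ H F L.val) (S : ℕ → Finset ℕ)
    (ζ : ℕ → ℕ → R) (x : ℕ → C) :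
    FreeNonUnitalNonAssocAlgebra.lift F (fun k => ∑ j ∈ S k, ζ k j ⊗ₜ[F] x j) f =
      ∑ r ∈ Fintype.piFinset (fun k : L => S k), (∏ k : L, ζ k (r k)) ⊗ₜ[F]
        FreeNonUnitalNonAssocAlgebra.lift F (extL L (fun k => x (r k))) f := by
  classical
  have h1 : FreeNonUnitalNonAssocAlgebra.lift F (fun k => ∑ j ∈ S k, ζ k j ⊗ₜ[F] x j) f =
      multi (R ⊗[F] C) L f hf (fun k => ∑ j ∈ S k, ζ k j ⊗ₜ[F] x j) := by
    rw [multi_apply]
    apply ev_congr hf
    intro k hk
    rw [extL, dif_pos (show k ∈ L from hk)]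
  rw [h1, MultilinearMap.map_sum_finset]
  refine Finset.sum_congr rfl fun r _ => ?_
  rw [multi_apply]
  have h2 : FreeNonUnitalNonAssocAlgebra.lift F (extL L (fun k : L => ζ k (r k) ⊗ₜ[F] x (r k))) f =
      FreeNonUnitalNonAssocAlgebra.lift F (fun k => (if h : k ∈ L then ζ k (r ⟨k, h⟩) else 0) ⊗ₜ[F]
        extL L (fun k => x (r k)) k) f := by
    apply ev_congr hf
    intro k hk
    have hk' : k ∈ L := hk
    rw [extL, extL, dif_pos hk', dif_pos hk', dif_pos hk']
  rw [h2, ev_pure hf]
  congr 1
  have h3 : (Multiset.map (fun k => if h : k ∈ L then ζ k (r ⟨k, h⟩) else 0) L.val).prod =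
      ∏ k ∈ L, (if h : k ∈ L then ζ k (r ⟨k, h⟩) else 0) := rfl
  rw [h3, ← Finset.prod_coe_sort]
  refine Finset.prod_congr rfl fun k _ => ?_
  rw [dif_pos k.2]

end pure

section grass

lemma list_tmul (n : ℕ) (a b : Fin n → Gr F) :
    (List.ofFn fun i => a i ⊗ₜ[F] b i).prod = (List.ofFn a).prod ⊗ₜ[F] (List.ofFn b).prod := by
  induction n with
  | zero => simp [Algebra.TensorProduct.one_def]
  | succ n ih =>
    rw [List.ofFn_succ, List.prod_cons, ih, Algebra.TensorProduct.tmul_mul_tmul,
      List.ofFn_succ (f := a), List.ofFn_succ (f := b), List.prod_cons, List.prod_cons]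

/-- the commuting coefficients `e_k ⊗ e_j` -/
noncomputable def zeta (k j : ℕ) : Rc F :=
  ⟨gen F k ⊗ₜ gen F j, Submodule.subset_span ⟨1, _, gen_mem_grPart k, _, gen_mem_grPart j, rfl⟩⟩

lemma ofFn_gen (n : ℕ) (a : Fin n → ℕ) : (List.ofFn fun i => gen F (a i)).prod =
    ExteriorAlgebra.ιMulti F n (fun i => Finsupp.single (a i) (1 : F)) := by
  rw [ExteriorAlgebra.ιMulti_apply]
  rfl

lemma prod_zeta (L : Finset ℕ) (r : L → ℕ) :
    ((∏ k : L, zeta (F := F) k (r k) : Rc F) : Gr F ⊗[F] Gr F) =
      (List.ofFn fun i : Fin L.card => gen F (L.orderIsoOfFin rfl i)).prod ⊗ₜ[F]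
      (List.ofFn fun i : Fin L.card => gen F (r (L.orderIsoOfFin rfl i))).prod := by
  rw [← Equiv.prod_comp (L.orderIsoOfFin rfl).toEquiv, ← List.prod_ofFn]
  have : (((List.ofFn fun i : Fin L.card => zeta (F := F) ((L.orderIsoOfFin rfl).toEquiv i)
      (r ((L.orderIsoOfFin rfl).toEquiv i))).prod : Rc F) : Gr F ⊗[F] Gr F) =
      (Rc F).val (List.ofFn fun i : Fin L.card => zeta (F := F) ((L.orderIsoOfFin rfl).toEquiv i)
      (r ((L.orderIsoOfFin rfl).toEquiv i))).prod := rfl
  rw [this, map_list_prod, List.map_ofFn, ← list_tmul]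
  rfl

lemma prod_zeta_not_inj (L : Finset ℕ) (r : L → ℕ) (h : ¬ Function.Injective r) :
    (∏ k : L, zeta (F := F) k (r k) : Rc F) = 0 := by
  apply Subtype.ext
  rw [prod_zeta, ofFn_gen L.card (fun i => r (L.orderIsoOfFin rfl i)),
    AlternatingMap.map_eq_zero_of_not_injective, TensorProduct.tmul_zero]
  · rfl
  · intro hinj
    apply h
    intro a b hab
    have := @hinj ((L.orderIsoOfFin rfl).symm a) ((L.orderIsoOfFin rfl).symm b) (by simp [hab])
    exact (L.orderIsoOfFin rfl).symm.injective this

lemma prod_zeta_perm (L : Finset ℕ) (τ : Equiv.Perm L) :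
    (∏ k : L, zeta (F := F) k (τ k) : Rc F) =
      ((Equiv.Perm.sign τ : ℤ) : F) • (∏ k : L, zeta (F := F) k k : Rc F) := by
  apply Subtype.ext
  have hs : (((((Equiv.Perm.sign τ : ℤ) : F) • (∏ k : L, zeta (F := F) k k : Rc F) : Rc F)) :
      Gr F ⊗[F] Gr F) = ((Equiv.Perm.sign τ : ℤ) : F) •
      ((∏ k : L, zeta (F := F) k k : Rc F) : Gr F ⊗[F] Gr F) := rfl
  let e : Fin L.card ≃ L := (L.orderIsoOfFin rfl).toEquiv
  let σ : Equiv.Perm (Fin L.card) := (e.trans τ).trans e.symm
  have hσ : Equiv.Perm.sign σ = Equiv.Perm.sign τ := by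
    have := Equiv.Perm.sign_symm_trans_trans τ e.symm
    simp [σ, Equiv.trans_assoc]
  rw [hs, prod_zeta L (fun k => (τ k : ℕ)), prod_zeta L (fun k => (k : ℕ)), ← TensorProduct.tmul_smul]
  congr 1
  rw [ofFn_gen L.card (fun i => (τ (L.orderIsoOfFin rfl i) : ℕ)),
    ofFn_gen L.card (fun i => ((L.orderIsoOfFin rfl i : L) : ℕ))]
  have h1 : (fun i => Finsupp.single ((τ (L.orderIsoOfFin rfl i) : L) : ℕ) (1 : F)) =
      (fun i => Finsupp.single ((L.orderIsoOfFin rfl i : L) : ℕ) (1 : F)) ∘ σ := by
    funext i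
    show _ = Finsupp.single (((L.orderIsoOfFin rfl)
      ((L.orderIsoOfFin rfl).symm (τ (L.orderIsoOfFin rfl i))) : L) : ℕ) (1 : F)
    rw [OrderIso.apply_symm_apply]
  rw [h1, AlternatingMap.map_perm, hσ]
  rw [Units.smul_def, Int.cast_smul_eq_zsmul]

lemma prod_zeta_ne_zero (L : Finset ℕ) :
    ((∏ k : L, zeta (F := F) k k : Rc F) : Gr F ⊗[F] Gr F) ≠ 0 := by
  rw [prod_zeta L (fun k => (k : ℕ))]
  have h := prod_gen_ne_zero (F := F) (L.orderEmbOfFin rfl)
  have h1 : (List.ofFn fun i : Fin L.card => gen F ((L.orderIsoOfFin rfl i : L) : ℕ)).prod =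
    (List.ofFn fun i => gen F (L.orderEmbOfFin rfl i)).prod := rfl
  rw [h1]
  intro h2
  exact h (eq_zero_of_tmul h h2)

end grass

section main

variable {C : Type} [NonUnitalNonAssocRing C] [Module F C] [IsScalarTower F C C]
  [SMulCommClass F C C]

/-- A multilinear identity of the Grassmann envelope that is skew-symmetric in every block is an
identity. -/
theorem ev_eq_zero [CharZero F] {K : ℕ} (x : ℕ → C) (L : Finset ℕ) {f : NAPoly F}
    (hf : f ∈ H F L.val) (hid : IsEnvelopeIdentity (SAp F K x) f) (b : ℕ → Fin K)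
    (hsk : ∀ τ : Equiv.Perm L, (∀ k, b (τ k) = b k) →
      FreeNonUnitalNonAssocAlgebra.lift F x (relabel (Equiv.Perm.ofSubtype τ) f) = ((Equiv.Perm.sign τ : ℤ) : F) • FreeNonUnitalNonAssocAlgebra.lift F x f) :
    FreeNonUnitalNonAssocAlgebra.lift F x f = 0 := by
  classical
  have h0 := hid (fun k => gen F k ⊗ₜ[F] yA x (b k))
    (fun k => Submodule.subset_span ⟨1, _, gen_mem_grPart k, _, yA_mem x (b k), rfl⟩)
  have h1 := congrArg (projHom (L, b)) h0
  rw [← lift_comp, map_zero] at h1
  have h2 : (fun k => projHom (L, b) (gen F k ⊗ₜ[F] yA x (b k))) =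
      fun k => Psi F C (∑ j ∈ L.filter (fun j => b j = b k), zeta (F := F) k j ⊗ₜ[F] x j) := by
    funext k
    rw [projHom_tmul, map_sum]
    show gen F k ⊗ₜ[F] (∑ j ∈ L.filter (fun j => b j = b k), toGC F C (gen F j ⊗ₜ[F] x j)) = _
    rw [TensorProduct.tmul_sum]
    rfl
  rw [h2, lift_comp, ev_sum L hf] at h1
  -- every term is `0` or the main term
  have hterm : ∀ r ∈ Fintype.piFinset (fun k : L => L.filter (fun j => b j = b k)),
      (∏ k : L, zeta (F := F) k (r k)) ⊗ₜ[F] FreeNonUnitalNonAssocAlgebra.lift F (extL L (fun k => x (r k))) f =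
      if Function.Injective r then (∏ k : L, zeta (F := F) k k) ⊗ₜ[F] FreeNonUnitalNonAssocAlgebra.lift F x f else 0 := by
    intro r hr
    rw [Fintype.mem_piFinset] at hr
    split_ifs with hinj
    · have hr1 : ∀ k, r k ∈ L := fun k => (Finset.mem_filter.1 (hr k)).1
      have hr2 : ∀ k, b (r k) = b k := fun k => (Finset.mem_filter.1 (hr k)).2
      let τ0 : L → L := fun k => ⟨r k, hr1 k⟩
      have hτ0 : Function.Injective τ0 := fun a c hac => hinj (congrArg Subtype.val hac)
      let τ : Equiv.Perm L := Equiv.ofBijective τ0 (Finite.injective_iff_bijective.1 hτ0)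
      have hτ : ∀ k, ((τ k : L) : ℕ) = r k := fun k => rfl
      have e1 : FreeNonUnitalNonAssocAlgebra.lift F (extL L (fun k => x (r k))) f = FreeNonUnitalNonAssocAlgebra.lift F x (relabel (Equiv.Perm.ofSubtype τ) f) := by
        rw [lift_relabel]
        apply ev_congr hf
        intro k hk
        have hk' : k ∈ L := hk
        rw [extL, dif_pos hk', Equiv.Perm.ofSubtype_apply_of_mem τ hk', hτ]
      have e2 := hsk τ (fun k => hr2 k)
      have e3 : (∏ k : L, zeta (F := F) k (r k)) = ∏ k : L, zeta (F := F) k (τ k) := rfl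
      rw [e1, e2, e3, prod_zeta_perm, TensorProduct.smul_tmul, smul_smul]
      congr 1
      have : ((Equiv.Perm.sign τ : ℤ) : F) * ((Equiv.Perm.sign τ : ℤ) : F) = 1 := by
        rcases Int.units_eq_one_or (Equiv.Perm.sign τ) with h | h <;> rw [h] <;> simp
      rw [this, one_smul]
    · rw [prod_zeta_not_inj L r hinj, TensorProduct.zero_tmul]
  rw [Finset.sum_congr rfl hterm, Finset.sum_ite, Finset.sum_const_zero, add_zero,
    Finset.sum_const, map_nsmul] at h1
  set N := ((Fintype.piFinset (fun k : L => L.filter (fun j => b j = b k))).filter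
    (fun r => Function.Injective r)).card with hN
  have hNpos : N ≠ 0 := by
    rw [hN]
    apply Finset.card_ne_zero_of_mem (a := fun k : L => (k : ℕ))
    rw [Finset.mem_filter, Fintype.mem_piFinset]
    exact ⟨fun k => Finset.mem_filter.2 ⟨k.2, rfl⟩, Subtype.val_injective⟩
  have h3 : Psi F C ((∏ k : L, zeta (F := F) k k) ⊗ₜ[F] FreeNonUnitalNonAssocAlgebra.lift F x f) = 0 := by
    rw [← Nat.cast_smul_eq_nsmul F] at h1
    exact (smul_eq_zero.1 h1).resolve_left (Nat.cast_ne_zero.2 hNpos)
  rw [Psi_tmul] at h3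
  have h4 : ((∏ k : L, zeta (F := F) k k : Rc F) : Gr F ⊗[F] Gr F) ⊗ₜ[F] FreeNonUnitalNonAssocAlgebra.lift F x f = 0 := by
    have hinj : Function.Injective (assocL F C) := by
      unfold assocL
      rw [LinearMap.coe_comp]
      refine Function.Injective.comp ?_ (TensorProduct.assoc F (Gr F) (Gr F) C).injective
      exact Module.Flat.lTensor_preserves_injective_linearMap _ (toGC F C).injective
    apply hinj
    rw [map_zero]
    exact h3
  obtain ⟨φ, hφ⟩ : ∃ φ : Module.Dual F (Gr F ⊗[F] Gr F),
      φ ((∏ k : L, zeta (F := F) k k : Rc F) : Gr F ⊗[F] Gr F) ≠ 0 := by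
    by_contra hcon
    push Not at hcon
    exact prod_zeta_ne_zero L ((Module.forall_dual_apply_eq_zero_iff F _).1 hcon)
  have h5 := congrArg (fun t => (TensorProduct.lid F C) ((LinearMap.rTensor C φ) t)) h4
  simp only [LinearMap.rTensor_tmul, TensorProduct.lid_tmul, map_zero] at h5
  exact (smul_eq_zero.1 h5).resolve_left hφ

end main

end Pool.Agent.SRAlt
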