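import Pool.Agent.SRAlt.Sq
import Pool.Agent.SRAlt.Eval

set_option autoImplicit false

open scoped TensorProduct

namespace Pool.Agent.SRAlt

open Pool.Agent.Superrank

variable {F : Type} [Field F]

/-- a generic point of the variety -/
theorem exists_generic (S : Set (NAPoly F)) :
    ∃ (C : Type) (_ : NonUnitalNonAssocRing C) (_ : Module F C) (_ : IsScalarTower F C C)
      (_ : SMulCommClass F C C) (x : ℕ → C), Satisfies F C S ∧
      ∀ f : NAPoly F, FreeNonUnitalNonAssocAlgebra.lift F x f = 0 → ∀ (B : Type) [NonUnitalNonAssocRing B] [Module F B]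
        [IsScalarTower F B B] [SMulCommClass F B B], Satisfies F B S → IsIdentity F B f := by
  classical
  let Bad : Set (NAPoly F) := {f | ∃ (B : Type) (_ : NonUnitalNonAssocRing B) (_ : Module F B)
    (_ : IsScalarTower F B B) (_ : SMulCommClass F B B), Satisfies F B S ∧
    ∃ v : ℕ → B, FreeNonUnitalNonAssocAlgebra.lift F v f ≠ 0}
  choose B i1 i2 i3 i4 hS v hv using (fun f : Bad => f.2)
  let pr : ∀ f : Bad, (∀ f : Bad, B f) →ₙₐ[F] B f := fun f =>
    { toFun := fun a => a f
      map_smul' := fun _ _ => rfl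
      map_zero' := rfl
      map_add' := fun _ _ => rfl
      map_mul' := fun _ _ => rfl }
  refine ⟨∀ f : Bad, B f, inferInstance, inferInstance, inferInstance, inferInstance,
    fun i f => v f i, ?_, ?_⟩
  · intro g hg w
    funext f
    have h1 := lift_comp (pr f) w g
    have h2 := hS f g hg (fun i => pr f (w i))
    rw [h1] at h2
    exact h2
  · intro f hf D _ _ _ _ hD w
    by_contra hne
    have hbad : f ∈ Bad := ⟨D, inferInstance, inferInstance, inferInstance, inferInstance, hD, w,
      hne⟩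
    have h1 := lift_comp (pr ⟨f, hbad⟩) (fun i f => v f i) f
    rw [hf, map_zero] at h1
    exact hv ⟨f, hbad⟩ h1

section core

variable {C : Type} [NonUnitalNonAssocRing C] [Module F C] [IsScalarTower F C C]
  [SMulCommClass F C C]

/-- the action of a permutation of `L` on polynomials -/
noncomputable def rho {L : Finset ℕ} (τ : Equiv.Perm L) : NAPoly F →ₗ[F] NAPoly F :=
  ((relabel (Equiv.Perm.ofSubtype τ) : NAPoly F →ₙₐ[F] NAPoly F) : NAPoly F →ₗ[F] NAPoly F)

lemma rho_apply {L : Finset ℕ} (τ : Equiv.Perm L) (f : NAPoly F) :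
    rho τ f = relabel (Equiv.Perm.ofSubtype τ) f := rfl

lemma rho_rho {L : Finset ℕ} (σ τ : Equiv.Perm L) (f : NAPoly F) :
    rho σ (rho τ f) = rho (σ * τ) f := by
  rw [rho_apply, rho_apply, rho_apply, relabel_relabel, map_mul]
  rfl

lemma rho_one {L : Finset ℕ} (f : NAPoly F) : rho (1 : Equiv.Perm L) f = f := by
  rw [rho_apply, map_one]
  exact relabel_id f

lemma map_ofSubtype {L : Finset ℕ} (τ : Equiv.Perm L) :
    L.val.map (Equiv.Perm.ofSubtype τ) = L.val := by
  rw [Multiset.Nodup.ext (L.nodup.map (Equiv.Perm.ofSubtype τ).injective) L.nodup]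
  intro a
  rw [Multiset.mem_map]
  constructor
  · rintro ⟨c, hc, rfl⟩
    rw [Equiv.Perm.ofSubtype_apply_of_mem τ hc]
    exact (τ ⟨c, hc⟩).2
  · intro ha
    refine ⟨(τ⁻¹ ⟨a, ha⟩ : L), (τ⁻¹ ⟨a, ha⟩ : L).2, ?_⟩
    rw [Equiv.Perm.ofSubtype_apply_coe]
    simp

lemma rho_H {L : Finset ℕ} (τ : Equiv.Perm L) {f : NAPoly F} (hf : f ∈ H F L.val) :
    rho τ f ∈ H F L.val := by
  have h : f ∈ Hw F L.val 0 := by
    refine (Submodule.span_mono ?_) hf
    rintro x ⟨w, h1, h2⟩
    exact ⟨w, h1, Nat.zero_le _, h2⟩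
  have := relabel_Hw (Equiv.Perm.ofSubtype τ) h
  rw [map_ofSubtype] at this
  exact Hw_le_H _ _ this

theorem core [CharZero F] (hA : IsAlt C) {x : ℕ → C}
    (hx : ∀ f : NAPoly F, FreeNonUnitalNonAssocAlgebra.lift F x f = 0 → IsIdentity F C f) {k : ℕ}
    (hk : ∀ w, k ≤ ch w → word F w ∈ idents F C) (L : Finset ℕ) {f : NAPoly F}
    (hf : f ∈ H F L.val) (hid : IsEnvelopeIdentity (SAp F (max 1 (6 * k - 8)) x) f) :
    IsIdentity F C f := by
  classical
  set T := idents F C with hT
  let E := idents F (envelope (isSuper (F := F) (max 1 (6 * k - 8)) x))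
  have hE : ∀ g, g ∈ E ↔ IsEnvelopeIdentity (SAp F (max 1 (6 * k - 8)) x) g := fun g =>
    (isEnvelopeIdentity_iff (isSuper (F := F) (max 1 (6 * k - 8)) x) g).symm
  let J0 : Submodule F (NAPoly F) := H F L.val ⊓ E
  let J : Submodule F (NAPoly F ⧸ T) := J0.map T.mkQ
  obtain ⟨p0, hp0⟩ := J.subtype.exists_leftInverse_of_injective (Submodule.ker_subtype J)
  have hTle : ∀ τ : Equiv.Perm L, T ≤ T.comap (rho τ) := fun τ g hg =>
    identity_relabel (F := F) (C := C) hg (Equiv.Perm.ofSubtype τ)
  let rb : Equiv.Perm L → (NAPoly F ⧸ T) →ₗ[F] (NAPoly F ⧸ T) := fun τ => T.mapQ T (rho τ) (hTle τ)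
  have hrb : ∀ τ g, rb τ (T.mkQ g) = T.mkQ (rho τ g) := fun τ g => rfl
  have hrb2 : ∀ σ τ q, rb σ (rb τ q) = rb (σ * τ) q := by
    intro σ τ q
    obtain ⟨g, rfl⟩ := T.mkQ_surjective q
    rw [hrb, hrb, hrb, rho_rho]
  let pi : NAPoly F →ₗ[F] (NAPoly F ⧸ T) :=
    ∑ τ : Equiv.Perm L, rb τ ∘ₗ J.subtype ∘ₗ p0 ∘ₗ T.mkQ ∘ₗ rho τ⁻¹
  have hpi : ∀ g, pi g = ∑ τ : Equiv.Perm L, rb τ (p0 (T.mkQ (rho τ⁻¹ g)) : NAPoly F ⧸ T) := by
    intro g
    simp only [pi, LinearMap.sum_apply]
    rfl
  have hJ0 : ∀ τ g, g ∈ J0 → rho τ g ∈ J0 := fun τ g hg =>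
    ⟨rho_H τ hg.1, identity_relabel (F := F) hg.2 (Equiv.Perm.ofSubtype τ)⟩
  have hrbJ : ∀ τ, ∀ q ∈ J, rb τ q ∈ J := by
    rintro τ q ⟨g, hg, rfl⟩
    exact ⟨rho τ g, hJ0 τ g hg, rfl⟩
  have ha : ∀ g, pi g ∈ J := by
    intro g
    rw [hpi]
    exact sum_mem fun τ _ => hrbJ τ _ (p0 _).2
  have hb : ∀ g ∈ J0, pi g = (Fintype.card (Equiv.Perm L) : F) • T.mkQ g := by
    intro g hg
    rw [hpi]
    have h1 : ∀ τ : Equiv.Perm L, rb τ (p0 (T.mkQ (rho τ⁻¹ g)) : NAPoly F ⧸ T) = T.mkQ g := by
      intro τ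
      have h2 : T.mkQ (rho τ⁻¹ g) ∈ J := ⟨_, hJ0 τ⁻¹ g hg, rfl⟩
      have h3 : p0 (T.mkQ (rho τ⁻¹ g)) = ⟨T.mkQ (rho τ⁻¹ g), h2⟩ :=
        LinearMap.congr_fun hp0 ⟨T.mkQ (rho τ⁻¹ g), h2⟩
      rw [h3, hrb, rho_rho, mul_inv_cancel, rho_one]
    rw [Finset.sum_congr rfl fun τ _ => h1 τ, Finset.sum_const, Finset.card_univ,
      Nat.cast_smul_eq_nsmul]
  have hc : ∀ g ∈ T, pi g = 0 := by
    intro g hg
    rw [hpi]
    refine Finset.sum_eq_zero fun τ _ => ?_
    have : T.mkQ (rho τ⁻¹ g) = 0 := by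
      rw [Submodule.mkQ_apply, Submodule.Quotient.mk_eq_zero]
      exact hTle τ⁻¹ hg
    rw [this, map_zero]
    simp
  have hd : ∀ σ g, pi (rho σ g) = rb σ (pi g) := by
    intro σ g
    rw [hpi, hpi, map_sum, ← Equiv.sum_comp (Equiv.mulLeft σ)]
    refine Finset.sum_congr rfl fun τ _ => ?_
    rw [hrb2, rho_rho]
    simp
  -- polynomials that are skew in blocks are killed
  have kill : ∀ q ∈ H F L.val, ∀ b : ℕ → Fin (max 1 (6 * k - 8)), (∀ i ∈ L, ∀ j ∈ L, i ≠ j → b i = b j →
      pi (relabel (Equiv.swap i j) q + q) = 0) → pi q = 0 := by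
    intro q _ b hsw
    have hgen : ∀ n : ℕ, ∀ τ : Equiv.Perm L, τ.support.card = n → (∀ i, b (τ i) = b i) →
        pi (rho τ q) = ((Equiv.Perm.sign τ : ℤ) : F) • pi q := by
      intro n
      induction n using Nat.strong_induction_on with
      | _ n ih =>
        intro τ hτ hbτ
        by_cases h1 : τ = 1
        · subst h1
          rw [rho_one]
          simp
        · obtain ⟨i, hi⟩ : ∃ i, τ i ≠ i := by
            by_contra hcon
            push Not at hcon
            exact h1 (Equiv.ext hcon)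
          set s := Equiv.swap i (τ i) with hs
          have hlt := Equiv.Perm.card_support_swap_mul hi
          have hb' : ∀ j, b ((s * τ) j) = b j := by
            intro j
            rw [Equiv.Perm.mul_apply]
            by_cases h2 : τ j = i
            · rw [h2, hs, Equiv.swap_apply_left, hbτ i, ← hbτ j, h2]
            · by_cases h3 : τ j = τ i
              · have h4 : j = i := τ.injective h3
                rw [h4, hs, Equiv.swap_apply_right]
              · rw [hs, Equiv.swap_apply_of_ne_of_ne h2 h3, hbτ j]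
          have h5 := ih _ (hτ ▸ hlt) (s * τ) rfl hb'
          have h6 : rho τ q = rho s (rho (s * τ) q) := by
            rw [rho_rho, ← mul_assoc, hs, Equiv.swap_mul_self, one_mul]
          have h7 : rho s q = relabel (Equiv.swap (i : ℕ) (τ i : ℕ)) q := by
            rw [rho_apply, hs, Equiv.Perm.ofSubtype_swap_eq]
          have h8 : pi (rho s q) = - pi q := by
            have h9 := hsw i i.2 (τ i) (τ i).2 (fun h => hi (Subtype.ext h.symm)) (hbτ i).symm
            rw [map_add, ← h7] at h9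
            exact eq_neg_of_add_eq_zero_left h9
          have h10 : ((Equiv.Perm.sign τ : ℤ) : F) = - ((Equiv.Perm.sign (s * τ) : ℤ) : F) := by
            rw [map_mul, hs, Equiv.Perm.sign_swap (Ne.symm hi)]
            simp
          rw [h6, hd, h5, map_smul, ← hd, h8, h10, smul_neg, neg_smul]
    obtain ⟨g, hg, hgq⟩ := ha q
    have h1 : FreeNonUnitalNonAssocAlgebra.lift F x g = 0 := by
      refine ev_eq_zero x L hg.1 ((hE g).1 hg.2) b fun τ hτ => ?_
      have h2 : T.mkQ (rho τ g - ((Equiv.Perm.sign τ : ℤ) : F) • g) = 0 := by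
        rw [map_sub, map_smul, ← hrb, hgq, ← hd, hgen _ τ rfl hτ, sub_self]
      rw [Submodule.mkQ_apply, Submodule.Quotient.mk_eq_zero] at h2
      have h3 := h2 x
      rw [map_sub, map_smul, sub_eq_zero] at h3
      exact h3
    rw [← hgq, Submodule.mkQ_apply, Submodule.Quotient.mk_eq_zero]
    exact hx g h1
  -- all words are killed
  have words : ∀ n : ℕ, ∀ w, letters w = L.val → k ≤ ch w + n → pi (word F w) = 0 := by
    intro n
    induction n with
    | zero => intro w _ h; exact hc _ (hk w (by simpa using h))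
    | succ n ih =>
      intro w hw hn
      by_cases hkw : k ≤ ch w
      · exact hc _ (hk w hkw)
      · have hWd : ∀ g ∈ Wd F C L.val (ch w + 1), pi g = 0 := by
          intro g hg
          obtain ⟨g1, hg1, g2, hg2, rfl⟩ := Submodule.mem_sup.1 hg
          rw [map_add, hc g1 hg1, zero_add]
          have : Hw F L.val (ch w + 1) ≤ LinearMap.ker pi := by
            refine Submodule.span_le.2 ?_
            rintro y ⟨u, hu, hu2, rfl⟩
            exact ih u hu (by omega)
          exact this hg2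
        rcases ch_pos_or w with ⟨a, rfl⟩ | hw1
        · rw [letters_of] at hw
          refine kill _ ?_ (fun _ => ⟨0, by omega⟩) ?_
          · rw [← hw]
            exact word_mem_H (.of a)
          · intro i hi j hj hij
            exfalso
            have hi' : i ∈ L.val := hi
            have hj' : j ∈ L.val := hj
            rw [← hw, Multiset.mem_singleton] at hi' hj'
            exact hij (hi'.trans hj'.symm)
        · have hNS := word_NS (F := F) hA w (by rw [hw]; exact L.nodup) hw1
          rw [hw] at hNS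
          obtain ⟨g1, hg1, g2, hg2, hg⟩ := Submodule.mem_sup.1 hNS
          rw [← hg, map_add, hWd g2 hg2, add_zero]
          have : Submodule.span F {q | NF C (ch w) (6 * ch w - 4) L.val q} ≤ LinearMap.ker pi := by
            refine Submodule.span_le.2 ?_
            intro q hq
            obtain ⟨hq1, b, hb1, hb2⟩ := BS_of_NF hA L.nodup hq
            rw [SetLike.mem_coe, LinearMap.mem_ker]
            refine kill q (Hw_le_H _ _ hq1)
              (fun i => if h : i ∈ L then ⟨b i, by have := hb1 i h; omega⟩ else ⟨0, by omega⟩) ?_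
            intro i hi j hj hij hbij
            rw [dif_pos hi, dif_pos hj, Fin.mk.injEq] at hbij
            exact hWd _ (hb2 i hi j hj hij hbij)
          exact this hg1
  have hall : H F L.val ≤ LinearMap.ker pi := by
    refine Submodule.span_le.2 ?_
    rintro y ⟨u, hu, rfl⟩
    exact words k u hu (by omega)
  have hfJ : f ∈ J0 := ⟨hf, (hE f).2 hid⟩
  have h1 : pi f = 0 := hall hf
  rw [hb f hfJ] at h1
  have h2 := (smul_eq_zero.1 h1).resolve_left (Nat.cast_ne_zero.2 Fintype.card_ne_zero)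
  rw [Submodule.mkQ_apply, Submodule.Quotient.mk_eq_zero] at h2
  exact h2

end core

/-- The variety defined by `S` is generated by the Grassmann envelope of a superalgebra that is
generated by `s` odd elements (and no even ones). -/
def HasOddSuperrankLE (F : Type) [Field F] (S : Set (NAPoly F)) (s : ℕ) : Prop :=
  ∃ (A : Type) (_ : NonUnitalNonAssocRing A) (_ : Module F A) (_ : IsScalarTower F A A)
    (_ : SMulCommClass F A A) (𝒜 : ZMod 2 → Submodule F A), IsSuperalgebra F A 𝒜 ∧
    (∃ y : Fin s → A, (∀ i, y i ∈ 𝒜 1) ∧ NonUnitalAlgebra.adjoin F (Set.range y) = ⊤) ∧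
    ∀ (C : Type) [NonUnitalNonAssocRing C] [Module F C] [IsScalarTower F C C]
      [SMulCommClass F C C],
      Satisfies F C S ↔ ∀ f : NAPoly F, IsEnvelopeIdentity 𝒜 f → IsIdentity F C f

lemma HasOddSuperrankLE.finite {S : Set (NAPoly F)} {s : ℕ} (h : HasOddSuperrankLE F S s) :
    HasFiniteBasicSuperrank F S := by
  classical
  obtain ⟨A, i1, i2, i3, i4, 𝒜, hA, ⟨y, _, hy⟩, h⟩ := h
  exact ⟨A, i1, i2, i3, i4, 𝒜, hA, ⟨Finset.univ.image y, by simpa using hy⟩, h⟩

/-- Every variety of alternative algebras over a field of characteristic zero in which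
`(A²)ᵏ = 0` is generated by the Grassmann envelope of a superalgebra with `max 1 (6k - 8)` odd
generators. -/
theorem odd_superrank [CharZero F] (S : Set (NAPoly F)) (k : ℕ) (hk0 : 0 < k)
    (hS : ∀ (C : Type) [NonUnitalNonAssocRing C] [Module F C] [IsScalarTower F C C]
      [SMulCommClass F C C], Satisfies F C S →
      IsAlt C ∧ ∀ x : C, ProdOf (A2 F C : Set C) k x → x = 0) :
    HasOddSuperrankLE F S (max 1 (6 * k - 8)) := by
  obtain ⟨C, i1, i2, i3, i4, x, hCS, hx⟩ := exists_generic S
  obtain ⟨hA, hk⟩ := hS C hCS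
  have hw := word_identity hA hk0 hk
  have hx' : ∀ f : NAPoly F, FreeNonUnitalNonAssocAlgebra.lift F x f = 0 → IsIdentity F C f := fun f hf => hx f hf C hCS
  refine ⟨SA F (max 1 (6 * k - 8)) x, inferInstance, inferInstance, inferInstance, inferInstance,
    SAp F (max 1 (6 * k - 8)) x, isSuper _ x, ⟨yA x, fun i => yA_mem x i, SA_fg' _ x⟩, ?_⟩
  intro B _ _ _ _
  constructor
  · intro hB f hf
    have h1 : IsIdentity F (envelope (isSuper (F := F) (max 1 (6 * k - 8)) x)) f :=
      (isEnvelopeIdentity_iff _ f).1 hf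
    have h2 : IsIdentity F C f := by
      refine identity_of_multilinear (fun L g hg hgE => ?_) h1
      exact core hA hx' hw L hg ((isEnvelopeIdentity_iff _ g).2 hgE)
    exact hx f (h2 x) B hB
  · intro h f hf
    exact h f (envelope_identity _ x (hCS f hf))

/-- Every variety of alternative algebras over a field of characteristic zero in which the square
of every algebra is nilpotent has finite basic superrank. -/
theorem finite_superrank [CharZero F] (S : Set (NAPoly F))
    (hS : ∀ (C : Type) [NonUnitalNonAssocRing C] [Module F C] [IsScalarTower F C C]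
      [SMulCommClass F C C], Satisfies F C S → IsAlt C ∧ NilpotentSquare F C) :
    HasFiniteBasicSuperrank F S := by
  obtain ⟨C, i1, i2, i3, i4, x, hCS, hx⟩ := exists_generic S
  obtain ⟨hA, k, hk0, hk⟩ := hS C hCS
  have hw := word_identity hA hk0 hk
  have hx' : ∀ f : NAPoly F, FreeNonUnitalNonAssocAlgebra.lift F x f = 0 → IsIdentity F C f := fun f hf => hx f hf C hCS
  refine ⟨SA F (max 1 (6 * k - 8)) x, inferInstance, inferInstance, inferInstance, inferInstance,
    SAp F (max 1 (6 * k - 8)) x, isSuper _ x, SA_fg _ x, ?_⟩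
  intro B _ _ _ _
  constructor
  · intro hB f hf
    have h1 : IsIdentity F (envelope (isSuper (F := F) (max 1 (6 * k - 8)) x)) f :=
      (isEnvelopeIdentity_iff _ f).1 hf
    have h2 : IsIdentity F C f := by
      refine identity_of_multilinear (fun L g hg hgE => ?_) h1
      exact core hA hx' hw L hg ((isEnvelopeIdentity_iff _ g).2 hgE)
    exact hx f (h2 x) B hB
  · intro h f hf
    exact h f (envelope_identity _ x (hCS f hf))

end Pool.Agent.SRAlt
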