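import Pool.Agent.SRAlt.CI5
import Pool.Agent.SRAlt.Final

set_option autoImplicit false

open scoped TensorProduct

namespace Pool.Agent.SRAlt

open Pool.Agent.Superrank

variable {F : Type} [Field F]

variable {C : Type} [NonUnitalNonAssocRing C] [Module F C] [IsScalarTower F C C]
  [SMulCommClass F C C]

variable (F) in
/-- the component of `JJ r` with letters `μ` -/
noncomputable def JJc (r : ℕ) (μ : Multiset ℕ) : Submodule F (NAPoly F) :=
  Submodule.span F {q | ∃ s, r ≤ s ∧ Dfn F s μ q}

lemma JJc_H {r : ℕ} {μ : Multiset ℕ} {q : NAPoly F} (h : q ∈ JJc F r μ) : q ∈ H F μ := by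
  refine (Submodule.span_le.2 ?_) h
  rintro q ⟨s, _, h⟩
  exact Dfn_H h

/-- the homogeneous component of an element of `W r` -/
lemma W_component [CharZero F] {r : ℕ} {μ : Multiset ℕ} {g : NAPoly F} (hg : g ∈ H F μ)
    (hW : g ∈ W F C r) : ∃ j ∈ JJc F r μ, g - j ∈ idents F C := by
  classical
  obtain ⟨t, ht, j, hj, rfl⟩ := Submodule.mem_sup.1 hW
  have h1 : j ∈ ⨆ m, JJc F r m := by
    refine (Submodule.span_le.2 ?_) hj
    rintro x ⟨s, m, hs, hx⟩
    exact Submodule.mem_iSup_of_mem m (Submodule.subset_span ⟨s, hs, hx⟩)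
  obtain ⟨c, hc, hs⟩ := (Submodule.mem_iSup_iff_exists_finsupp _ _).1 h1
  refine ⟨c μ, hc μ, ?_⟩
  have h2 : ∑ m ∈ insert μ c.support, ((if m = μ then t + j else 0) - c m) ∈ idents F C := by
    rw [Finset.sum_sub_distrib, Finset.sum_ite_eq' (insert μ c.support) μ (fun _ => t + j),
      if_pos (Finset.mem_insert_self _ _)]
    have h3 : ∑ m ∈ insert μ c.support, c m = j := by
      rw [← hs, Finsupp.sum]
      refine (Finset.sum_subset (Finset.subset_insert _ _) ?_).symm
      intro m _ hm
      exact Finsupp.notMem_support_iff.1 hm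
    rw [h3, add_sub_cancel_right]
    exact ht
  have h4 := component_identity (F := F) (C := C) _ _ rfl
    (fun m => (if m = μ then t + j else 0) - c m) (fun m => by
      by_cases hm : m = μ
      · rw [if_pos hm, hm]
        exact sub_mem hg (JJc_H (hc μ))
      · rw [if_neg hm, zero_sub]
        exact neg_mem (JJc_H (hc m))) h2 μ (Finset.mem_insert_self _ _)
  simpa using h4

theorem core2 [CharZero F] (hA : IsAlt C) {x : ℕ → C}
    (hx : ∀ f : NAPoly F, FreeNonUnitalNonAssocAlgebra.lift F x f = 0 → IsIdentity F C f) {k : ℕ}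
    (hk : JJ F k ≤ idents F C) (L : Finset ℕ) {f : NAPoly F}
    (hf : f ∈ H F L.val) (hid : IsEnvelopeIdentity (SAp2 F (max 1 (9 * k - 12)) x) f) :
    IsIdentity F C f := by
  classical
  set K := max 1 (9 * k - 12) with hK
  have hK1 : 1 ≤ K := le_max_left _ _
  set T := idents F C with hT
  let E := idents F (envelope (isSuper2 (F := F) K x))
  have hE : ∀ g, g ∈ E ↔ IsEnvelopeIdentity (SAp2 F K x) g := fun g =>
    (isEnvelopeIdentity_iff (isSuper2 (F := F) K x) g).symm
  let J0 : Submodule F (NAPoly F) := H F L.val ⊓ E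
  let J : Submodule F (NAPoly F ⧸ T) := J0.map T.mkQ
  obtain ⟨p0, hp0⟩ := J.subtype.exists_leftInverse_of_injective (Submodule.ker_subtype J)
  have hTle : ∀ τ : Equiv.Perm L, T ≤ T.comap (rho τ) := fun τ g hg =>
    identity_relabel (F := F) (C := C) hg (Equiv.Perm.ofSubtype τ)
  let rb : Equiv.Perm L → (NAPoly F ⧸ T) →ₗ[F] (NAPoly F ⧸ T) := fun τ => T.mapQ T (rho τ) (hTle τ)
  have hrb : ∀ τ g, rb τ (T.mkQ g) = T.mkQ (rho τ g) := fun τ g => rfl
  have hrb2 : ∀ σ τ q, rb σ (rb τ q) = rb (σ * τ) q := by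
    intro σ τ q
    obtain ⟨g, rfl⟩ := T.mkQ_surjective q
    rw [hrb, hrb, hrb, rho_rho]
  let pi : NAPoly F →ₗ[F] (NAPoly F ⧸ T) :=
    ∑ τ : Equiv.Perm L, rb τ ∘ₗ J.subtype ∘ₗ p0 ∘ₗ T.mkQ ∘ₗ rho τ⁻¹
  have hpi : ∀ g, pi g = ∑ τ : Equiv.Perm L, rb τ (p0 (T.mkQ (rho τ⁻¹ g)) : NAPoly F ⧸ T) := by
    intro g
    simp only [pi, LinearMap.sum_apply]
    rfl
  have hJ0 : ∀ τ g, g ∈ J0 → rho τ g ∈ J0 := fun τ g hg =>
    ⟨rho_H τ hg.1, identity_relabel (F := F) hg.2 (Equiv.Perm.ofSubtype τ)⟩
  have hrbJ : ∀ τ, ∀ q ∈ J, rb τ q ∈ J := by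
    rintro τ q ⟨g, hg, rfl⟩
    exact ⟨rho τ g, hJ0 τ g hg, rfl⟩
  have ha : ∀ g, pi g ∈ J := by
    intro g
    rw [hpi]
    exact sum_mem fun τ _ => hrbJ τ _ (p0 _).2
  have hb : ∀ g ∈ J0, pi g = (Fintype.card (Equiv.Perm L) : F) • T.mkQ g := by
    intro g hg
    rw [hpi]
    have h1 : ∀ τ : Equiv.Perm L, rb τ (p0 (T.mkQ (rho τ⁻¹ g)) : NAPoly F ⧸ T) = T.mkQ g := by
      intro τ
      have h2 : T.mkQ (rho τ⁻¹ g) ∈ J := ⟨_, hJ0 τ⁻¹ g hg, rfl⟩
      have h3 : p0 (T.mkQ (rho τ⁻¹ g)) = ⟨T.mkQ (rho τ⁻¹ g), h2⟩ :=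
        LinearMap.congr_fun hp0 ⟨T.mkQ (rho τ⁻¹ g), h2⟩
      rw [h3, hrb, rho_rho, mul_inv_cancel, rho_one]
    rw [Finset.sum_congr rfl fun τ _ => h1 τ, Finset.sum_const, Finset.card_univ,
      Nat.cast_smul_eq_nsmul]
  have hc : ∀ g ∈ T, pi g = 0 := by
    intro g hg
    rw [hpi]
    refine Finset.sum_eq_zero fun τ _ => ?_
    have : T.mkQ (rho τ⁻¹ g) = 0 := by
      rw [Submodule.mkQ_apply, Submodule.Quotient.mk_eq_zero]
      exact hTle τ⁻¹ hg
    rw [this, map_zero]
    simp
  have hd : ∀ σ g, pi (rho σ g) = rb σ (pi g) := by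
    intro σ g
    rw [hpi, hpi, map_sum, ← Equiv.sum_comp (Equiv.mulLeft σ)]
    refine Finset.sum_congr rfl fun τ _ => ?_
    rw [hrb2, rho_rho]
    simp
  -- polynomials with a block structure are killed
  have kill : ∀ q : NAPoly F, ∀ b : ℕ → Fin K × Bool, (∀ i ∈ L, ∀ j ∈ L, i ≠ j → b i = b j →
      pi (relabel (Equiv.swap i j) q - sg F (b i).2 • q) = 0) → pi q = 0 := by
    intro q b hsw
    have hgen : ∀ n : ℕ, ∀ τ : Equiv.Perm L, τ.support.card = n → (∀ i, b (τ i) = b i) →
        ∃ c : F, c * c = 1 ∧ pi (rho τ q) = c • pi q ∧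
          (∏ k : L, zt (F := F) (b k).2 k (τ k) : Rc F) = c • ∏ k : L, zt (F := F) (b k).2 k k := by
      intro n
      induction n using Nat.strong_induction_on with
      | _ n ih =>
        intro τ hτ hbτ
        by_cases h1 : τ = 1
        · subst h1
          refine ⟨1, one_mul _, ?_, ?_⟩
          · rw [rho_one, one_smul]
          · rw [one_smul]
            rfl
        · obtain ⟨i, hi⟩ : ∃ i, τ i ≠ i := by
            by_contra hcon
            push Not at hcon
            exact h1 (Equiv.ext hcon)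
          set s := Equiv.swap i (τ i) with hs
          have hlt := Equiv.Perm.card_support_swap_mul hi
          have hb' : ∀ j, b ((s * τ) j) = b j := by
            intro j
            rw [Equiv.Perm.mul_apply]
            by_cases h2 : τ j = i
            · rw [h2, hs, Equiv.swap_apply_left, hbτ i, ← hbτ j, h2]
            · by_cases h3 : τ j = τ i
              · have h4 : j = i := τ.injective h3
                rw [h4, hs, Equiv.swap_apply_right]
              · rw [hs, Equiv.swap_apply_of_ne_of_ne h2 h3, hbτ j]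
          obtain ⟨c, hcc, h5, h5'⟩ := ih _ (hτ ▸ hlt) (s * τ) rfl hb'
          have hst : s * (s * τ) = τ := by
            rw [← mul_assoc, hs, Equiv.swap_mul_self, one_mul]
          have h6 : rho τ q = rho s (rho (s * τ) q) := by
            rw [rho_rho, hst]
          have h7 : rho s q = relabel (Equiv.swap (i : ℕ) (τ i : ℕ)) q := by
            rw [rho_apply, hs, Equiv.Perm.ofSubtype_swap_eq]
          have h8 : pi (rho s q) = sg F (b i).2 • pi q := by
            have h9 := hsw i i.2 (τ i) (τ i).2 (fun h => hi (Subtype.ext h.symm)) (hbτ i).symm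
            rw [map_sub, ← h7, map_smul] at h9
            exact sub_eq_zero.1 h9
          refine ⟨sg F (b i).2 * c, ?_, ?_, ?_⟩
          · calc sg F (b i).2 * c * (sg F (b i).2 * c) =
                (sg F (b i).2 * sg F (b i).2) * (c * c) := by ring
              _ = 1 := by rw [sg_sq, hcc, one_mul]
          · rw [h6, hd, h5, map_smul, ← hd, h8, smul_smul, mul_comm c]
          · have h9 := prod_zt_swap (F := F) b (s * τ) hb' i (τ i) (Ne.symm hi) (hbτ i).symm
            rw [← hs, hst, h5', smul_smul] at h9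
            exact h9
    obtain ⟨g, hg, hgq⟩ := ha q
    have h1 : FreeNonUnitalNonAssocAlgebra.lift F x g = 0 := by
      refine ev_eq_zero2 x L hg.1 ((hE g).1 hg.2) b fun τ hτ => ?_
      obtain ⟨c, hcc, h5, h5'⟩ := hgen _ τ rfl hτ
      refine ⟨c, hcc, ?_, h5'⟩
      have h2 : T.mkQ (rho τ g - c • g) = 0 := by
        rw [map_sub, map_smul, ← hrb, hgq, ← hd, h5, sub_self]
      rw [Submodule.mkQ_apply, Submodule.Quotient.mk_eq_zero] at h2
      have h3 := h2 x
      rw [map_sub, map_smul, sub_eq_zero] at h3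
      exact h3
    rw [← hgq, Submodule.mkQ_apply, Submodule.Quotient.mk_eq_zero]
    exact hx g h1
  -- products with commutators and associators are killed
  have hZ : ∀ n r : ℕ, 1 ≤ r → k ≤ r + n → ∀ g ∈ H F L.val, g ∈ W F C r → pi g = 0 := by
    intro n
    induction n with
    | zero =>
      intro r hr hkr g _ hg
      have h1 : W F C r ≤ T := by
        refine sup_le le_rfl ((JJ_anti ?_).trans hk)
        omega
      exact hc g (h1 hg)
    | succ n ih =>
      intro r hr hkr g hgH hgW
      by_cases hkr' : k ≤ r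
      · have h1 : W F C r ≤ T := sup_le le_rfl ((JJ_anti hkr').trans hk)
        exact hc g (h1 hgW)
      have hZ1 := ih (r + 1) (by omega) (by omega)
      obtain ⟨j, hj, hgj⟩ := W_component hgH hgW
      have e : g = (g - j) + j := by abel
      rw [e, map_add, hc _ hgj, zero_add]
      have hker : JJc F r L.val ≤ LinearMap.ker pi := by
        refine Submodule.span_le.2 ?_
        rintro q ⟨s, hs, hq⟩
        rw [SetLike.mem_coe, LinearMap.mem_ker]
        by_cases hsr : r + 1 ≤ s
        · exact hZ1 q (Dfn_H hq) (W_anti hsr (JJ_le_W (Dfn_JJ hq)))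
        · have hsr' : s = r := by omega
          subst hsr'
          have hNS := (Dfn_NS2 (C := C) hA hq L.nodup).2 hr
          obtain ⟨g1, hg1, g2, hg2, hg⟩ := Submodule.mem_sup.1 hNS
          have hg1H : g1 ∈ H F L.val := by
            refine (Submodule.span_le.2 ?_) hg1
            intro y hy
            exact NF2_H hy
          have hg2H : g2 ∈ H F L.val := by
            have : g2 = q - g1 := by rw [← hg]; abel
            rw [this]
            exact sub_mem (Dfn_H hq) hg1H
          rw [← hg, map_add, hZ1 g2 hg2H hg2, add_zero]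
          have : Submodule.span F {q | NF2 C s (9 * s - 6) L.val q} ≤ LinearMap.ker pi := by
            refine Submodule.span_le.2 ?_
            intro y hy
            obtain ⟨hy1, hy2, b, t, hb1, hb2⟩ := BS2_of_NF2 hA L.nodup hy
            rw [SetLike.mem_coe, LinearMap.mem_ker]
            refine kill y (fun i => (if h : i ∈ L then ⟨b i, by
              have h3 := hb1 i h
              have h4 : 9 * k - 12 ≤ K := le_max_right _ _
              omega⟩ else ⟨0, by omega⟩, t (b i))) ?_
            intro i hi j hj hij hbij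
            simp only [Prod.mk.injEq] at hbij
            rw [dif_pos hi, dif_pos hj, Fin.mk.injEq] at hbij
            refine hZ1 _ ?_ (hb2 i hi j hj hij hbij.1)
            refine sub_mem ?_ (Submodule.smul_mem _ _ hy1)
            have h5 := rho_H (Equiv.swap (⟨i, hi⟩ : L) ⟨j, hj⟩) hy1
            rwa [rho_apply, Equiv.Perm.ofSubtype_swap_eq] at h5
          exact this hg1
      exact hker hj
  -- all words are killed
  have hall : H F L.val ≤ LinearMap.ker pi := by
    refine Submodule.span_le.2 ?_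
    rintro y ⟨w, hw, rfl⟩
    rw [SetLike.mem_coe, LinearMap.mem_ker]
    refine kill _ (fun _ => (⟨0, by omega⟩, false)) ?_
    intro i hi j hj hij _
    simp only [sg, Bool.false_eq_true, if_false, one_smul]
    obtain ⟨u, h1, h2⟩ := relabel_word_exists (F := F) (Equiv.swap i j) w
    have h3 : letters u = letters w := by
      rw [h1, hw, map_swap_eq L.nodup hi hj]
    have hu : word F u ∈ H F L.val := by
      have := word_mem_H (F := F) u
      rwa [h3, hw] at this
    have hww : word F w ∈ H F L.val := by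
      have := word_mem_H (F := F) w
      rwa [hw] at this
    rw [h2]
    exact hZ k 1 le_rfl (by omega) _ (sub_mem hu hww)
      (JJ_le_W (word_congr _ u w rfl h3))
  have hfJ : f ∈ J0 := ⟨hf, (hE f).2 hid⟩
  have h1 : pi f = 0 := hall hf
  rw [hb f hfJ] at h1
  have h2 := (smul_eq_zero.1 h1).resolve_left (Nat.cast_ne_zero.2 Fintype.card_ne_zero)
  rw [Submodule.mkQ_apply, Submodule.Quotient.mk_eq_zero] at h2
  exact h2

end Pool.Agent.SRAlt
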