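import Pool.Agent.Superrank.Super

set_option autoImplicit false

open scoped TensorProduct

namespace Pool.Agent.SRAlt

open Pool.Agent.Superrank

variable {F : Type} [Field F]

section hom

variable {R R' : Type} [Ring R] [Algebra F R] [Ring R'] [Algebra F R']
  {C C' : Type} [NonUnitalNonAssocRing C] [Module F C] [IsScalarTower F C C] [SMulCommClass F C C]
  [NonUnitalNonAssocRing C'] [Module F C'] [IsScalarTower F C' C'] [SMulCommClass F C' C']

/-- the tensor product of an algebra homomorphism and a nonassociative algebra homomorphism -/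
noncomputable def mapHom (φ : R →ₐ[F] R') (ψ : C →ₙₐ[F] C') : R ⊗[F] C →ₙₐ[F] R' ⊗[F] C' where
  toFun := TensorProduct.map φ.toLinearMap (ψ : C →ₗ[F] C')
  map_smul' := fun c x => by simp
  map_zero' := map_zero _
  map_add' := map_add _
  map_mul' := by
    intro x y
    induction x using TensorProduct.induction_on with
    | zero => simp
    | tmul k a =>
      induction y using TensorProduct.induction_on with
      | zero => simp
      | tmul l b => simp
      | add x y h1 h2 => rw [mul_add, map_add, map_add, mul_add, h1, h2]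
    | add x z h1 h2 => rw [add_mul, map_add, map_add, add_mul, h1, h2]

@[simp] lemma mapHom_tmul (φ : R →ₐ[F] R') (ψ : C →ₙₐ[F] C') (r : R) (c : C) :
    mapHom φ ψ (r ⊗ₜ c) = φ r ⊗ₜ ψ c := rfl

lemma mapHom_apply (φ : R →ₐ[F] R') (ψ : C →ₙₐ[F] C') (x : R ⊗[F] C) :
    mapHom φ ψ x = TensorProduct.map φ.toLinearMap (ψ : C →ₗ[F] C') x := rfl

/-- `F ⊗ C → C` -/
noncomputable def lidHom : F ⊗[F] C →ₙₐ[F] C where
  toFun := TensorProduct.lid F C
  map_smul' := fun c x => by simp
  map_zero' := map_zero _
  map_add' := map_add _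
  map_mul' := by
    intro x y
    induction x using TensorProduct.induction_on with
    | zero => simp
    | tmul k a =>
      induction y using TensorProduct.induction_on with
      | zero => simp
      | tmul l b => simp [mul_smul, smul_mul_assoc, mul_smul_comm, smul_comm k l]
      | add x y h1 h2 => rw [mul_add, map_add, map_add, mul_add, h1, h2]
    | add x z h1 h2 => rw [add_mul, map_add, map_add, add_mul, h1, h2]

@[simp] lemma lidHom_tmul (r : F) (c : C) : (lidHom (F := F) (C := C)) (r ⊗ₜ c) = r • c := by
  show TensorProduct.lid F C _ = _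
  simp

lemma lift_comp {X : Type} (Θ : C →ₙₐ[F] C') (v : X → C) (f : FreeNonUnitalNonAssocAlgebra F X) :
    FreeNonUnitalNonAssocAlgebra.lift F (fun i => Θ (v i)) f =
      Θ (FreeNonUnitalNonAssocAlgebra.lift F v f) := by
  have : Θ.comp (FreeNonUnitalNonAssocAlgebra.lift F v) =
      FreeNonUnitalNonAssocAlgebra.lift F (fun i => Θ (v i)) := by
    apply FreeNonUnitalNonAssocAlgebra.hom_ext
    intro i
    show Θ (FreeNonUnitalNonAssocAlgebra.lift F v (FreeNonUnitalNonAssocAlgebra.of F i)) = _
    rw [FreeNonUnitalNonAssocAlgebra.lift_of_apply, FreeNonUnitalNonAssocAlgebra.lift_of_apply]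
  exact (DFunLike.congr_fun this f).symm

end hom

section ext

variable {C : Type} [NonUnitalNonAssocRing C] [Module F C] [IsScalarTower F C C]
  [SMulCommClass F C C]

omit [IsScalarTower F C C] [SMulCommClass F C C] in
lemma mvpoly_tensor_eq_zero [Infinite F] {σ : Type} (u : MvPolynomial σ F ⊗[F] C)
    (h : ∀ a : σ → F, TensorProduct.lid F C
      (LinearMap.rTensor C (MvPolynomial.aeval a : MvPolynomial σ F →ₐ[F] F).toLinearMap u) = 0) :
    u = 0 := by
  classical
  let b := Module.Basis.ofVectorSpace F C
  have key : ∀ (a : σ → F) (u : MvPolynomial σ F ⊗[F] C) i,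
      MvPolynomial.eval a (TensorProduct.equivFinsuppOfBasisRight b u i) =
        b.repr (TensorProduct.lid F C (LinearMap.rTensor C
          (MvPolynomial.aeval a : MvPolynomial σ F →ₐ[F] F).toLinearMap u)) i := by
    intro a u i
    induction u using TensorProduct.induction_on with
    | zero => simp
    | tmul p c =>
      simp [MvPolynomial.smul_eval, MvPolynomial.aeval_eq_eval, mul_comm]
    | add x y h1 h2 => simp only [map_add, Finsupp.add_apply, h1, h2]
  apply (TensorProduct.equivFinsuppOfBasisRight b).injective
  rw [map_zero]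
  ext1 i
  rw [Finsupp.zero_apply]
  apply MvPolynomial.funext
  intro a
  rw [key a u i, h a]
  simp

/-- an identity of `C` is an identity of `R ⊗ C` for every commutative algebra `R` over an
infinite field -/
theorem identity_ext [Infinite F] (R : Type) [CommRing R] [Algebra F R] {f : NAPoly F}
    (hf : IsIdentity F C f) : IsIdentity F (R ⊗[F] C) f := by
  intro v
  let θ : MvPolynomial R F →ₐ[F] R := MvPolynomial.aeval (id : R → R)
  have hθ : Function.Surjective θ := fun r => ⟨MvPolynomial.X r, by simp [θ]⟩
  have hs : Function.Surjective (mapHom θ (NonUnitalAlgHom.id F C)) := by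
    have := TensorProduct.map_surjective (g := θ.toLinearMap)
      (g' := ((NonUnitalAlgHom.id F C : C →ₙₐ[F] C) : C →ₗ[F] C)) hθ (fun x => ⟨x, rfl⟩)
    exact this
  choose v' hv' using fun i => hs (v i)
  have h1 : v = fun i => mapHom θ (NonUnitalAlgHom.id F C) (v' i) := funext fun i => (hv' i).symm
  rw [h1, lift_comp]
  have h2 : FreeNonUnitalNonAssocAlgebra.lift F v' f = 0 := by
    apply mvpoly_tensor_eq_zero
    intro a
    have h3 := lift_comp ((lidHom (F := F) (C := C)).comp
      (mapHom (MvPolynomial.aeval a : MvPolynomial R F →ₐ[F] F) (NonUnitalAlgHom.id F C))) v' f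
    rw [hf] at h3
    exact h3.symm
  rw [h2, map_zero]

end ext

end Pool.Agent.SRAlt
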