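import Pool.Agent.SRAlt.Core2

set_option autoImplicit false

open scoped TensorProduct

namespace Pool.Agent.SRAlt

open Pool.Agent.Superrank

/-- The elements of the ideal of `B` generated by all commutators `x y - y x` and all associators
`(x y) z - x (y z)`. -/
inductive InCA (F : Type) [Field F] (B : Type) [NonUnitalNonAssocRing B] [Module F B] : B → Prop
  | comm (x y : B) : InCA F B (x * y - y * x)
  | assoc (x y z : B) : InCA F B ((x * y) * z - x * (y * z))
  | add {x y : B} : InCA F B x → InCA F B y → InCA F B (x + y)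
  | smul (c : F) {x : B} : InCA F B x → InCA F B (c • x)
  | mul_right {x : B} (z : B) : InCA F B x → InCA F B (x * z)
  | mul_left {x : B} (z : B) : InCA F B x → InCA F B (z * x)

/-- The ideal of `B` generated by all commutators and all associators is nilpotent: for some
`k ≥ 1` all products of `k` elements of the ideal (with every arrangement of brackets) are zero. -/
def NilpotentCA (F : Type) [Field F] (B : Type) [NonUnitalNonAssocRing B] [Module F B] : Prop :=
  ∃ k : ℕ, 0 < k ∧ ∀ x : B, ProdOf {z : B | InCA F B z} k x → x = 0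

variable {F : Type} [Field F]

variable {C : Type} [NonUnitalNonAssocRing C] [Module F C] [IsScalarTower F C C]
  [SMulCommClass F C C]

variable (F C) in
/-- the span of the products of `k` elements of the ideal -/
noncomputable def PI (k : ℕ) : Submodule F C :=
  Submodule.span F {x | ProdOf {z : C | InCA F C z} k x}

lemma PI_mul {i j : ℕ} {x y : C} (hx : x ∈ PI F C i) (hy : y ∈ PI F C j) :
    x * y ∈ PI F C (i + j) := by
  induction hx using Submodule.span_induction with
  | mem x hx =>
    induction hy using Submodule.span_induction with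
    | mem y hy => exact Submodule.subset_span (ProdOf.mul hx hy)
    | zero => rw [mul_zero]; exact zero_mem _
    | add y z _ _ h1 h2 => rw [mul_add]; exact add_mem h1 h2
    | smul c y _ h1 => rw [mul_smul_comm]; exact Submodule.smul_mem _ _ h1
  | zero => rw [zero_mul]; exact zero_mem _
  | add y z _ _ h1 h2 => rw [add_mul]; exact add_mem h1 h2
  | smul c y _ h1 => rw [smul_mul_assoc]; exact Submodule.smul_mem _ _ h1

lemma prodOf_ideal2 (hC : IsAlt C) {n : ℕ} {x : C} (hx : ProdOf {z : C | InCA F C z} n x) (z : C) :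
    x * z ∈ PI F C n ∧ z * x ∈ PI F C n := by
  induction hx generalizing z with
  | one h =>
    exact ⟨Submodule.subset_span (ProdOf.one (InCA.mul_right z h)),
      Submodule.subset_span (ProdOf.one (InCA.mul_left z h))⟩
  | @mul i j x y hx hy ihx ihy =>
    have hx' : x ∈ PI F C i := Submodule.subset_span hx
    have hy' : y ∈ PI F C j := Submodule.subset_span hy
    constructor
    · have h := alt_right hC x y z
      have : x * y * z = x * (y * z) - (x * z) * y + x * (z * y) := by
        have h2 : x * y * z - (x * (y * z) - (x * z) * y + x * (z * y)) = 0 := by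
          rw [← h]; abel
        exact sub_eq_zero.1 h2
      rw [this]
      exact add_mem (sub_mem (PI_mul hx' (ihy z).1) (PI_mul (ihx z).1 hy'))
        (PI_mul hx' (ihy z).2)
    · have h := alt_left hC z x y
      have : z * (x * y) = (z * x) * y + (x * z) * y - x * (z * y) := by
        have h2 : (z * x) * y + (x * z) * y - x * (z * y) - z * (x * y) = 0 := by
          rw [← h]; abel
        exact (sub_eq_zero.1 h2).symm
      rw [this]
      exact sub_mem (add_mem (PI_mul (ihx z).2 hy') (PI_mul (ihx z).1 hy'))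
        (PI_mul hx' (ihy z).2)

lemma PI_mul_right (hC : IsAlt C) {n : ℕ} {x : C} (hx : x ∈ PI F C n) (z : C) :
    x * z ∈ PI F C n := by
  induction hx using Submodule.span_induction with
  | mem x hx => exact (prodOf_ideal2 hC hx z).1
  | zero => rw [zero_mul]; exact zero_mem _
  | add y w _ _ h1 h2 => rw [add_mul]; exact add_mem h1 h2
  | smul c y _ h1 => rw [smul_mul_assoc]; exact Submodule.smul_mem _ _ h1

lemma PI_mul_left (hC : IsAlt C) {n : ℕ} {x : C} (hx : x ∈ PI F C n) (z : C) :
    z * x ∈ PI F C n := by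
  induction hx using Submodule.span_induction with
  | mem x hx => exact (prodOf_ideal2 hC hx z).2
  | zero => rw [mul_zero]; exact zero_mem _
  | add y w _ _ h1 h2 => rw [mul_add]; exact add_mem h1 h2
  | smul c y _ h1 => rw [mul_smul_comm]; exact Submodule.smul_mem _ _ h1

lemma prodOf_pos2 {P : Set C} {n : ℕ} {x : C} (hx : ProdOf P n x) : 1 ≤ n := by
  induction hx with
  | one _ => exact le_rfl
  | mul _ _ h1 _ => omega

lemma prodOf_anti2 (hC : IsAlt C) {n : ℕ} {x : C} (hx : ProdOf {z : C | InCA F C z} n x) :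
    ∀ m, 1 ≤ m → m ≤ n → x ∈ PI F C m := by
  induction hx with
  | one h =>
    intro m h1 h2
    have : m = 1 := by omega
    rw [this]
    exact Submodule.subset_span (ProdOf.one h)
  | @mul i j x y hx hy ihx ihy =>
    intro m h1 h2
    have hi := prodOf_pos2 hx
    by_cases hm : m ≤ i
    · exact PI_mul_right hC (ihx m h1 hm) y
    · have := PI_mul (ihx i hi le_rfl) (ihy (m - i) (by omega) (by omega))
      rwa [show i + (m - i) = m by omega] at this

lemma PI_anti (hC : IsAlt C) {m n : ℕ} (h1 : 1 ≤ m) (h2 : m ≤ n) : PI F C n ≤ PI F C m :=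
  Submodule.span_le.2 fun _ hx => prodOf_anti2 hC hx m h1 h2

lemma ev_Dfn_PI (hC : IsAlt C) (v : ℕ → C) {r : ℕ} {μ : Multiset ℕ} {q : NAPoly F}
    (h : Dfn F r μ q) (hr : 1 ≤ r) : FreeNonUnitalNonAssocAlgebra.lift F v q ∈ PI F C r := by
  induction h with
  | letter a => omega
  | @mul i j α β p q _ _ h1 h2 =>
    rw [map_mul]
    by_cases hi : i = 0
    · have := PI_mul_left hC (h2 (by omega)) (FreeNonUnitalNonAssocAlgebra.lift F v p)
      rwa [hi, zero_add]
    · by_cases hj : j = 0
      · have := PI_mul_right hC (h1 (by omega)) (FreeNonUnitalNonAssocAlgebra.lift F v q)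
        rwa [hj, add_zero]
      · exact PI_mul (h1 (by omega)) (h2 (by omega))
  | comm u w =>
    rw [map_sub, map_mul, map_mul]
    exact Submodule.subset_span (ProdOf.one (InCA.comm _ _))
  | assoc u w z =>
    rw [map_sub, map_mul, map_mul, map_mul, map_mul]
    exact Submodule.subset_span (ProdOf.one (InCA.assoc _ _ _))

lemma JJ_identity (hC : IsAlt C) {k : ℕ} (hk : 0 < k)
    (h : ∀ x : C, ProdOf {z : C | InCA F C z} k x → x = 0) : JJ F k ≤ idents F C := by
  refine Submodule.span_le.2 ?_
  rintro q ⟨s, μ, hs, hq⟩ v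
  have h1 := PI_anti hC hk hs (ev_Dfn_PI hC v hq (by omega))
  have h2 : PI F C k ≤ ⊥ := Submodule.span_le.2 fun x hx => h x hx
  exact (Submodule.mem_bot F).1 (h2 h1)

/-- The variety defined by `S` is generated by the Grassmann envelope of a superalgebra that is
generated by `r` even elements and `s` odd elements. -/
def HasSuperrankLE (F : Type) [Field F] (S : Set (NAPoly F)) (r s : ℕ) : Prop :=
  ∃ (A : Type) (_ : NonUnitalNonAssocRing A) (_ : Module F A) (_ : IsScalarTower F A A)
    (_ : SMulCommClass F A A) (𝒜 : ZMod 2 → Submodule F A), IsSuperalgebra F A 𝒜 ∧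
    (∃ (x : Fin r → A) (y : Fin s → A), (∀ i, x i ∈ 𝒜 0) ∧ (∀ i, y i ∈ 𝒜 1) ∧
      NonUnitalAlgebra.adjoin F (Set.range x ∪ Set.range y) = ⊤) ∧
    ∀ (C : Type) [NonUnitalNonAssocRing C] [Module F C] [IsScalarTower F C C]
      [SMulCommClass F C C],
      Satisfies F C S ↔ ∀ f : NAPoly F, IsEnvelopeIdentity 𝒜 f → IsIdentity F C f

lemma HasSuperrankLE.finite {S : Set (NAPoly F)} {r s : ℕ} (h : HasSuperrankLE F S r s) :
    HasFiniteBasicSuperrank F S := by
  classical
  obtain ⟨A, i1, i2, i3, i4, 𝒜, hA, ⟨x, y, _, _, hy⟩, h⟩ := h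
  exact ⟨A, i1, i2, i3, i4, 𝒜, hA, ⟨Finset.univ.image x ∪ Finset.univ.image y, by simpa using hy⟩, h⟩

lemma HasOddSuperrankLE.toLE {S : Set (NAPoly F)} {s : ℕ} (h : HasOddSuperrankLE F S s) :
    HasSuperrankLE F S 0 s := by
  obtain ⟨A, i1, i2, i3, i4, 𝒜, hA, ⟨y, hy1, hy⟩, h⟩ := h
  refine ⟨A, i1, i2, i3, i4, 𝒜, hA, ⟨fun i => i.elim0, y, fun i => i.elim0, hy1, ?_⟩, h⟩
  rw [Set.range_eq_empty, Set.empty_union]
  exact hy

lemma SA2_fg' (K : ℕ) (x : ℕ → C) :
    NonUnitalAlgebra.adjoin F (Set.range (fun c : Fin K => yA2 (F := F) x (c, false)) ∪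
      Set.range (fun c : Fin K => yA2 (F := F) x (c, true))) = ⊤ := by
  rw [← SA2_fg (F := F) K x]
  congr 1
  ext a
  constructor
  · rintro (⟨c, rfl⟩ | ⟨c, rfl⟩)
    · exact ⟨_, rfl⟩
    · exact ⟨_, rfl⟩
  · rintro ⟨⟨c, t⟩, rfl⟩
    cases t
    · exact Or.inl ⟨c, rfl⟩
    · exact Or.inr ⟨c, rfl⟩

lemma generates2 [CharZero F] (S : Set (NAPoly F)) {k : ℕ} {x : ℕ → C} (hCS : Satisfies F C S)
    (hA : IsAlt C) (hk : JJ F k ≤ idents F C)
    (hx : ∀ f : NAPoly F, FreeNonUnitalNonAssocAlgebra.lift F x f = 0 → ∀ (B : Type)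
      [NonUnitalNonAssocRing B] [Module F B] [IsScalarTower F B B] [SMulCommClass F B B],
      Satisfies F B S → IsIdentity F B f) :
    HasSuperrankLE F S (max 1 (9 * k - 12)) (max 1 (9 * k - 12)) := by
  have hx' : ∀ f : NAPoly F, FreeNonUnitalNonAssocAlgebra.lift F x f = 0 → IsIdentity F C f :=
    fun f hf => hx f hf C hCS
  refine ⟨SA2 F (max 1 (9 * k - 12)) x, inferInstance, inferInstance, inferInstance, inferInstance,
    SAp2 F (max 1 (9 * k - 12)) x, isSuper2 _ x,
    ⟨fun c => yA2 x (c, false), fun c => yA2 x (c, true), fun c => yA2_mem x (c, false),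
      fun c => yA2_mem x (c, true), SA2_fg' _ x⟩, ?_⟩
  intro B _ _ _ _
  constructor
  · intro hB f hf
    have h1 : IsIdentity F (envelope (isSuper2 (F := F) (max 1 (9 * k - 12)) x)) f :=
      (isEnvelopeIdentity_iff _ f).1 hf
    have h2 : IsIdentity F C f := by
      refine identity_of_multilinear (fun L g hg hgE => ?_) h1
      exact core2 hA hx' hk L hg ((isEnvelopeIdentity_iff _ g).2 hgE)
    exact hx f (h2 x) B hB
  · intro h f hf
    exact h f (envelope_identity2 _ x (hCS f hf))

/-- Every variety of alternative algebras over a field of characteristic zero in which the `k`-th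
power of the ideal generated by commutators and associators is zero is generated by the Grassmann
envelope of a superalgebra with `max 1 (9k - 12)` even and as many odd generators. -/
theorem superrank2 [CharZero F] (S : Set (NAPoly F)) (k : ℕ) (hk0 : 0 < k)
    (hS : ∀ (C : Type) [NonUnitalNonAssocRing C] [Module F C] [IsScalarTower F C C]
      [SMulCommClass F C C], Satisfies F C S →
      IsAlt C ∧ ∀ x : C, ProdOf {z : C | InCA F C z} k x → x = 0) :
    HasSuperrankLE F S (max 1 (9 * k - 12)) (max 1 (9 * k - 12)) := by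
  obtain ⟨C, i1, i2, i3, i4, x, hCS, hx⟩ := exists_generic S
  obtain ⟨hA, hk⟩ := hS C hCS
  exact generates2 S hCS hA (JJ_identity hA hk0 hk) hx

/-- Every variety of alternative algebras over a field of characteristic zero in which the ideal
generated by commutators and associators of every algebra is nilpotent has finite basic
superrank. -/
theorem finite_superrank2 [CharZero F] (S : Set (NAPoly F))
    (hS : ∀ (C : Type) [NonUnitalNonAssocRing C] [Module F C] [IsScalarTower F C C]
      [SMulCommClass F C C], Satisfies F C S → IsAlt C ∧ NilpotentCA F C) :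
    HasFiniteBasicSuperrank F S := by
  obtain ⟨C, i1, i2, i3, i4, x, hCS, hx⟩ := exists_generic S
  obtain ⟨hA, k, hk0, hk⟩ := hS C hCS
  exact (generates2 S hCS hA (JJ_identity hA hk0 hk) hx).finite

end Pool.Agent.SRAlt
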