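import Mathlib

/-!
# Algebras, varieties, superalgebras, Grassmann envelopes and the basic superrank
-/

set_option autoImplicit false

open scoped TensorProduct

namespace Pool.Agent.SRAlt

/-- An algebra over `F`, not necessarily associative: a vector space with a bilinear product. -/
structure NAlg (F : Type) [Field F] where
  carrier : Type
  [ring : NonUnitalNonAssocRing carrier]
  [module : Module F carrier]
  [tower : IsScalarTower F carrier carrier]
  [comm : SMulCommClass F carrier carrier]

attribute [instance] NAlg.ring NAlg.module NAlg.tower NAlg.comm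

/-- Nonassociative polynomials without constant term in the variables `x_0, x_1, ...`: the free
nonassociative algebra. -/
abbrev Pol (F : Type) [Field F] : Type := FreeNonUnitalNonAssocAlgebra F ℕ

variable {F : Type} [Field F]

/-- The polynomial `f` is an identity of the algebra `B`. -/
def NAlg.Sat (B : NAlg F) (f : Pol F) : Prop :=
  ∀ v : ℕ → B.carrier, FreeNonUnitalNonAssocAlgebra.lift F v f = 0

/-- The algebra `B` belongs to the variety defined by the set `S` of polynomials. -/
def NAlg.In (B : NAlg F) (S : Set (Pol F)) : Prop := ∀ f ∈ S, B.Sat f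

/-- The algebra `B` is alternative. -/
def NAlg.Alt (B : NAlg F) : Prop :=
  (∀ x y : B.carrier, (x * x) * y = x * (x * y)) ∧ ∀ x y : B.carrier, (y * x) * x = y * (x * x)

/-- The elements of the ideal of `B` generated by all commutators `x y - y x` and all associators
`(x y) z - x (y z)`. -/
inductive NAlg.InI (B : NAlg F) : B.carrier → Prop
  | commutator (x y : B.carrier) : B.InI (x * y - y * x)
  | associator (x y z : B.carrier) : B.InI ((x * y) * z - x * (y * z))
  | add (x y : B.carrier) : B.InI x → B.InI y → B.InI (x + y)
  | smul (c : F) (x : B.carrier) : B.InI x → B.InI (c • x)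
  | mul_right (x z : B.carrier) : B.InI x → B.InI (x * z)
  | mul_left (x z : B.carrier) : B.InI x → B.InI (z * x)

/-- `B.ProdI k x`: the element `x` is a product, with some arrangement of brackets, of `k` elements
of the ideal generated by all commutators and associators. -/
inductive NAlg.ProdI (B : NAlg F) : ℕ → B.carrier → Prop
  | one (x : B.carrier) : B.InI x → B.ProdI 1 x
  | mul (i j : ℕ) (x y : B.carrier) : B.ProdI i x → B.ProdI j y → B.ProdI (i + j) (x * y)

/-- The Grassmann algebra on countably many anticommuting generators. -/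
abbrev Grass (F : Type) [Field F] : Type := ExteriorAlgebra F (ℕ →₀ F)

/-- The `n`-th generator of the Grassmann algebra. -/
noncomputable def grassGen (F : Type) [Field F] (n : ℕ) : Grass F :=
  ExteriorAlgebra.ι F (Finsupp.single n (1 : F))

/-- The span of the products of generators whose length is congruent to `p` modulo `2`. -/
noncomputable def grassPart (F : Type) [Field F] (p : ZMod 2) : Submodule F (Grass F) :=
  Submodule.span F {x | ∃ l : List ℕ, (l.length : ZMod 2) = p ∧ x = (l.map (grassGen F)).prod}

section envelope

variable {A : Type} [NonUnitalNonAssocRing A] [Module F A] [IsScalarTower F A A]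
  [SMulCommClass F A A]

/-- `𝒜 0` and `𝒜 1` are the even and odd parts of a superalgebra structure on the algebra `A`. -/
structure IsSuper (𝒜 : ZMod 2 → Submodule F A) : Prop where
  isCompl : IsCompl (𝒜 0) (𝒜 1)
  mul_mem : ∀ i j : ZMod 2, ∀ a ∈ 𝒜 i, ∀ b ∈ 𝒜 j, a * b ∈ 𝒜 (i + j)

/-- The Grassmann envelope `G_0 ⊗ A_0 + G_1 ⊗ A_1` in `G ⊗ A`. -/
noncomputable def envel (𝒜 : ZMod 2 → Submodule F A) : Submodule F (Grass F ⊗[F] A) :=
  Submodule.span F {x | ∃ p : ZMod 2, ∃ g ∈ grassPart F p, ∃ a ∈ 𝒜 p, x = g ⊗ₜ[F] a}

/-- The polynomial `f` is an identity of the Grassmann envelope. -/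
def EnvIdentity (𝒜 : ZMod 2 → Submodule F A) (f : Pol F) : Prop :=
  ∀ v : ℕ → Grass F ⊗[F] A, (∀ i, v i ∈ envel 𝒜) →
    FreeNonUnitalNonAssocAlgebra.lift F v f = 0

end envelope

/-- A superalgebra `A = A_0 + A_1`. -/
structure SAlg (F : Type) [Field F] where
  alg : NAlg F
  part : ZMod 2 → Submodule F alg.carrier
  isSuper : IsSuper part

/-- The variety defined by `S` is the variety generated by the Grassmann envelope of `A`. -/
def SAlg.Generates (A : SAlg F) (S : Set (Pol F)) : Prop :=
  ∀ B : NAlg F, B.In S ↔ ∀ f : Pol F, EnvIdentity A.part f → B.Sat f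

/-- The variety defined by `S` has finite basic superrank: it is generated by the Grassmann
envelope of a finitely generated superalgebra. -/
def FiniteSuperrank (S : Set (Pol F)) : Prop :=
  ∃ A : SAlg F, A.Generates S ∧
    ∃ s : Finset A.alg.carrier, NonUnitalAlgebra.adjoin F (s : Set A.alg.carrier) = ⊤

/-- The variety defined by `S` is generated by the Grassmann envelope of a superalgebra that is
generated by `r` even elements and `s` odd elements. -/
def SuperrankLE (S : Set (Pol F)) (r s : ℕ) : Prop :=
  ∃ A : SAlg F, A.Generates S ∧ ∃ (x : Fin r → A.alg.carrier) (y : Fin s → A.alg.carrier),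
    (∀ i, x i ∈ A.part 0) ∧ (∀ i, y i ∈ A.part 1) ∧
      NonUnitalAlgebra.adjoin F (Set.range x ∪ Set.range y) = ⊤

end Pool.Agent.SRAlt
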