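import Pool.Agent.SRAlt.Final2
import Pool.Agent.SRAlt.Stmt

set_option autoImplicit false

open scoped TensorProduct

namespace Pool.Agent.SRAlt

open Pool.Agent.Superrank

variable {F : Type} [Field F]

lemma isAlt_of_Alt {C : Type} [NonUnitalNonAssocRing C] [Module F C] [IsScalarTower F C C]
    [SMulCommClass F C C] (h : (NAlg.mk (F := F) C).Alt) : IsAlt C :=
  ⟨fun x y => sub_eq_zero.2 (h.1 x y), fun x y => sub_eq_zero.2 (h.2 x y)⟩

lemma inI_of_inCA {C : Type} [NonUnitalNonAssocRing C] [Module F C] [IsScalarTower F C C]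
    [SMulCommClass F C C] {z : C} (h : InCA F C z) : (NAlg.mk (F := F) C).InI z := by
  induction h with
  | comm x y => exact NAlg.InI.commutator (B := NAlg.mk (F := F) C) x y
  | assoc x y z => exact NAlg.InI.associator (B := NAlg.mk (F := F) C) x y z
  | add _ _ h1 h2 => exact NAlg.InI.add (B := NAlg.mk (F := F) C) _ _ h1 h2
  | smul c _ h1 => exact NAlg.InI.smul (B := NAlg.mk (F := F) C) c _ h1
  | mul_right z _ h1 => exact NAlg.InI.mul_right (B := NAlg.mk (F := F) C) _ z h1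
  | mul_left z _ h1 => exact NAlg.InI.mul_left (B := NAlg.mk (F := F) C) _ z h1

lemma prodI_of_prodOf {C : Type} [NonUnitalNonAssocRing C] [Module F C] [IsScalarTower F C C]
    [SMulCommClass F C C] {k : ℕ} {z : C} (h : ProdOf {z : C | InCA F C z} k z) :
    (NAlg.mk (F := F) C).ProdI k z := by
  induction h with
  | one h => exact NAlg.ProdI.one (B := NAlg.mk (F := F) C) _ (inI_of_inCA h)
  | mul _ _ h1 h2 => exact NAlg.ProdI.mul (B := NAlg.mk (F := F) C) _ _ _ _ h1 h2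

/-- the bundled superalgebra -/
noncomputable def toSAlg {A : Type} [NonUnitalNonAssocRing A] [Module F A] [IsScalarTower F A A]
    [SMulCommClass F A A] {𝒜 : ZMod 2 → Submodule F A} (h : IsSuperalgebra F A 𝒜) : SAlg F where
  alg := NAlg.mk (F := F) A
  part := 𝒜
  isSuper := ⟨h.isCompl, h.mul_mem⟩

lemma toSAlg_generates {A : Type} [NonUnitalNonAssocRing A] [Module F A] [IsScalarTower F A A]
    [SMulCommClass F A A] {𝒜 : ZMod 2 → Submodule F A} (h : IsSuperalgebra F A 𝒜)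
    {S : Set (NAPoly F)}
    (hS : ∀ (C : Type) [NonUnitalNonAssocRing C] [Module F C] [IsScalarTower F C C]
      [SMulCommClass F C C],
      Satisfies F C S ↔ ∀ f : NAPoly F, IsEnvelopeIdentity 𝒜 f → IsIdentity F C f) :
    (toSAlg h).Generates S := fun B => hS B.carrier

theorem final3 [CharZero F] (S : Set (Pol F)) (hAlt : ∀ B : NAlg F, B.In S → B.Alt) :
    ((∀ B : NAlg F, B.In S → ∃ k : ℕ, 0 < k ∧ ∀ x, B.ProdI k x → x = 0) → FiniteSuperrank S) ∧
    ∀ k : ℕ, 0 < k → (∀ B : NAlg F, B.In S → ∀ x, B.ProdI k x → x = 0) →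
      SuperrankLE S (max 1 (9 * k - 12)) (max 1 (9 * k - 12)) := by
  constructor
  · intro hnil
    obtain ⟨A, i1, i2, i3, i4, 𝒜, hA, ⟨s, hs⟩, h⟩ := finite_superrank2 S
      (fun C _ _ _ _ hC => ⟨isAlt_of_Alt (hAlt (NAlg.mk (F := F) C) hC), by
        obtain ⟨k, hk, h⟩ := hnil (NAlg.mk (F := F) C) hC
        exact ⟨k, hk, fun x hx => h x (prodI_of_prodOf hx)⟩⟩)
    exact ⟨toSAlg hA, toSAlg_generates hA h, s, hs⟩
  · intro k hk0 hk
    obtain ⟨A, i1, i2, i3, i4, 𝒜, hA, ⟨x, y, hx, hy, hs⟩, h⟩ := superrank2 S k hk0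
      (fun C _ _ _ _ hC => ⟨isAlt_of_Alt (hAlt (NAlg.mk (F := F) C) hC),
        fun x hx => hk (NAlg.mk (F := F) C) hC x (prodI_of_prodOf hx)⟩)
    exact ⟨toSAlg hA, toSAlg_generates hA h, x, y, hx, hy, hs⟩

end Pool.Agent.SRAlt
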