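import Pool.Agent.SRAlt.Ext

set_option autoImplicit false

open scoped TensorProduct

namespace Pool.Agent.SRAlt

open Pool.Agent.Superrank

/-- the multiset of letters of a word -/
def letters : FreeMagma ℕ → Multiset ℕ
  | .of a => {a}
  | .mul x y => letters x + letters y

@[simp] lemma letters_of (a : ℕ) : letters (.of a) = {a} := rfl
@[simp] lemma letters_mul (x y : FreeMagma ℕ) : letters (x * y) = letters x + letters y := rfl

/-- words by induction, with the multiplication written as `*` -/
lemma word_induction {P : FreeMagma ℕ → Prop} (h1 : ∀ a, P (.of a))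
    (h2 : ∀ x y, P x → P y → P (x * y)) (w : FreeMagma ℕ) : P w := by
  induction w with
  | ih1 a => exact h1 a
  | ih2 x y hx hy => exact h2 x y hx hy

variable (F : Type) [Field F]

/-- the variable `x_i` -/
noncomputable abbrev X (i : ℕ) : NAPoly F := FreeNonUnitalNonAssocAlgebra.of F i

/-- the monomial of a word -/
noncomputable def word (w : FreeMagma ℕ) : NAPoly F :=
  FreeMagma.lift (FreeNonUnitalNonAssocAlgebra.of F) w

variable {F}

lemma word_of (a : ℕ) : word F (.of a) = X F a := rfl

lemma word_mul (x y : FreeMagma ℕ) : word F (x * y) = word F x * word F y := map_mul _ _ _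

variable (F) in
/-- the homogeneous polynomials of multidegree `m` -/
noncomputable def H (m : Multiset ℕ) : Submodule F (NAPoly F) :=
  Submodule.span F {x | ∃ w, letters w = m ∧ x = word F w}

lemma word_mem_H (w : FreeMagma ℕ) : word F w ∈ H F (letters w) :=
  Submodule.subset_span ⟨w, rfl, rfl⟩

lemma H_mul {m n : Multiset ℕ} {f g : NAPoly F} (hf : f ∈ H F m) (hg : g ∈ H F n) :
    f * g ∈ H F (m + n) := by
  induction hf using Submodule.span_induction with
  | mem x hx =>
    obtain ⟨w, hw, rfl⟩ := hx
    induction hg using Submodule.span_induction with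
    | mem y hy =>
      obtain ⟨u, hu, rfl⟩ := hy
      exact Submodule.subset_span ⟨w * u, by rw [letters_mul, hw, hu], (word_mul w u).symm⟩
    | zero => rw [mul_zero]; exact zero_mem _
    | add y z _ _ h1 h2 => rw [mul_add]; exact add_mem h1 h2
    | smul c y _ h1 => rw [mul_smul_comm]; exact Submodule.smul_mem _ _ h1
  | zero => rw [zero_mul]; exact zero_mem _
  | add y z _ _ h1 h2 => rw [add_mul]; exact add_mem h1 h2
  | smul c y _ h1 => rw [smul_mul_assoc]; exact Submodule.smul_mem _ _ h1

/-- every polynomial is a combination of words -/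
lemma mem_span_words (f : NAPoly F) : f ∈ Submodule.span F (Set.range (word F)) := by
  let S : NonUnitalSubalgebra F (NAPoly F) :=
    { (Submodule.span F (Set.range (word F))) with
      mul_mem' := by
        intro a b ha hb
        change a ∈ Submodule.span F (Set.range (word F)) at ha
        change b ∈ Submodule.span F (Set.range (word F)) at hb
        change a * b ∈ Submodule.span F (Set.range (word F))
        induction ha using Submodule.span_induction with
        | mem x hx =>
          obtain ⟨w, rfl⟩ := hx
          induction hb using Submodule.span_induction with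
          | mem y hy =>
            obtain ⟨u, rfl⟩ := hy
            exact Submodule.subset_span ⟨w * u, word_mul w u⟩
          | zero => rw [mul_zero]; exact zero_mem _
          | add y z _ _ h1 h2 => rw [mul_add]; exact add_mem h1 h2
          | smul c y _ h1 => rw [mul_smul_comm]; exact Submodule.smul_mem _ _ h1
        | zero => rw [zero_mul]; exact zero_mem _
        | add y z _ _ h1 h2 => rw [add_mul]; exact add_mem h1 h2
        | smul c y _ h1 => rw [smul_mul_assoc]; exact Submodule.smul_mem _ _ h1 }
  let v : ℕ → S := fun i => ⟨X F i, Submodule.subset_span ⟨.of i, rfl⟩⟩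
  have h : (NonUnitalSubalgebraClass.subtype S).comp (FreeNonUnitalNonAssocAlgebra.lift F v) =
      NonUnitalAlgHom.id F (NAPoly F) := by
    apply FreeNonUnitalNonAssocAlgebra.hom_ext
    intro i
    show ((FreeNonUnitalNonAssocAlgebra.lift F v (FreeNonUnitalNonAssocAlgebra.of F i) : S) :
      NAPoly F) = _
    rw [FreeNonUnitalNonAssocAlgebra.lift_of_apply]
    rfl
  have h2 := DFunLike.congr_fun h f
  have h3 : ((FreeNonUnitalNonAssocAlgebra.lift F v f : S) : NAPoly F) = f := h2
  rw [← h3]
  exact (FreeNonUnitalNonAssocAlgebra.lift F v f).2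

lemma exists_decomp (f : NAPoly F) : ∃ (s : Finset (Multiset ℕ)) (g : Multiset ℕ → NAPoly F),
    (∀ m, g m ∈ H F m) ∧ f = ∑ m ∈ s, g m := by
  have hf : f ∈ ⨆ m, H F m := by
    refine (Submodule.span_le.2 ?_) (mem_span_words f)
    rintro x ⟨w, rfl⟩
    exact Submodule.mem_iSup_of_mem (letters w) (word_mem_H w)
  obtain ⟨g, hg, hs⟩ := (Submodule.mem_iSup_iff_exists_finsupp _ _).1 hf
  exact ⟨g.support, g, hg, hs.symm⟩

section dual

variable {C : Type} [NonUnitalNonAssocRing C] [Module F C] [IsScalarTower F C C]
  [SMulCommClass F C C]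

variable (F C) in
/-- the part without `ε` -/
noncomputable def fstL : Polynomial F ⊗[F] C →ₗ[F] C :=
  (TensorProduct.lid F C).toLinearMap ∘ₗ
    LinearMap.rTensor C (Polynomial.lcoeff F 0)

variable (F C) in
/-- the coefficient of `ε` -/
noncomputable def sndL : Polynomial F ⊗[F] C →ₗ[F] C :=
  (TensorProduct.lid F C).toLinearMap ∘ₗ LinearMap.rTensor C (Polynomial.lcoeff F 1)

omit [IsScalarTower F C C] [SMulCommClass F C C] in
@[simp] lemma fstL_tmul (d : Polynomial F) (c : C) : fstL F C (d ⊗ₜ c) = d.coeff 0 • c := by
  simp [fstL]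

omit [IsScalarTower F C C] [SMulCommClass F C C] in
@[simp] lemma sndL_tmul (d : Polynomial F) (c : C) : sndL F C (d ⊗ₜ c) = d.coeff 1 • c := by
  simp [sndL]

lemma fstL_mul (x y : Polynomial F ⊗[F] C) : fstL F C (x * y) = fstL F C x * fstL F C y := by
  induction x using TensorProduct.induction_on with
  | zero => simp
  | tmul k a =>
    induction y using TensorProduct.induction_on with
    | zero => simp
    | tmul l b =>
      simp only [Algebra.TensorProduct.tmul_mul_tmul, fstL_tmul, Polynomial.mul_coeff_zero,
        smul_mul_assoc, mul_smul_comm, smul_smul]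
      rw [mul_comm (k.coeff 0)]
    | add x y h1 h2 => rw [mul_add, map_add, map_add, mul_add, h1, h2]
  | add x z h1 h2 => rw [add_mul, map_add, map_add, add_mul, h1, h2]

lemma sndL_mul (x y : Polynomial F ⊗[F] C) :
    sndL F C (x * y) = fstL F C x * sndL F C y + sndL F C x * fstL F C y := by
  induction x using TensorProduct.induction_on with
  | zero => simp
  | tmul k a =>
    induction y using TensorProduct.induction_on with
    | zero => simp
    | tmul l b =>
      simp only [Algebra.TensorProduct.tmul_mul_tmul, sndL_tmul, fstL_tmul,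
        Polynomial.mul_coeff_one, smul_mul_assoc, mul_smul_comm, smul_smul, add_smul]
      rw [mul_comm (k.coeff 0) (l.coeff 1), mul_comm (l.coeff 0) (k.coeff 1)]
    | add x y h1 h2 => rw [mul_add, map_add, map_add, map_add, mul_add, mul_add, h1, h2]; abel
  | add x z h1 h2 => rw [add_mul, map_add, map_add, map_add, add_mul, add_mul, h1, h2]; abel

end dual

/-- the point `x_k + [k = i] ε x_j` -/
noncomputable def dpt {C : Type} [NonUnitalNonAssocRing C] [Module F C] (i j : ℕ) (u : ℕ → C) :
    ℕ → Polynomial F ⊗[F] C :=
  fun k => (1 : Polynomial F) ⊗ₜ u k + if k = i then (Polynomial.X : Polynomial F) ⊗ₜ u j else 0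

variable (F) in
/-- replace one occurrence of `x_i` by `x_j` in all possible ways -/
noncomputable def Δ (i j : ℕ) : NAPoly F →ₗ[F] NAPoly F :=
  sndL F (NAPoly F) ∘ₗ
    ((FreeNonUnitalNonAssocAlgebra.lift F (dpt (F := F) i j (X F)) :
      NAPoly F →ₙₐ[F] Polynomial F ⊗[F] NAPoly F) : NAPoly F →ₗ[F] Polynomial F ⊗[F] NAPoly F)

lemma Δ_apply (i j : ℕ) (f : NAPoly F) :
    Δ F i j f = sndL F (NAPoly F) (FreeNonUnitalNonAssocAlgebra.lift F (dpt (F := F) i j (X F)) f) := rfl

lemma fst_lift (i j : ℕ) (f : NAPoly F) :
    fstL F (NAPoly F) (FreeNonUnitalNonAssocAlgebra.lift F (dpt (F := F) i j (X F)) f) = f := by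
  have h := mem_span_words f
  induction h using Submodule.span_induction with
  | mem x hx =>
    obtain ⟨w, rfl⟩ := hx
    induction w using word_induction with
    | h1 a =>
      rw [word_of, FreeNonUnitalNonAssocAlgebra.lift_of_apply]
      unfold dpt
      split_ifs <;> simp
    | h2 x y hx hy => rw [word_mul, map_mul, fstL_mul, hx, hy]
  | zero => simp
  | add x y _ _ h1 h2 => rw [map_add, map_add, h1, h2]
  | smul c x _ h1 => rw [map_smul, map_smul, h1]

lemma Δ_X (i j k : ℕ) : Δ F i j (X F k) = if k = i then X F j else 0 := by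
  rw [Δ_apply, FreeNonUnitalNonAssocAlgebra.lift_of_apply]
  unfold dpt
  split_ifs <;> simp [Polynomial.coeff_one]

lemma Δ_mul (i j : ℕ) (f g : NAPoly F) : Δ F i j (f * g) = f * Δ F i j g + Δ F i j f * g := by
  rw [Δ_apply, map_mul, sndL_mul, fst_lift, fst_lift]
  rfl

section ident

variable {C : Type} [NonUnitalNonAssocRing C] [Module F C] [IsScalarTower F C C]
  [SMulCommClass F C C]

lemma sndL_map {C' : Type} [NonUnitalNonAssocRing C'] [Module F C'] [IsScalarTower F C' C']
    [SMulCommClass F C' C'] (ψ : C →ₙₐ[F] C') (u : Polynomial F ⊗[F] C) :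
    ψ (sndL F C u) = sndL F C' (mapHom (AlgHom.id F (Polynomial F)) ψ u) := by
  induction u using TensorProduct.induction_on with
  | zero => simp
  | tmul k a => simp
  | add x y h1 h2 => simp only [map_add, h1, h2]

/-- the identities of an algebra are closed under partial linearisation -/
lemma identity_Δ [Infinite F] {f : NAPoly F} (hf : IsIdentity F C f) (i j : ℕ) :
    IsIdentity F C (Δ F i j f) := by
  intro u
  rw [Δ_apply, sndL_map, ← lift_comp, identity_ext (Polynomial F) hf, map_zero]

/-- renaming of the variables -/
noncomputable def relabel (φ : ℕ → ℕ) : NAPoly F →ₙₐ[F] NAPoly F :=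
  FreeNonUnitalNonAssocAlgebra.lift F (fun i => X F (φ i))

lemma relabel_X (φ : ℕ → ℕ) (i : ℕ) : relabel φ (X F i) = X F (φ i) :=
  FreeNonUnitalNonAssocAlgebra.lift_of_apply F _ i

lemma lift_relabel (φ : ℕ → ℕ) (u : ℕ → C) (f : NAPoly F) :
    FreeNonUnitalNonAssocAlgebra.lift F u (relabel φ f) =
      FreeNonUnitalNonAssocAlgebra.lift F (fun i => u (φ i)) f := by
  have := lift_comp (FreeNonUnitalNonAssocAlgebra.lift F u) (fun i => X F (φ i)) f
  rw [relabel, ← this]
  congr 2
  funext i
  exact FreeNonUnitalNonAssocAlgebra.lift_of_apply F _ _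

lemma identity_relabel {f : NAPoly F} (hf : IsIdentity F C f) (φ : ℕ → ℕ) :
    IsIdentity F C (relabel φ f) := by
  intro u
  rw [lift_relabel]
  exact hf _

/-- a relabelling that fixes the letters of a word fixes the word -/
lemma relabel_word_eq (φ : ℕ → ℕ) (w : FreeMagma ℕ) (h : ∀ k ∈ letters w, φ k = k) :
    relabel φ (word F w) = word F w := by
  induction w using word_induction with
  | h1 a => rw [word_of, relabel_X, h a (by simp)]
  | h2 x y hx hy =>
    rw [word_mul, map_mul, hx fun k hk => h k (by simp [hk]), hy fun k hk => h k (by simp [hk])]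

lemma relabel_Δ_word (i j : ℕ) (w : FreeMagma ℕ)
    (h : ∀ k ∈ letters w, (if k = j then i else k) = k) :
    relabel (fun k => if k = j then i else k) (Δ F i j (word F w)) =
      ((letters w).count i : F) • word F w := by
  induction w using word_induction with
  | h1 a =>
    rw [word_of, Δ_X, letters_of, Multiset.count_singleton]
    by_cases ha : a = i
    · subst ha
      rw [if_pos rfl, relabel_X, if_pos rfl, if_pos rfl]
      simp
    · rw [if_neg ha, if_neg (Ne.symm ha)]
      simp
  | h2 x y hx hy =>
    have h1 : ∀ k ∈ letters x, (if k = j then i else k) = k := fun k hk => h k (by simp [hk])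
    have h2 : ∀ k ∈ letters y, (if k = j then i else k) = k := fun k hk => h k (by simp [hk])
    rw [word_mul, Δ_mul, map_add, map_mul, map_mul, hx h1, hy h2, relabel_word_eq _ x h1,
      relabel_word_eq _ y h2, letters_mul, Multiset.count_add, Nat.cast_add, add_smul,
      mul_smul_comm, smul_mul_assoc, add_comm]

lemma relabel_Δ {m : Multiset ℕ} (i j : ℕ) {f : NAPoly F} (hf : f ∈ H F m)
    (h : ∀ k ∈ m, (if k = j then i else k) = k) :
    relabel (fun k => if k = j then i else k) (Δ F i j f) = (m.count i : F) • f := by
  induction hf using Submodule.span_induction with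
  | mem x hx =>
    obtain ⟨w, hw, rfl⟩ := hx
    subst hw
    exact relabel_Δ_word i j w h
  | zero => simp
  | add x y _ _ h1 h2 => rw [map_add, map_add, h1, h2, smul_add]
  | smul c x _ h1 => rw [map_smul, map_smul, h1, smul_comm]

lemma relabel_id (f : NAPoly F) : relabel (fun k => k) f = f := by
  have : relabel (fun k => k) = NonUnitalAlgHom.id F (NAPoly F) := by
    apply FreeNonUnitalNonAssocAlgebra.hom_ext
    intro i
    show relabel (fun k => k) (X F i) = _
    rw [relabel_X]
    rfl
  exact DFunLike.congr_fun this f

lemma Δ_diag {m : Multiset ℕ} (i : ℕ) {f : NAPoly F} (hf : f ∈ H F m) :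
    Δ F i i f = (m.count i : F) • f := by
  have h0 : (fun k => if k = i then i else k) = fun k : ℕ => k := by
    funext k
    split_ifs with hk
    · exact hk.symm
    · rfl
  have := relabel_Δ (F := F) (m := m) i i hf (fun k _ => congrFun h0 k)
  rw [h0, relabel_id] at this
  exact this

lemma Δ_word_zero (i j : ℕ) (w : FreeMagma ℕ) (h : i ∉ letters w) : Δ F i j (word F w) = 0 := by
  induction w using word_induction with
  | h1 a =>
    rw [word_of, Δ_X, if_neg]
    rintro rfl
    exact h (by simp)
  | h2 x y hx hy =>
    rw [word_mul, Δ_mul, hx fun hk => h (by simp [hk]), hy fun hk => h (by simp [hk])]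
    simp

lemma Δ_word_mem (i j : ℕ) (w : FreeMagma ℕ) (h : i ∈ letters w) :
    Δ F i j (word F w) ∈ H F (j ::ₘ (letters w).erase i) := by
  induction w using word_induction with
  | h1 a =>
    rw [letters_of, Multiset.mem_singleton] at h
    subst h
    rw [word_of, Δ_X, if_pos rfl]
    refine Submodule.subset_span ⟨.of j, ?_, rfl⟩
    simp
  | h2 x y hx hy =>
    rw [word_mul, Δ_mul, letters_mul]
    have hx' : Δ F i j (word F x) * word F y ∈
        H F (j ::ₘ (letters x + letters y).erase i) := by
      by_cases hi : i ∈ letters x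
      · have := H_mul (hx hi) (word_mem_H y)
        rwa [Multiset.cons_add, ← Multiset.erase_add_left_pos _ hi] at this
      · rw [Δ_word_zero _ _ _ hi, zero_mul]
        exact zero_mem _
    have hy' : word F x * Δ F i j (word F y) ∈
        H F (j ::ₘ (letters x + letters y).erase i) := by
      by_cases hi : i ∈ letters y
      · have := H_mul (word_mem_H x) (hy hi)
        rwa [Multiset.add_cons, ← Multiset.erase_add_right_pos _ hi] at this
      · rw [Δ_word_zero _ _ _ hi, mul_zero]
        exact zero_mem _
    exact add_mem hy' hx'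

lemma Δ_mem (i j : ℕ) {m : Multiset ℕ} (h : i ∈ m) {f : NAPoly F} (hf : f ∈ H F m) :
    Δ F i j f ∈ H F (j ::ₘ m.erase i) := by
  induction hf using Submodule.span_induction with
  | mem x hx =>
    obtain ⟨w, hw, rfl⟩ := hx
    subst hw
    exact Δ_word_mem i j w h
  | zero => rw [map_zero]; exact zero_mem _
  | add x y _ _ h1 h2 => rw [map_add]; exact add_mem h1 h2
  | smul c x _ h1 => rw [map_smul]; exact Submodule.smul_mem _ _ h1

variable (F C) in
/-- the submodule of identities -/
def idents : Submodule F (NAPoly F) where
  carrier := {f | IsIdentity F C f}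
  add_mem' := fun {f g} hf hg v => by rw [map_add, hf v, hg v, add_zero]
  zero_mem' := fun v => map_zero _
  smul_mem' := fun c f hf v => by rw [map_smul, hf v, smul_zero]

lemma mem_idents {f : NAPoly F} : f ∈ idents F C ↔ IsIdentity F C f := Iff.rfl

/-- the homogeneous components of an identity are identities -/
lemma component_identity [CharZero F] (n : ℕ) : ∀ (s : Finset (Multiset ℕ)), s.card = n →
    ∀ g : Multiset ℕ → NAPoly F, (∀ m, g m ∈ H F m) → ∑ m ∈ s, g m ∈ idents F C →
    ∀ m ∈ s, g m ∈ idents F C := by
  classical
  induction n with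
  | zero =>
    intro s hs g _ _ m hm
    rw [Finset.card_eq_zero] at hs
    rw [hs] at hm
    simp at hm
  | succ n ih =>
    intro s hs g hg hsum m0 hm0
    by_cases hone : ∀ m1 ∈ s, m1 = m0
    · have : s = {m0} := Finset.eq_singleton_iff_unique_mem.2 ⟨hm0, hone⟩
      rw [this, Finset.sum_singleton] at hsum
      exact hsum
    · push Not at hone
      obtain ⟨m1, hm1, hne⟩ := hone
      obtain ⟨i, hi⟩ : ∃ i, m1.count i ≠ m0.count i := by
        by_contra hcon
        push Not at hcon
        exact hne (Multiset.ext.2 hcon)
      have hD : ∑ m ∈ s, ((m.count i : F) - (m1.count i : F)) • g m ∈ idents F C := by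
        have h1 : Δ F i i (∑ m ∈ s, g m) - (m1.count i : F) • ∑ m ∈ s, g m ∈ idents F C :=
          sub_mem (identity_Δ hsum i i) (Submodule.smul_mem _ _ hsum)
        have h2 : Δ F i i (∑ m ∈ s, g m) - (m1.count i : F) • ∑ m ∈ s, g m =
            ∑ m ∈ s, ((m.count i : F) - (m1.count i : F)) • g m := by
          rw [map_sum, Finset.smul_sum, ← Finset.sum_sub_distrib]
          refine Finset.sum_congr rfl fun m _ => ?_
          rw [Δ_diag i (hg m), sub_smul]
        rwa [h2] at h1
      rw [← Finset.add_sum_erase s _ hm1, sub_self, zero_smul, zero_add] at hD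
      have := ih (s.erase m1) (by rw [Finset.card_erase_of_mem hm1, hs]; rfl)
        (fun m => ((m.count i : F) - (m1.count i : F)) • g m)
        (fun m => Submodule.smul_mem _ _ (hg m)) hD m0 (Finset.mem_erase.2 ⟨hne.symm, hm0⟩)
      have hc : ((m0.count i : F) - (m1.count i : F)) ≠ 0 := by
        rw [sub_ne_zero]
        exact fun h => hi (Nat.cast_injective h).symm
      exact (Submodule.smul_mem_iff _ hc).1 this

/-- In characteristic zero an identity of `B` is an identity of `C` as soon as the multilinear
identities of `B` are identities of `C`. -/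
theorem identity_of_multilinear [CharZero F] {B : Type} [NonUnitalNonAssocRing B] [Module F B]
    [IsScalarTower F B B] [SMulCommClass F B B]
    (h : ∀ L : Finset ℕ, ∀ f ∈ H F L.val, IsIdentity F B f → IsIdentity F C f)
    {f : NAPoly F} (hf : IsIdentity F B f) : IsIdentity F C f := by
  classical
  -- homogeneous polynomials
  have hom : ∀ (n : ℕ) (m : Multiset ℕ), m.card - m.toFinset.card = n → ∀ f ∈ H F m,
      IsIdentity F B f → IsIdentity F C f := by
    intro n
    induction n with
    | zero =>
      intro m hm f hf hB
      have h1 : m.toFinset.card = m.card :=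
        le_antisymm (Multiset.toFinset_card_le m) (by omega)
      have h2 : m.Nodup := Multiset.toFinset_card_eq_card_iff_nodup.1 h1
      have h3 : m = m.toFinset.val := by
        rw [Multiset.toFinset_val, h2.dedup]
      rw [h3] at hf
      exact h m.toFinset f hf hB
    | succ n ih =>
      intro m hm f hf hB
      have h2 : ¬ m.Nodup := by
        intro hnd
        have := Multiset.toFinset_card_eq_card_iff_nodup.2 hnd
        omega
      rw [Multiset.nodup_iff_count_le_one] at h2
      push Not at h2
      obtain ⟨i, hi⟩ := h2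
      obtain ⟨j, hj⟩ := Infinite.exists_notMem_finset m.toFinset
      rw [Multiset.mem_toFinset] at hj
      have him : i ∈ m := Multiset.one_le_count_iff_mem.1 (by omega)
      have hg := Δ_mem (F := F) i j him hf
      have hgB := identity_Δ (C := B) hB i j
      have hcard : (j ::ₘ m.erase i).card - (j ::ₘ m.erase i).toFinset.card = n := by
        have h3 : (j ::ₘ m.erase i).card = m.card := by
          rw [Multiset.card_cons, Multiset.card_erase_of_mem him]
          have : 0 < m.card := Multiset.card_pos_iff_exists_mem.2 ⟨i, him⟩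
          exact Nat.succ_pred_eq_of_pos this
        have h4 : (m.erase i).toFinset = m.toFinset := by
          ext k
          rw [Multiset.mem_toFinset, Multiset.mem_toFinset]
          by_cases hk : k = i
          · subst hk
            refine ⟨fun h => Multiset.mem_of_mem_erase h, fun _ => ?_⟩
            rw [← Multiset.one_le_count_iff_mem, Multiset.count_erase_self]
            omega
          · exact Multiset.mem_erase_of_ne hk
        rw [h3, Multiset.toFinset_cons, h4, Finset.card_insert_of_notMem
          (by rwa [Multiset.mem_toFinset])]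
        omega
      have hgC := ih _ hcard _ hg hgB
      have hr := identity_relabel hgC (fun k => if k = j then i else k)
      rw [relabel_Δ i j hf] at hr
      · have hc : (m.count i : F) ≠ 0 := Nat.cast_ne_zero.2 (by omega)
        exact (Submodule.smul_mem_iff (idents F C) hc).1 hr
      · intro k hk
        rw [if_neg]
        rintro rfl
        exact hj hk
  obtain ⟨s, g, hg, rfl⟩ := exists_decomp f
  have hc := component_identity (F := F) (C := B) s.card s rfl g hg hf
  exact Submodule.sum_mem (idents F C) fun m hm => hom _ m rfl (g m) (hg m) (hc m hm)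

end ident

end Pool.Agent.SRAlt
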