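import Pool.Agent.SRAlt.Lin

set_option autoImplicit false

open scoped TensorProduct

namespace Pool.Agent.SRAlt

open Pool.Agent.Superrank

variable {F : Type} [Field F]

/-- the number of products of two letters in a word -/
def ch : FreeMagma ℕ → ℕ
  | .of _ => 0
  | .mul x y => max 1 (ch x + ch y)

@[simp] lemma ch_of (a : ℕ) : ch (.of a) = 0 := rfl
lemma ch_mul (x y : FreeMagma ℕ) : ch (x * y) = max 1 (ch x + ch y) := rfl

lemma ch_pos_or (w : FreeMagma ℕ) : (∃ a, w = .of a) ∨ 1 ≤ ch w := by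
  induction w using word_induction with
  | h1 a => exact Or.inl ⟨a, rfl⟩
  | h2 x y _ _ => exact Or.inr (by rw [ch_mul]; exact le_max_left _ _)

variable (F) in
/-- the span of the words with letters `μ` and at least `r` cherries -/
noncomputable def Hw (μ : Multiset ℕ) (r : ℕ) : Submodule F (NAPoly F) :=
  Submodule.span F {x | ∃ w, letters w = μ ∧ r ≤ ch w ∧ x = word F w}

lemma Hw_le_H (μ : Multiset ℕ) (r : ℕ) : Hw F μ r ≤ H F μ := by
  refine Submodule.span_mono ?_
  rintro x ⟨w, h1, _, h2⟩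
  exact ⟨w, h1, h2⟩

lemma Hw_mul {μ ν : Multiset ℕ} {r s : ℕ} {f g : NAPoly F} (hf : f ∈ Hw F μ r)
    (hg : g ∈ Hw F ν s) : f * g ∈ Hw F (μ + ν) (r + s) := by
  induction hf using Submodule.span_induction with
  | mem x hx =>
    obtain ⟨w, hw, hr, rfl⟩ := hx
    induction hg using Submodule.span_induction with
    | mem y hy =>
      obtain ⟨u, hu, hs, rfl⟩ := hy
      refine Submodule.subset_span ⟨w * u, by rw [letters_mul, hw, hu], ?_, (word_mul w u).symm⟩
      rw [ch_mul]
      exact le_trans (Nat.add_le_add hr hs) (le_max_right _ _)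
    | zero => rw [mul_zero]; exact zero_mem _
    | add y z _ _ h1 h2 => rw [mul_add]; exact add_mem h1 h2
    | smul c y _ h1 => rw [mul_smul_comm]; exact Submodule.smul_mem _ _ h1
  | zero => rw [zero_mul]; exact zero_mem _
  | add y z _ _ h1 h2 => rw [add_mul]; exact add_mem h1 h2
  | smul c y _ h1 => rw [smul_mul_assoc]; exact Submodule.smul_mem _ _ h1

lemma X_mem_Hw (a : ℕ) : X F a ∈ Hw F {a} 0 :=
  Submodule.subset_span ⟨.of a, rfl, Nat.zero_le _, rfl⟩

lemma XX_mem_Hw (a b : ℕ) : X F a * X F b ∈ Hw F ({a} + {b}) 1 := by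
  refine Submodule.subset_span ⟨.of a * .of b, rfl, ?_, ?_⟩
  · rw [ch_mul]
    exact le_max_left _ _
  · rw [word_mul, word_of, word_of]

lemma Hw_mono {μ : Multiset ℕ} {r s : ℕ} (h : r ≤ s) : Hw F μ s ≤ Hw F μ r := by
  refine Submodule.span_mono ?_
  rintro x ⟨w, h1, h2, h3⟩
  exact ⟨w, h1, h.trans h2, h3⟩

lemma letters_relabel (φ : ℕ → ℕ) (w : FreeMagma ℕ) :
    ∃ u, letters u = (letters w).map φ ∧ ch u = ch w ∧
      relabel φ (word F w) = word F u := by
  induction w using word_induction with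
  | h1 a => exact ⟨.of (φ a), by simp, rfl, by rw [word_of, relabel_X]; rfl⟩
  | h2 x y hx hy =>
    obtain ⟨u, h1, h2, h3⟩ := hx
    obtain ⟨v, g1, g2, g3⟩ := hy
    refine ⟨u * v, by simp [h1, g1], by rw [ch_mul, ch_mul, h2, g2], ?_⟩
    rw [word_mul, map_mul, h3, g3, word_mul]

lemma relabel_Hw (φ : ℕ → ℕ) {μ : Multiset ℕ} {r : ℕ} {f : NAPoly F} (hf : f ∈ Hw F μ r) :
    relabel φ f ∈ Hw F (μ.map φ) r := by
  induction hf using Submodule.span_induction with
  | mem x hx =>
    obtain ⟨w, hw, hr, rfl⟩ := hx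
    obtain ⟨u, h1, h2, h3⟩ := letters_relabel (F := F) φ w
    exact Submodule.subset_span ⟨u, by rw [h1, hw], by rw [h2]; exact hr, h3⟩
  | zero => rw [map_zero]; exact zero_mem _
  | add y z _ _ h1 h2 => rw [map_add]; exact add_mem h1 h2
  | smul c y _ h1 => rw [map_smul]; exact Submodule.smul_mem _ _ h1

lemma relabel_fix (φ : ℕ → ℕ) {μ : Multiset ℕ} {f : NAPoly F} (hf : f ∈ H F μ)
    (h : ∀ k ∈ μ, φ k = k) : relabel φ f = f := by
  induction hf using Submodule.span_induction with
  | mem x hx =>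
    obtain ⟨w, hw, rfl⟩ := hx
    subst hw
    exact relabel_word_eq φ w h
  | zero => exact map_zero _
  | add y z _ _ h1 h2 => rw [map_add, h1, h2]
  | smul c y _ h1 => rw [map_smul, h1]

lemma map_swap_eq {μ : Multiset ℕ} (hμ : μ.Nodup) {k l : ℕ} (hk : k ∈ μ) (hl : l ∈ μ) :
    μ.map (Equiv.swap k l) = μ := by
  rw [Multiset.Nodup.ext (hμ.map (Equiv.swap k l).injective) hμ]
  intro a
  rw [Multiset.mem_map]
  constructor
  · rintro ⟨c, hc, rfl⟩
    rcases Equiv.swap_apply_eq_iff.1 (rfl : Equiv.swap k l c = Equiv.swap k l c) with h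
    by_cases h1 : c = k
    · rw [h1, Equiv.swap_apply_left]; exact hl
    · by_cases h2 : c = l
      · rw [h2, Equiv.swap_apply_right]; exact hk
      · rw [Equiv.swap_apply_of_ne_of_ne h1 h2]; exact hc
  · intro ha
    refine ⟨Equiv.swap k l a, ?_, by simp⟩
    by_cases h1 : a = k
    · rw [h1, Equiv.swap_apply_left]; exact hl
    · by_cases h2 : a = l
      · rw [h2, Equiv.swap_apply_right]; exact hk
      · rw [Equiv.swap_apply_of_ne_of_ne h1 h2]; exact ha

section T

variable {C : Type} [NonUnitalNonAssocRing C] [Module F C] [IsScalarTower F C C]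
  [SMulCommClass F C C]

variable (F C) in
/-- identities of `C` together with the words with many cherries -/
noncomputable def Wd (μ : Multiset ℕ) (r : ℕ) : Submodule F (NAPoly F) :=
  idents F C ⊔ Hw F μ r

lemma idents_mul_right {f : NAPoly F} (hf : f ∈ idents F C) (g : NAPoly F) :
    f * g ∈ idents F C := fun v => by rw [map_mul, hf v, zero_mul]

lemma idents_mul_left (f : NAPoly F) {g : NAPoly F} (hg : g ∈ idents F C) :
    f * g ∈ idents F C := fun v => by rw [map_mul, hg v, mul_zero]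

lemma T_le_Wd {μ : Multiset ℕ} {r : ℕ} {f : NAPoly F} (hf : f ∈ idents F C) :
    f ∈ Wd F C μ r := Submodule.mem_sup_left hf

lemma Hw_le_Wd {μ : Multiset ℕ} {r : ℕ} {f : NAPoly F} (hf : f ∈ Hw F μ r) :
    f ∈ Wd F C μ r := Submodule.mem_sup_right hf

lemma Wd_mul {μ ν : Multiset ℕ} {r s : ℕ} {f g : NAPoly F} (hf : f ∈ Wd F C μ r)
    (hg : g ∈ Wd F C ν s) : f * g ∈ Wd F C (μ + ν) (r + s) := by
  obtain ⟨f1, hf1, f2, hf2, rfl⟩ := Submodule.mem_sup.1 hf
  obtain ⟨g1, hg1, g2, hg2, rfl⟩ := Submodule.mem_sup.1 hg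
  rw [add_mul, mul_add f2]
  exact add_mem (T_le_Wd (idents_mul_right hf1 _))
    (add_mem (T_le_Wd (idents_mul_left _ hg1)) (Hw_le_Wd (Hw_mul hf2 hg2)))

lemma relabel_Wd (φ : ℕ → ℕ) {μ : Multiset ℕ} {r : ℕ} {f : NAPoly F} (hf : f ∈ Wd F C μ r) :
    relabel φ f ∈ Wd F C (μ.map φ) r := by
  obtain ⟨f1, hf1, f2, hf2, rfl⟩ := Submodule.mem_sup.1 hf
  rw [map_add]
  exact add_mem (T_le_Wd (identity_relabel hf1 φ)) (Hw_le_Wd (relabel_Hw φ hf2))

/-- alternative algebras -/
def IsAlt (B : Type) [NonUnitalNonAssocRing B] : Prop :=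
  (∀ x y : B, (x * x) * y - x * (x * y) = 0) ∧ ∀ x y : B, (y * x) * x - y * (x * x) = 0

omit [Module F C] [IsScalarTower F C C] [SMulCommClass F C C] in
lemma alt_left (hC : IsAlt C) (a b c : C) :
    ((a * b) * c - a * (b * c)) + ((b * a) * c - b * (a * c)) = 0 := by
  have h1 := hC.1 (a + b) c
  have h2 := hC.1 a c
  have h3 := hC.1 b c
  have : ((a * b) * c - a * (b * c)) + ((b * a) * c - b * (a * c)) =
      (((a + b) * (a + b)) * c - (a + b) * ((a + b) * c)) - ((a * a) * c - a * (a * c)) -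
      ((b * b) * c - b * (b * c)) := by
    simp only [mul_add, add_mul]
    abel
  rw [this, h1, h2, h3]
  simp

omit [Module F C] [IsScalarTower F C C] [SMulCommClass F C C] in
lemma alt_right (hC : IsAlt C) (a b c : C) :
    ((a * b) * c - a * (b * c)) + ((a * c) * b - a * (c * b)) = 0 := by
  have h1 := hC.2 (b + c) a
  have h2 := hC.2 b a
  have h3 := hC.2 c a
  have : ((a * b) * c - a * (b * c)) + ((a * c) * b - a * (c * b)) =
      ((a * (b + c)) * (b + c) - a * ((b + c) * (b + c))) - ((a * b) * b - a * (b * b)) -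
      ((a * c) * c - a * (c * c)) := by
    simp only [mul_add, add_mul]
    abel
  rw [this, h1, h2, h3]
  simp

lemma T_left (hC : IsAlt C) (f g h : NAPoly F) :
    ((f * g) * h - f * (g * h)) + ((g * f) * h - g * (f * h)) ∈ idents F C := by
  intro v
  simp only [map_add, map_sub, map_mul]
  exact alt_left hC _ _ _

lemma T_right (hC : IsAlt C) (f g h : NAPoly F) :
    ((f * g) * h - f * (g * h)) + ((f * h) * g - f * (h * g)) ∈ idents F C := by
  intro v
  simp only [map_add, map_sub, map_mul]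
  exact alt_right hC _ _ _

section rel

variable (hC : IsAlt C) {μ : Multiset ℕ} {r : ℕ} {m : NAPoly F} (hm : m ∈ Wd F C μ r) (a b : ℕ)
include hC hm

lemma rel1 : (m * X F a) * X F b + (m * X F b) * X F a ∈ Wd F C (μ + {a} + {b}) (r + 1) := by
  have h1 := T_right hC m (X F a) (X F b)
  have h2 : m * (X F a * X F b) ∈ Wd F C (μ + {a} + {b}) (r + 1) := by
    have := Wd_mul hm (Hw_le_Wd (C := C) (XX_mem_Hw (F := F) a b))
    rwa [← add_assoc] at this
  have h3 : m * (X F b * X F a) ∈ Wd F C (μ + {a} + {b}) (r + 1) := by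
    have := Wd_mul hm (Hw_le_Wd (C := C) (XX_mem_Hw (F := F) b a))
    rwa [← add_assoc, add_right_comm] at this
  have : (m * X F a) * X F b + (m * X F b) * X F a =
      (((m * X F a) * X F b - m * (X F a * X F b)) + ((m * X F b) * X F a - m * (X F b * X F a))) +
      (m * (X F a * X F b) + m * (X F b * X F a)) := by abel
  rw [this]
  exact add_mem (T_le_Wd h1) (add_mem h2 h3)

lemma rel2 : (X F a * m) * X F b - (X F a * (m * X F b) + (m * X F b) * X F a) ∈
    Wd F C (μ + {a} + {b}) (r + 1) := by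
  have h1 := T_left hC (X F a) m (X F b)
  have h2 : m * (X F a * X F b) ∈ Wd F C (μ + {a} + {b}) (r + 1) := by
    have := Wd_mul hm (Hw_le_Wd (C := C) (XX_mem_Hw (F := F) a b))
    rwa [← add_assoc] at this
  have h3 := rel1 hC hm a b
  have : (X F a * m) * X F b - (X F a * (m * X F b) + (m * X F b) * X F a) =
      (((X F a * m) * X F b - X F a * (m * X F b)) + ((m * X F a) * X F b - m * (X F a * X F b))) +
      m * (X F a * X F b) - ((m * X F a) * X F b + (m * X F b) * X F a) := by abel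
  rw [this]
  exact sub_mem (add_mem (T_le_Wd h1) h2) h3

/-- `z (x m) ≡ (m x) z` with `z = x_a`, `x = x_b` -/
lemma rel3 : X F a * (X F b * m) - (m * X F b) * X F a ∈ Wd F C (μ + {a} + {b}) (r + 1) := by
  have h1 := T_right hC (X F a) (X F b) m
  have h2 : (X F a * X F b) * m ∈ Wd F C (μ + {a} + {b}) (r + 1) := by
    have := Wd_mul (Hw_le_Wd (C := C) (XX_mem_Hw (F := F) a b)) hm
    rwa [add_comm 1 r, show ({a} + {b} + μ : Multiset ℕ) = μ + {a} + {b} by abel] at this
  have h3 := rel2 hC hm a b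
  have : X F a * (X F b * m) - (m * X F b) * X F a =
      (X F a * X F b) * m -
      (((X F a * X F b) * m - X F a * (X F b * m)) + ((X F a * m) * X F b - X F a * (m * X F b))) +
      ((X F a * m) * X F b - (X F a * (m * X F b) + (m * X F b) * X F a)) := by abel
  rw [this]
  exact add_mem (sub_mem h2 (T_le_Wd h1)) h3

end rel

/-- right-normed chains of right multiplications -/
noncomputable def chR (n : NAPoly F) (c : List ℕ) : NAPoly F := c.foldl (fun q a => q * X F a) n

@[simp] lemma chR_nil (n : NAPoly F) : chR n [] = n := rfl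

lemma chR_append (n : NAPoly F) (c : List ℕ) (a : ℕ) : chR n (c ++ [a]) = chR n c * X F a := by
  simp [chR, List.foldl_append]

lemma chR_add (n n' : NAPoly F) (c : List ℕ) : chR (n + n') c = chR n c + chR n' c := by
  induction c using List.reverseRecOn with
  | nil => rfl
  | append_singleton c a ih => rw [chR_append, chR_append, chR_append, ih, add_mul]

lemma relabel_chR (φ : ℕ → ℕ) (n : NAPoly F) (c : List ℕ) :
    relabel φ (chR n c) = chR (relabel φ n) (c.map φ) := by
  induction c using List.reverseRecOn with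
  | nil => rfl
  | append_singleton c a ih =>
    rw [chR_append, map_mul, ih, List.map_append, List.map_singleton, chR_append, relabel_X]

lemma chR_Hw {μ : Multiset ℕ} {r : ℕ} {n : NAPoly F} (hn : n ∈ Hw F μ r) (c : List ℕ) :
    chR n c ∈ Hw F (μ + (c : Multiset ℕ)) r := by
  induction c using List.reverseRecOn with
  | nil => simpa using hn
  | append_singleton c a ih =>
    rw [chR_append]
    have := Hw_mul ih (X_mem_Hw (F := F) a)
    rwa [add_zero, add_assoc, ← Multiset.coe_singleton, Multiset.coe_add] at this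

lemma chR_Wd {μ : Multiset ℕ} {r : ℕ} {n : NAPoly F} (hn : n ∈ Wd F C μ r) (c : List ℕ) :
    chR n c ∈ Wd F C (μ + (c : Multiset ℕ)) r := by
  induction c using List.reverseRecOn with
  | nil => simpa using hn
  | append_singleton c a ih =>
    rw [chR_append]
    have := Wd_mul ih (Hw_le_Wd (C := C) (X_mem_Hw (F := F) a))
    rwa [add_zero, add_assoc, ← Multiset.coe_singleton, Multiset.coe_add] at this

variable (C) in
/-- skewness modulo words with more cherries -/
def Sk (μ : Multiset ℕ) (s : ℕ) (q : NAPoly F) (k l : ℕ) : Prop :=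
  relabel (Equiv.swap k l) q + q ∈ Wd F C μ s

lemma relabel_relabel (φ ψ : ℕ → ℕ) (f : NAPoly F) :
    relabel φ (relabel ψ f) = relabel (φ ∘ ψ) f := by
  have := lift_relabel (F := F) ψ (fun i => X F (φ i)) f
  exact this

lemma Sk_symm {μ : Multiset ℕ} {s : ℕ} {q : NAPoly F} {k l : ℕ} (h : Sk C μ s q k l) :
    Sk C μ s q l k := by
  unfold Sk at *
  rwa [Equiv.swap_comm]

lemma Sk_trans {μ : Multiset ℕ} (hμ : μ.Nodup) {s : ℕ} {q : NAPoly F} {k y z : ℕ}
    (hk : k ∈ μ) (hy : y ∈ μ) (hz : z ∈ μ) (hky : k ≠ y) (hkz : k ≠ z)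
    (h1 : Sk C μ s q k y) (h2 : Sk C μ s q y z) : Sk C μ s q k z := by
  unfold Sk at *
  have st : ∀ a b, a ∈ μ → b ∈ μ → ∀ f ∈ Wd F C μ s, relabel (Equiv.swap a b) f ∈ Wd F C μ s := by
    intro a b ha hb f hf
    have := relabel_Wd (C := C) (Equiv.swap a b) hf
    rwa [map_swap_eq hμ ha hb] at this
  have e : ((Equiv.swap k z : Equiv.Perm ℕ) : ℕ → ℕ) =
      (Equiv.swap y z) ∘ (Equiv.swap k y) ∘ (Equiv.swap y z) := by
    have h3 := Equiv.swap_apply_apply (Equiv.swap y z) k y
    rw [Equiv.swap_apply_left, Equiv.swap_apply_of_ne_of_ne hky hkz] at h3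
    rw [h3, Equiv.swap_inv]
    rfl
  rw [e, ← relabel_relabel, ← relabel_relabel]
  have a1 := h2
  have a2 := st k y hk hy _ a1
  rw [map_add] at a2
  have a3 : relabel (Equiv.swap k y) (relabel (Equiv.swap y z) q) - q ∈ Wd F C μ s := by
    have : relabel (Equiv.swap k y) (relabel (Equiv.swap y z) q) - q =
      (relabel (Equiv.swap k y) (relabel (Equiv.swap y z) q) + relabel (Equiv.swap k y) q) -
      (relabel (Equiv.swap k y) q + q) := by abel
    rw [this]
    exact sub_mem a2 h1
  have a4 := st y z hy hz _ a3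
  rw [map_sub] at a4
  have : relabel (Equiv.swap y z) (relabel (Equiv.swap k y) (relabel (Equiv.swap y z) q)) + q =
      (relabel (Equiv.swap y z) (relabel (Equiv.swap k y) (relabel (Equiv.swap y z) q)) -
        relabel (Equiv.swap y z) q) + (relabel (Equiv.swap y z) q + q) := by abel
  rw [this]
  exact add_mem a4 h2

/-- the chain is skew-symmetric -/
lemma chain_skew (hC : IsAlt C) {μ : Multiset ℕ} {r : ℕ} {n : NAPoly F} (hn : n ∈ Hw F μ r)
    (c : List ℕ) (hnd : (μ + (c : Multiset ℕ)).Nodup) :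
    ∀ k ∈ c, ∀ l ∈ c, k ≠ l → Sk C (μ + (c : Multiset ℕ)) (r + 1) (chR n c) k l := by
  induction c using List.reverseRecOn with
  | nil => intro k hk; simp at hk
  | append_singleton c z ih =>
    have hco : ((c ++ [z] : List ℕ) : Multiset ℕ) = (c : Multiset ℕ) + {z} := by
      rw [← Multiset.coe_singleton, Multiset.coe_add]
    have hnd0 := hnd
    rw [hco, ← add_assoc] at hnd
    have hnd1 : (μ + (c : Multiset ℕ)).Nodup := (Multiset.nodup_add.1 hnd).1
    have hz : z ∉ μ + (c : Multiset ℕ) := by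
      have := (Multiset.nodup_add.1 hnd).2.2
      rw [Multiset.disjoint_singleton] at this
      exact this
    have hzc : z ∉ c := fun h => hz (by simp [h])
    -- both letters before the last one
    have hA : ∀ k ∈ c, ∀ l ∈ c, k ≠ l →
        Sk C (μ + ((c ++ [z] : List ℕ) : Multiset ℕ)) (r + 1) (chR n (c ++ [z])) k l := by
      intro k hk l hl hkl
      have h1 := ih hnd1 k hk l hl hkl
      unfold Sk at *
      rw [chR_append, map_mul, relabel_X, Equiv.swap_apply_of_ne_of_ne
        (fun h : z = k => hzc (h ▸ hk)) (fun h : z = l => hzc (h ▸ hl)), ← add_mul, hco,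
        ← add_assoc]
      have := Wd_mul h1 (Hw_le_Wd (C := C) (X_mem_Hw (F := F) z))
      rwa [add_zero] at this
    -- the last two letters
    have hB : ∀ k ∈ c, Sk C (μ + ((c ++ [z] : List ℕ) : Multiset ℕ)) (r + 1)
        (chR n (c ++ [z])) k z := by
      intro k hk
      rcases List.eq_nil_or_concat c with hc | ⟨c', y, hc⟩
      · rw [hc] at hk
        simp at hk
      · have hyc : y ∈ c := by rw [hc]; simp
        have hyz : y ≠ z := fun h => hzc (h ▸ hyc)
        have hco' : (c : Multiset ℕ) = (c' : Multiset ℕ) + {y} := by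
          rw [hc, List.concat_eq_append, ← Multiset.coe_singleton, Multiset.coe_add]
        have hy' : y ∉ μ + (c' : Multiset ℕ) := by
          rw [hco', ← add_assoc] at hnd1
          have := (Multiset.nodup_add.1 hnd1).2.2
          rw [Multiset.disjoint_singleton] at this
          exact this
        have hz' : z ∉ μ + (c' : Multiset ℕ) := by
          intro h
          apply hz
          rw [hco', ← add_assoc]
          exact Multiset.mem_add.2 (Or.inl h)
        have hB1 : Sk C (μ + ((c ++ [z] : List ℕ) : Multiset ℕ)) (r + 1) (chR n (c ++ [z])) y z := by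
          unfold Sk
          have hm := chR_Hw hn c'
          have hfix : relabel (Equiv.swap y z) (chR n c') = chR n c' := by
            apply relabel_fix _ (Hw_le_H _ _ hm)
            intro j hj
            exact Equiv.swap_apply_of_ne_of_ne (fun h => hy' (h ▸ hj)) (fun h => hz' (h ▸ hj))
          have hq : chR n (c ++ [z]) = (chR n c' * X F y) * X F z := by
            rw [chR_append, hc, List.concat_eq_append, chR_append]
          rw [hq, map_mul, map_mul, hfix, relabel_X, relabel_X, Equiv.swap_apply_left,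
            Equiv.swap_apply_right, hco, hco']
          have := rel1 hC (Hw_le_Wd (C := C) hm) z y
          rwa [show μ + ((c' : Multiset ℕ) + {y} + {z}) = μ + (c' : Multiset ℕ) + {z} + {y} by abel]
        by_cases hky : k = y
        · rw [hky]; exact hB1
        · have hkz : k ≠ z := fun h => hzc (h ▸ hk)
          refine Sk_trans hnd0 ?_ ?_ ?_ hky hkz (hA k hk y hyc hky) hB1
          · rw [hco]; simp [hk]
          · rw [hco]; simp [hyc]
          · rw [hco]; simp
    intro k hk l hl hkl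
    rw [List.mem_append, List.mem_singleton] at hk hl
    rcases hk with hk | rfl
    · rcases hl with hl | rfl
      · exact hA k hk l hl hkl
      · exact hB k hk
    · rcases hl with hl | rfl
      · exact Sk_symm (hB l hl)
      · exact absurd rfl hkl

variable (C) in
/-- block-skew polynomials (modulo words with more cherries) with at most `κ` blocks -/
def BS (r κ : ℕ) (μ : Multiset ℕ) (q : NAPoly F) : Prop :=
  q ∈ Hw F μ r ∧ ∃ b : ℕ → ℕ, (∀ k ∈ μ, b k < κ) ∧
    ∀ k ∈ μ, ∀ l ∈ μ, k ≠ l → b k = b l → Sk C μ (r + 1) q k l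

variable (C) in
/-- normal forms -/
def NF (r κ : ℕ) (μ : Multiset ℕ) (q : NAPoly F) : Prop :=
  ∃ (μ0 : Multiset ℕ) (n : NAPoly F) (c : List ℕ), BS C r κ μ0 n ∧
    ((μ = μ0 + (c : Multiset ℕ) ∧ q = chR n c) ∨
      ∃ x, μ = μ0 + (c : Multiset ℕ) + {x} ∧ q = X F x * chR n c)

lemma NF_Hw {r κ : ℕ} {μ : Multiset ℕ} {q : NAPoly F} (h : NF C r κ μ q) : q ∈ Hw F μ r := by
  obtain ⟨μ0, n, c, ⟨hn, _⟩, ⟨rfl, rfl⟩ | ⟨x, rfl, rfl⟩⟩ := h
  · exact chR_Hw hn c
  · have := Hw_mul (X_mem_Hw (F := F) x) (chR_Hw hn c)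
    rwa [zero_add, add_comm] at this

lemma NF_of_BS {r κ : ℕ} {μ : Multiset ℕ} {q : NAPoly F} (h : BS C r κ μ q) : NF C r κ μ q :=
  ⟨μ, q, [], h, Or.inl ⟨by simp, rfl⟩⟩

lemma chR_BS (hC : IsAlt C) {r κ : ℕ} {μ0 : Multiset ℕ} {n : NAPoly F} {c : List ℕ}
    (hnd : (μ0 + (c : Multiset ℕ)).Nodup) (hn : n ∈ Hw F μ0 r) {b : ℕ → ℕ}
    (hb : ∀ k ∈ μ0, b k < κ)
    (hsk : ∀ k ∈ μ0, ∀ l ∈ μ0, k ≠ l → b k = b l → Sk C μ0 (r + 1) n k l) :
    ∀ k ∈ μ0 + (c : Multiset ℕ), ∀ l ∈ μ0 + (c : Multiset ℕ), k ≠ l →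
      (if k ∈ c then κ else b k) = (if l ∈ c then κ else b l) →
      Sk C (μ0 + (c : Multiset ℕ)) (r + 1) (chR n c) k l := by
  intro k hk l hl hkl hbl
  rw [Multiset.mem_add, Multiset.mem_coe] at hk hl
  by_cases h1 : k ∈ c
  · by_cases h2 : l ∈ c
    · exact chain_skew hC hn c hnd k h1 l h2 hkl
    · rw [if_pos h1, if_neg h2] at hbl
      have := hb l (hl.resolve_right h2)
      omega
  · by_cases h2 : l ∈ c
    · rw [if_neg h1, if_pos h2] at hbl
      have := hb k (hk.resolve_right h1)
      omega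
    · rw [if_neg h1, if_neg h2] at hbl
      have h3 := hsk k (hk.resolve_right h1) l (hl.resolve_right h2) hkl hbl
      unfold Sk at *
      have hc : c.map (Equiv.swap k l) = c := by
        conv_rhs => rw [← List.map_id c]
        apply List.map_congr_left
        intro j hj
        exact Equiv.swap_apply_of_ne_of_ne (fun h => h1 (h ▸ hj)) (fun h => h2 (h ▸ hj))
      rw [relabel_chR, hc, ← chR_add]
      exact chR_Wd h3 c

lemma BS_of_NF (hC : IsAlt C) {r κ : ℕ} {μ : Multiset ℕ} (hμ : μ.Nodup) {q : NAPoly F}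
    (h : NF C r κ μ q) : BS C r (κ + 2) μ q := by
  have hq := NF_Hw h
  refine ⟨hq, ?_⟩
  obtain ⟨μ0, n, c, ⟨hn, b, hb, hsk⟩, ⟨rfl, rfl⟩ | ⟨x, rfl, rfl⟩⟩ := h
  · refine ⟨fun k => if k ∈ c then κ else b k, ?_, chR_BS hC hμ hn hb hsk⟩
    intro k hk
    show (if k ∈ c then κ else b k) < κ + 2
    split_ifs with h1
    · omega
    · rw [Multiset.mem_add, Multiset.mem_coe] at hk
      have := hb k (hk.resolve_right h1)
      omega
  · have hnd := (Multiset.nodup_add.1 hμ).1
    have hx : x ∉ μ0 + (c : Multiset ℕ) := by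
      have := (Multiset.nodup_add.1 hμ).2.2
      rw [Multiset.disjoint_singleton] at this
      exact this
    refine ⟨fun k => if k = x then κ + 1 else if k ∈ c then κ else b k, ?_, ?_⟩
    · intro k hk
      show (if k = x then κ + 1 else if k ∈ c then κ else b k) < κ + 2
      split_ifs with h0 h1
      · omega
      · omega
      · rw [Multiset.mem_add, Multiset.mem_add, Multiset.mem_coe, Multiset.mem_singleton] at hk
        have := hb k ((hk.resolve_right h0).resolve_right h1)
        omega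
    · intro k hk l hl hkl hbl
      have hb' : ∀ j, j ∈ μ0 + (c : Multiset ℕ) → (if j ∈ c then κ else b j) < κ + 1 := by
        intro j hj
        split_ifs with h1
        · omega
        · rw [Multiset.mem_add, Multiset.mem_coe] at hj
          have := hb j (hj.resolve_right h1)
          omega
      rw [Multiset.mem_add, Multiset.mem_singleton] at hk hl
      dsimp only at hbl
      by_cases h1 : k = x
      · have h2 : l ≠ x := fun h => hkl (h1.trans h.symm)
        rw [if_pos h1, if_neg h2] at hbl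
        have := hb' l (hl.resolve_right h2)
        omega
      · by_cases h2 : l = x
        · rw [if_neg h1, if_pos h2] at hbl
          have := hb' k (hk.resolve_right h1)
          omega
        · rw [if_neg h1, if_neg h2] at hbl
          have h3 := chR_BS hC hnd hn hb hsk k (hk.resolve_right h1) l (hl.resolve_right h2)
            hkl hbl
          unfold Sk at *
          rw [map_mul, relabel_X, Equiv.swap_apply_of_ne_of_ne (Ne.symm h1) (Ne.symm h2),
            ← mul_add]
          have := Wd_mul (Hw_le_Wd (C := C) (X_mem_Hw (F := F) x)) h3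
          rwa [zero_add, add_comm ({x} : Multiset ℕ)] at this

lemma BS_mul {r1 r2 κ1 κ2 : ℕ} {μ1 μ2 : Multiset ℕ} (hμ : (μ1 + μ2).Nodup)
    {q1 q2 : NAPoly F} (h1 : BS C r1 κ1 μ1 q1) (h2 : BS C r2 κ2 μ2 q2) :
    BS C (r1 + r2) (κ1 + κ2) (μ1 + μ2) (q1 * q2) := by
  obtain ⟨m1, b1, c1, d1⟩ := h1
  obtain ⟨m2, b2, c2, d2⟩ := h2
  have hdis : ∀ k, k ∈ μ1 → k ∉ μ2 := by
    intro k hk hk2
    exact (Multiset.disjoint_left.1 (Multiset.nodup_add.1 hμ).2.2) hk hk2
  refine ⟨Hw_mul m1 m2, fun k => if k ∈ μ1 then b1 k else κ1 + b2 k, ?_, ?_⟩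
  · intro k hk
    show (if k ∈ μ1 then b1 k else κ1 + b2 k) < κ1 + κ2
    rw [Multiset.mem_add] at hk
    split_ifs with h
    · have := c1 k h
      omega
    · have := c2 k (hk.resolve_left h)
      omega
  · intro k hk l hl hkl hb
    rw [Multiset.mem_add] at hk hl
    dsimp only at hb
    by_cases hk1 : k ∈ μ1
    · by_cases hl1 : l ∈ μ1
      · rw [if_pos hk1, if_pos hl1] at hb
        have h3 := d1 k hk1 l hl1 hkl hb
        unfold Sk at *
        have hfix : relabel (Equiv.swap k l) q2 = q2 := by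
          apply relabel_fix _ (Hw_le_H _ _ m2)
          intro j hj
          exact Equiv.swap_apply_of_ne_of_ne (fun h => hdis k hk1 (h ▸ hj))
            (fun h => hdis l hl1 (h ▸ hj))
        rw [map_mul, hfix, ← add_mul]
        have := Wd_mul h3 (Hw_le_Wd (C := C) m2)
        rwa [show r1 + 1 + r2 = r1 + r2 + 1 by omega] at this
      · rw [if_pos hk1, if_neg hl1] at hb
        have := c1 k hk1
        omega
    · by_cases hl1 : l ∈ μ1
      · rw [if_neg hk1, if_pos hl1] at hb
        have := c1 l hl1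
        omega
      · rw [if_neg hk1, if_neg hl1] at hb
        have hk2 := hk.resolve_left hk1
        have hl2 := hl.resolve_left hl1
        have h3 := d2 k hk2 l hl2 hkl (by omega)
        unfold Sk at *
        have hfix : relabel (Equiv.swap k l) q1 = q1 := by
          apply relabel_fix _ (Hw_le_H _ _ m1)
          intro j hj
          exact Equiv.swap_apply_of_ne_of_ne (fun h => hk1 (h ▸ hj)) (fun h => hl1 (h ▸ hj))
        rw [map_mul, hfix, ← mul_add]
        have := Wd_mul (Hw_le_Wd (C := C) m1) h3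
        rwa [← add_assoc] at this

variable (F C) in
/-- the span of the normal forms modulo words with more cherries -/
noncomputable def NS (r κ : ℕ) (μ : Multiset ℕ) : Submodule F (NAPoly F) :=
  Submodule.span F {q | NF C r κ μ q} ⊔ Wd F C μ (r + 1)

lemma NF_le_NS {r κ : ℕ} {μ : Multiset ℕ} {q : NAPoly F} (h : NF C r κ μ q) : q ∈ NS F C r κ μ :=
  Submodule.mem_sup_left (Submodule.subset_span h)

lemma Wd_le_NS {r κ : ℕ} {μ : Multiset ℕ} {q : NAPoly F} (h : q ∈ Wd F C μ (r + 1)) :
    q ∈ NS F C r κ μ := Submodule.mem_sup_right h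

lemma NF_mul_X (hC : IsAlt C) {r κ : ℕ} {μ : Multiset ℕ} {q : NAPoly F} (h : NF C r κ μ q)
    (z : ℕ) : q * X F z ∈ NS F C r κ (μ + {z}) := by
  obtain ⟨μ0, n, c, hn, ⟨rfl, rfl⟩ | ⟨x, rfl, rfl⟩⟩ := h
  · apply NF_le_NS
    refine ⟨μ0, n, c ++ [z], hn, Or.inl ⟨?_, (chR_append n c z).symm⟩⟩
    rw [add_assoc, ← Multiset.coe_singleton, Multiset.coe_add]
  · have hm := Hw_le_Wd (C := C) (chR_Hw hn.1 c)
    have h1 := rel2 hC hm x z
    have : X F x * chR n c * X F z =
        (X F x * chR n c * X F z - (X F x * (chR n c * X F z) + chR n c * X F z * X F x)) +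
        (X F x * (chR n c * X F z) + chR n c * X F z * X F x) := by abel
    rw [this]
    refine add_mem (Wd_le_NS h1) (add_mem (NF_le_NS ?_) (NF_le_NS ?_))
    · refine ⟨μ0, n, c ++ [z], hn, Or.inr ⟨x, ?_, by rw [chR_append]⟩⟩
      rw [← Multiset.coe_add, Multiset.coe_singleton]
      abel
    · refine ⟨μ0, n, c ++ [z] ++ [x], hn, Or.inl ⟨?_, by rw [chR_append, chR_append]⟩⟩
      rw [← Multiset.coe_add, ← Multiset.coe_add, Multiset.coe_singleton, Multiset.coe_singleton]
      abel

lemma X_mul_NF (hC : IsAlt C) {r κ : ℕ} {μ : Multiset ℕ} {q : NAPoly F} (h : NF C r κ μ q)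
    (z : ℕ) : X F z * q ∈ NS F C r κ (μ + {z}) := by
  obtain ⟨μ0, n, c, hn, ⟨rfl, rfl⟩ | ⟨x, rfl, rfl⟩⟩ := h
  · exact NF_le_NS ⟨μ0, n, c, hn, Or.inr ⟨z, rfl, rfl⟩⟩
  · have hm := Hw_le_Wd (C := C) (chR_Hw hn.1 c)
    have h1 := rel3 hC hm z x
    have : X F z * (X F x * chR n c) =
        (X F z * (X F x * chR n c) - chR n c * X F x * X F z) + chR n c * X F x * X F z := by abel
    rw [this]
    refine add_mem (Wd_le_NS ?_) (NF_le_NS ?_)
    · rwa [add_right_comm] at h1
    · refine ⟨μ0, n, c ++ [x] ++ [z], hn, Or.inl ⟨?_, by rw [chR_append, chR_append]⟩⟩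
      rw [← Multiset.coe_add, ← Multiset.coe_add, Multiset.coe_singleton, Multiset.coe_singleton]
      abel

lemma NS_mul_X (hC : IsAlt C) {r κ : ℕ} {μ : Multiset ℕ} {q : NAPoly F} (h : q ∈ NS F C r κ μ)
    (z : ℕ) : q * X F z ∈ NS F C r κ (μ + {z}) := by
  obtain ⟨q1, h1, q2, h2, rfl⟩ := Submodule.mem_sup.1 h
  rw [add_mul]
  refine add_mem ?_ (Wd_le_NS ?_)
  · induction h1 using Submodule.span_induction with
    | mem x hx => exact NF_mul_X hC hx z
    | zero => rw [zero_mul]; exact zero_mem _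
    | add x y hx' hy' hx hy =>
      rw [add_mul]
      exact add_mem (hx (Submodule.mem_sup.2 ⟨x, hx', q2, h2, rfl⟩))
        (hy (Submodule.mem_sup.2 ⟨y, hy', q2, h2, rfl⟩))
    | smul c x hx' hx =>
      rw [smul_mul_assoc]
      exact Submodule.smul_mem _ _ (hx (Submodule.mem_sup.2 ⟨x, hx', q2, h2, rfl⟩))
  · have := Wd_mul h2 (Hw_le_Wd (C := C) (X_mem_Hw (F := F) z))
    rwa [add_zero] at this

lemma X_mul_NS (hC : IsAlt C) {r κ : ℕ} {μ : Multiset ℕ} {q : NAPoly F} (h : q ∈ NS F C r κ μ)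
    (z : ℕ) : X F z * q ∈ NS F C r κ (μ + {z}) := by
  obtain ⟨q1, h1, q2, h2, rfl⟩ := Submodule.mem_sup.1 h
  rw [mul_add]
  refine add_mem ?_ (Wd_le_NS ?_)
  · induction h1 using Submodule.span_induction with
    | mem x hx => exact X_mul_NF hC hx z
    | zero => rw [mul_zero]; exact zero_mem _
    | add x y hx' hy' hx hy =>
      rw [mul_add]
      exact add_mem (hx (Submodule.mem_sup.2 ⟨x, hx', q2, h2, rfl⟩))
        (hy (Submodule.mem_sup.2 ⟨y, hy', q2, h2, rfl⟩))
    | smul c x hx' hx =>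
      rw [mul_smul_comm]
      exact Submodule.smul_mem _ _ (hx (Submodule.mem_sup.2 ⟨x, hx', q2, h2, rfl⟩))
  · have := Wd_mul (Hw_le_Wd (C := C) (X_mem_Hw (F := F) z)) h2
    rwa [zero_add, add_comm ({z} : Multiset ℕ)] at this

lemma span_NF_mul (hC : IsAlt C) {r1 r2 κ1 κ2 : ℕ} {μ1 μ2 : Multiset ℕ}
    (hμ : (μ1 + μ2).Nodup) {p q : NAPoly F} (hp : p ∈ Submodule.span F {q | NF C r1 κ1 μ1 q})
    (hq : q ∈ Submodule.span F {q | NF C r2 κ2 μ2 q}) :
    p * q ∈ NS F C (r1 + r2) ((κ1 + 2) + (κ2 + 2)) (μ1 + μ2) := by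
  induction hp using Submodule.span_induction with
  | mem x hx =>
    induction hq using Submodule.span_induction with
    | mem y hy =>
      exact NF_le_NS (NF_of_BS (BS_mul hμ (BS_of_NF hC (Multiset.nodup_add.1 hμ).1 hx)
        (BS_of_NF hC (Multiset.nodup_add.1 hμ).2.1 hy)))
    | zero => rw [mul_zero]; exact zero_mem _
    | add y z _ _ h1 h2 => rw [mul_add]; exact add_mem h1 h2
    | smul c y _ h1 => rw [mul_smul_comm]; exact Submodule.smul_mem _ _ h1
  | zero => rw [zero_mul]; exact zero_mem _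
  | add y z _ _ h1 h2 => rw [add_mul]; exact add_mem h1 h2
  | smul c y _ h1 => rw [smul_mul_assoc]; exact Submodule.smul_mem _ _ h1

lemma span_NF_le {r κ : ℕ} {μ : Multiset ℕ} {p : NAPoly F}
    (hp : p ∈ Submodule.span F {q | NF C r κ μ q}) : p ∈ Wd F C μ r := by
  refine (Submodule.span_le.2 ?_) hp
  intro q hq
  exact Hw_le_Wd (NF_Hw hq)

lemma NS_mul (hC : IsAlt C) {r1 r2 κ1 κ2 : ℕ} {μ1 μ2 : Multiset ℕ}
    (hμ : (μ1 + μ2).Nodup) {p q : NAPoly F} (hp : p ∈ NS F C r1 κ1 μ1)
    (hq : q ∈ NS F C r2 κ2 μ2) :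
    p * q ∈ NS F C (r1 + r2) ((κ1 + 2) + (κ2 + 2)) (μ1 + μ2) := by
  obtain ⟨p1, hp1, p2, hp2, rfl⟩ := Submodule.mem_sup.1 hp
  obtain ⟨q1, hq1, q2, hq2, rfl⟩ := Submodule.mem_sup.1 hq
  have hq' : q1 + q2 ∈ Wd F C μ2 r2 := add_mem (span_NF_le hq1) (by
    obtain ⟨a, ha, b, hb, rfl⟩ := Submodule.mem_sup.1 hq2
    exact add_mem (T_le_Wd ha) (Hw_le_Wd (Hw_mono (Nat.le_succ _) hb)))
  rw [add_mul, mul_add]
  refine add_mem (add_mem (span_NF_mul hC hμ hp1 hq1) (Wd_le_NS ?_)) (Wd_le_NS ?_)
  · have := Wd_mul (span_NF_le hp1) hq2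
    rwa [← add_assoc] at this
  · have := Wd_mul hp2 hq'
    rwa [show r1 + 1 + r2 = r1 + r2 + 1 by omega] at this

/-- every word is a combination of normal forms modulo words with more cherries -/
theorem word_NS (hC : IsAlt C) (w : FreeMagma ℕ) (hnd : (letters w).Nodup) (hr : 1 ≤ ch w) :
    word F w ∈ NS F C (ch w) (6 * ch w - 4) (letters w) := by
  induction w using word_induction with
  | h1 a => rw [ch_of] at hr; omega
  | h2 x y hx hy =>
    rw [letters_mul] at hnd ⊢
    have hnx := (Multiset.nodup_add.1 hnd).1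
    have hny := (Multiset.nodup_add.1 hnd).2.1
    rcases ch_pos_or x with ⟨a, rfl⟩ | hx1
    · rcases ch_pos_or y with ⟨b, rfl⟩ | hy1
      · rw [word_mul, word_of, word_of, ch_mul, ch_of, ch_of, letters_of, letters_of]
        apply NF_le_NS
        apply NF_of_BS
        refine ⟨?_, fun k => if k = a then 0 else 1, ?_, ?_⟩
        · exact XX_mem_Hw a b
        · intro k hk
          show (if k = a then 0 else 1) < _
          split_ifs <;> simp
        · intro k hk l hl hkl hb
          rw [letters_of, letters_of] at hnd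
          rw [Multiset.mem_add, Multiset.mem_singleton, Multiset.mem_singleton] at hk hl
          have hab : a ≠ b := by
            have := (Multiset.nodup_add.1 hnd).2.2
            rw [Multiset.disjoint_singleton, Multiset.mem_singleton] at this
            exact fun h => this h.symm
          dsimp only at hb
          exfalso
          rcases hk with rfl | rfl
          · rcases hl with rfl | rfl
            · exact hkl rfl
            · rw [if_pos rfl, if_neg hab.symm] at hb
              exact zero_ne_one hb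
          · rcases hl with rfl | rfl
            · rw [if_pos rfl, if_neg hab.symm] at hb
              exact zero_ne_one hb.symm
            · exact hkl rfl
      · have h1 := X_mul_NS hC (hy hny hy1) a
        have h2 : ch (FreeMagma.of a * y) = ch y := by
          rw [ch_mul, ch_of]
          omega
        rw [h2, word_mul, word_of, letters_of, add_comm]
        exact h1
    · rcases ch_pos_or y with ⟨b, rfl⟩ | hy1
      · have h1 := NS_mul_X hC (hx hnx hx1) b
        have h2 : ch (x * FreeMagma.of b) = ch x := by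
          rw [ch_mul, ch_of]
          omega
        rw [h2, word_mul, word_of, letters_of]
        exact h1
      · have h1 := NS_mul hC hnd (hx hnx hx1) (hy hny hy1)
        have h2 : ch (x * y) = ch x + ch y := by
          rw [ch_mul]
          omega
        rw [h2, word_mul]
        have h3 : 6 * (ch x + ch y) - 4 = (6 * ch x - 4 + 2) + (6 * ch y - 4 + 2) := by omega
        rw [h3]
        exact h1

end T

end Pool.Agent.SRAlt
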