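import Pool.Agent.SRAlt.NF

set_option autoImplicit false

open scoped TensorProduct

namespace Pool.Agent.SRAlt

open Pool.Agent.Superrank

/-- `ProdOf P k x`: the element `x` is a product, with some arrangement of brackets, of `k`
elements of the set `P`. -/
inductive ProdOf {B : Type} [Mul B] (P : Set B) : ℕ → B → Prop
  | one {x : B} : x ∈ P → ProdOf P 1 x
  | mul {i j : ℕ} {x y : B} : ProdOf P i x → ProdOf P j y → ProdOf P (i + j) (x * y)

/-- The square `B² = span {c d}` of the algebra `B` is a nilpotent algebra: for some `k ≥ 1` all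
products of `k` elements of `B²` (with every arrangement of brackets) are zero. -/
def NilpotentSquare (F : Type) [Field F] (B : Type) [NonUnitalNonAssocRing B] [Module F B] :
    Prop :=
  ∃ k : ℕ, 0 < k ∧ ∀ x : B, ProdOf (A2 F B : Set B) k x → x = 0

variable {F : Type} [Field F]

variable {C : Type} [NonUnitalNonAssocRing C] [Module F C] [IsScalarTower F C C]
  [SMulCommClass F C C]

variable (F C) in
/-- the `k`-th power of the square -/
noncomputable def PP (k : ℕ) : Submodule F C := Submodule.span F {x | ProdOf (A2 F C : Set C) k x}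

lemma PP_mul {i j : ℕ} {x y : C} (hx : x ∈ PP F C i) (hy : y ∈ PP F C j) :
    x * y ∈ PP F C (i + j) := by
  induction hx using Submodule.span_induction with
  | mem x hx =>
    induction hy using Submodule.span_induction with
    | mem y hy => exact Submodule.subset_span (ProdOf.mul hx hy)
    | zero => rw [mul_zero]; exact zero_mem _
    | add y z _ _ h1 h2 => rw [mul_add]; exact add_mem h1 h2
    | smul c y _ h1 => rw [mul_smul_comm]; exact Submodule.smul_mem _ _ h1
  | zero => rw [zero_mul]; exact zero_mem _
  | add y z _ _ h1 h2 => rw [add_mul]; exact add_mem h1 h2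
  | smul c y _ h1 => rw [smul_mul_assoc]; exact Submodule.smul_mem _ _ h1

lemma prodOf_ideal (hC : IsAlt C) {n : ℕ} {x : C} (hx : ProdOf (A2 F C : Set C) n x) (z : C) :
    x * z ∈ PP F C n ∧ z * x ∈ PP F C n := by
  induction hx generalizing z with
  | one _ =>
    exact ⟨Submodule.subset_span (ProdOf.one (mul_mem_A2 _ _)),
      Submodule.subset_span (ProdOf.one (mul_mem_A2 _ _))⟩
  | @mul i j x y hx hy ihx ihy =>
    have hx' : x ∈ PP F C i := Submodule.subset_span hx
    have hy' : y ∈ PP F C j := Submodule.subset_span hy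
    constructor
    · have h := alt_right hC x y z
      have : x * y * z = x * (y * z) - (x * z) * y + x * (z * y) := by
        have h2 : x * y * z - (x * (y * z) - (x * z) * y + x * (z * y)) = 0 := by
          rw [← h]; abel
        exact sub_eq_zero.1 h2
      rw [this]
      exact add_mem (sub_mem (PP_mul hx' (ihy z).1) (PP_mul (ihx z).1 hy'))
        (PP_mul hx' (ihy z).2)
    · have h := alt_left hC z x y
      have : z * (x * y) = (z * x) * y + (x * z) * y - x * (z * y) := by
        have h2 : (z * x) * y + (x * z) * y - x * (z * y) - z * (x * y) = 0 := by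
          rw [← h]; abel
        exact (sub_eq_zero.1 h2).symm
      rw [this]
      exact sub_mem (add_mem (PP_mul (ihx z).2 hy') (PP_mul (ihx z).1 hy'))
        (PP_mul hx' (ihy z).2)

lemma PP_mul_right (hC : IsAlt C) {n : ℕ} {x : C} (hx : x ∈ PP F C n) (z : C) :
    x * z ∈ PP F C n := by
  induction hx using Submodule.span_induction with
  | mem x hx => exact (prodOf_ideal hC hx z).1
  | zero => rw [zero_mul]; exact zero_mem _
  | add y w _ _ h1 h2 => rw [add_mul]; exact add_mem h1 h2
  | smul c y _ h1 => rw [smul_mul_assoc]; exact Submodule.smul_mem _ _ h1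

lemma PP_mul_left (hC : IsAlt C) {n : ℕ} {x : C} (hx : x ∈ PP F C n) (z : C) :
    z * x ∈ PP F C n := by
  induction hx using Submodule.span_induction with
  | mem x hx => exact (prodOf_ideal hC hx z).2
  | zero => rw [mul_zero]; exact zero_mem _
  | add y w _ _ h1 h2 => rw [mul_add]; exact add_mem h1 h2
  | smul c y _ h1 => rw [mul_smul_comm]; exact Submodule.smul_mem _ _ h1

omit [IsScalarTower F C C] [SMulCommClass F C C] in
lemma prodOf_pos {n : ℕ} {x : C} (hx : ProdOf (A2 F C : Set C) n x) : 1 ≤ n := by
  induction hx with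
  | one _ => exact le_rfl
  | mul _ _ h1 _ => omega

lemma prodOf_anti (hC : IsAlt C) {n : ℕ} {x : C} (hx : ProdOf (A2 F C : Set C) n x) :
    ∀ m, 1 ≤ m → m ≤ n → x ∈ PP F C m := by
  induction hx with
  | one h =>
    intro m h1 h2
    have : m = 1 := by omega
    rw [this]
    exact Submodule.subset_span (ProdOf.one h)
  | @mul i j x y hx hy ihx ihy =>
    intro m h1 h2
    have hi := prodOf_pos hx
    by_cases hm : m ≤ i
    · exact PP_mul_right hC (ihx m h1 hm) y
    · have := PP_mul (ihx i hi le_rfl) (ihy (m - i) (by omega) (by omega))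
      rwa [show i + (m - i) = m by omega] at this

lemma PP_anti (hC : IsAlt C) {m n : ℕ} (h1 : 1 ≤ m) (h2 : m ≤ n) : PP F C n ≤ PP F C m :=
  Submodule.span_le.2 fun _ hx => prodOf_anti hC hx m h1 h2

lemma ev_word_PP (hC : IsAlt C) (v : ℕ → C) (w : FreeMagma ℕ) (hw : 1 ≤ ch w) :
    FreeNonUnitalNonAssocAlgebra.lift F v (word F w) ∈ PP F C (ch w) := by
  induction w using word_induction with
  | h1 a => rw [ch_of] at hw; omega
  | h2 x y hx hy =>
    rw [word_mul, map_mul]
    rcases ch_pos_or x with ⟨a, rfl⟩ | hx1
    · rcases ch_pos_or y with ⟨b, rfl⟩ | hy1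
      · have : ch (FreeMagma.of a * FreeMagma.of b) = 1 := by rw [ch_mul, ch_of, ch_of]; rfl
        rw [this]
        exact Submodule.subset_span (ProdOf.one (mul_mem_A2 _ _))
      · have : ch (FreeMagma.of a * y) = ch y := by rw [ch_mul, ch_of]; omega
        rw [this]
        exact PP_mul_left hC (hy hy1) _
    · rcases ch_pos_or y with ⟨b, rfl⟩ | hy1
      · have : ch (x * FreeMagma.of b) = ch x := by rw [ch_mul, ch_of]; omega
        rw [this]
        exact PP_mul_right hC (hx hx1) _
      · have : ch (x * y) = ch x + ch y := by rw [ch_mul]; omega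
        rw [this]
        exact PP_mul (hx hx1) (hy hy1)

/-- if the square of `C` is nilpotent then the words with many cherries are identities -/
lemma word_identity (hC : IsAlt C) {k : ℕ} (hk : 0 < k)
    (h : ∀ x : C, ProdOf (A2 F C : Set C) k x → x = 0) (w : FreeMagma ℕ) (hw : k ≤ ch w) :
    word F w ∈ idents F C := by
  intro v
  have h1 := PP_anti (F := F) hC hk hw (ev_word_PP hC v w (by omega))
  have h2 : PP F C k ≤ ⊥ := Submodule.span_le.2 fun x hx => h x hx
  exact (Submodule.mem_bot F).1 (h2 h1)

end Pool.Agent.SRAlt
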